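import Pool.Agent.H9R2.MA.Light

set_option autoImplicit false
open MeasureTheory
open scoped ENNReal

namespace Pool.Agent.H9R2.MA

/-- regularised radius -/
noncomputable def gr (δ : ℝ) (x : E3) : ℝ := √(‖x‖ ^ 2 + δ ^ 2)

theorem gr_pos {δ : ℝ} (hδ : 0 < δ) (x : E3) : 0 < gr δ x := Real.sqrt_pos.2 (by positivity)

theorem gr_sq (δ : ℝ) (x : E3) : gr δ x ^ 2 = ‖x‖ ^ 2 + δ ^ 2 := Real.sq_sqrt (by positivity)

theorem contDiff_gr {δ : ℝ} (hδ : 0 < δ) : ContDiff ℝ 1 (gr δ) := by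
  unfold gr
  exact ContDiff.sqrt ((contDiff_norm_sq ℝ).add contDiff_const) (fun x => by positivity)

theorem gr_deriv {δ : ℝ} (hδ : 0 < δ) (x : E3) :
    HasFDerivAt (gr δ) ((gr δ x)⁻¹ • innerSL ℝ x) x := by
  have h1 : HasFDerivAt (fun y : E3 => ‖y‖ ^ 2 + δ ^ 2) (2 • innerSL ℝ x) x :=
    (hasStrictFDerivAt_norm_sq x).hasFDerivAt.add_const _
  have h2 := h1.sqrt (by positivity)
  have h3 : (1 / (2 * √(‖x‖ ^ 2 + δ ^ 2))) • (2 • innerSL ℝ x) = (gr δ x)⁻¹ • innerSL ℝ x := by
    ext v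
    simp only [ContinuousLinearMap.smul_apply, innerSL_apply_apply, nsmul_eq_mul, smul_eq_mul,
      Nat.cast_ofNat]
    unfold gr
    have : √(‖x‖ ^ 2 + δ ^ 2) ≠ 0 := (gr_pos hδ x).ne'
    field_simp
  rw [h3] at h2
  exact h2

/-- regularised unit radial field -/
noncomputable def vf (δ : ℝ) (k : Fin 3) (x : E3) : ℝ := x k * (gr δ x)⁻¹

theorem contDiff_vf {δ : ℝ} (hδ : 0 < δ) (k : Fin 3) : ContDiff ℝ 1 (vf δ k) := by
  unfold vf
  have h1 : ContDiff ℝ 1 (fun x : E3 => x k) := (EuclideanSpace.proj k : E3 →L[ℝ] ℝ).contDiff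
  exact h1.mul ((contDiff_gr hδ).inv fun x => (gr_pos hδ x).ne')

theorem vf_deriv {δ : ℝ} (hδ : 0 < δ) (k : Fin 3) (x : E3) :
    fderiv ℝ (vf δ k) x (e3 k) = (gr δ x)⁻¹ - x k ^ 2 * ((gr δ x)⁻¹) ^ 3 := by
  have h1 : HasFDerivAt (fun y : E3 => y k) (EuclideanSpace.proj k : E3 →L[ℝ] ℝ) x :=
    (EuclideanSpace.proj k : E3 →L[ℝ] ℝ).hasFDerivAt
  have h2 := (hasDerivAt_inv (gr_pos hδ x).ne').comp_hasFDerivAt x (gr_deriv hδ x)
  have h3 := h1.mul h2
  have h4 : vf δ k = (fun y : E3 => y k) * (fun x => x⁻¹) ∘ gr δ := by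
    funext y; rfl
  rw [h4]
  rw [h3.fderiv]
  have h5 : (innerSL ℝ x) (e3 k) = x k := by
    simp [e3, EuclideanSpace.inner_single_right]
  simp only [ContinuousLinearMap.add_apply, ContinuousLinearMap.smul_apply, smul_eq_mul, h5,
    Function.comp_apply]
  have h6 : (EuclideanSpace.proj k : E3 →L[ℝ] ℝ) (e3 k) = 1 := by simp [e3]
  rw [h6, inv_pow]
  ring

theorem abs_vf_le {δ : ℝ} (hδ : 0 < δ) (k : Fin 3) (x : E3) : |vf δ k x| ≤ 1 := by
  unfold vf
  rw [abs_mul, abs_of_pos (inv_pos.2 (gr_pos hδ x)), ← div_eq_mul_inv, div_le_one (gr_pos hδ x)]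
  apply Real.le_sqrt_of_sq_le
  rw [sq_abs, EuclideanSpace.norm_sq_eq]
  have := Finset.single_le_sum (f := fun i => ‖x i‖ ^ 2) (fun i _ => by positivity)
    (Finset.mem_univ k)
  simp only [Real.norm_eq_abs, sq_abs] at this ⊢
  nlinarith [sq_nonneg δ]

theorem coulomb_delta {A : E3 → E3} (hA : Continuous A) {u : Sp} (hu : Good u) {δ : ℝ}
    (hδ : 0 < δ) :
    ∫ x, MA.sq u x * (gr δ x)⁻¹ ≤ 3 * (√(∫ x, MA.sq u x) * √(∫ x, covSq A u x)) := by
  have hU := contDiff_sq hu.smooth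
  have hUs := hu.sq_supp
  have hgc : Continuous fun x => (gr δ x)⁻¹ :=
    (contDiff_gr hδ).continuous.inv₀ fun x => (gr_pos hδ x).ne'
  have hdU : ∀ k, Continuous (fun x => fderiv ℝ (MA.sq u) x (e3 k)) := fun k =>
    (hU.continuous_fderiv (by norm_num)).clm_apply continuous_const
  have hdUs : ∀ k, HasCompactSupport (fun x => fderiv ℝ (MA.sq u) x (e3 k)) := fun k =>
    hUs.fderiv_apply ℝ (e3 k)
  have hdV : ∀ k, Continuous (fun x => fderiv ℝ (vf δ k) x (e3 k)) := fun k =>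
    ((contDiff_vf hδ k).continuous_fderiv (by norm_num)).clm_apply continuous_const
  have i1 : ∀ k, Integrable (fun x => fderiv ℝ (vf δ k) x (e3 k) * MA.sq u x) := fun k =>
    ((hdV k).mul hU.continuous).integrable_of_hasCompactSupport hUs.mul_left
  have i2 : ∀ k, Integrable (fun x => vf δ k x * fderiv ℝ (MA.sq u) x (e3 k)) := fun k =>
    ((contDiff_vf hδ k).continuous.mul (hdU k)).integrable_of_hasCompactSupport (hdUs k).mul_left
  have ibp : ∀ k, ∫ x, vf δ k x * fderiv ℝ (MA.sq u) x (e3 k) =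
      - ∫ x, fderiv ℝ (vf δ k) x (e3 k) * MA.sq u x := by
    intro k
    apply integral_mul_fderiv_eq_neg_fderiv_mul_of_integrable (i1 k) (i2 k)
    · exact ((contDiff_vf hδ k).continuous.mul hU.continuous).integrable_of_hasCompactSupport
        hUs.mul_left
    · intro x _; exact ((contDiff_vf hδ k).differentiable (by norm_num)) x
    · intro x _; exact (hU.differentiable (by norm_num)) x
  have hW : Integrable (fun x => √(MA.sq u x) * √(covSq A u x)) := by
    apply (hU.continuous.sqrt.mul (continuous_covSq hA hu.smooth).sqrt).integrable_of_hasCompactSupport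
    refine HasCompactSupport.mul_left ?_
    exact hu.covSq_supp.comp_left (g := Real.sqrt) Real.sqrt_zero
  have b1 : ∀ k, ∫ x, fderiv ℝ (vf δ k) x (e3 k) * MA.sq u x ≤
      2 * ∫ x, √(MA.sq u x) * √(covSq A u x) := by
    intro k
    have h1 : ∫ x, fderiv ℝ (vf δ k) x (e3 k) * MA.sq u x =
        ∫ x, -(vf δ k x * fderiv ℝ (MA.sq u) x (e3 k)) := by
      rw [integral_neg, ibp k, neg_neg]
    rw [h1, ← integral_const_mul]
    apply integral_mono (i2 k).neg (hW.const_mul 2)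
    intro x
    have h2 := fderiv_sq_le A hu.smooth k x
    have h3 := abs_vf_le hδ k x
    calc -(vf δ k x * fderiv ℝ (MA.sq u) x (e3 k)) ≤ |vf δ k x * fderiv ℝ (MA.sq u) x (e3 k)| :=
          neg_le_abs _
      _ = |vf δ k x| * |fderiv ℝ (MA.sq u) x (e3 k)| := abs_mul _ _
      _ ≤ 1 * (2 * (√(MA.sq u x) * √(covSq A u x))) :=
          mul_le_mul h3 h2 (abs_nonneg _) zero_le_one
      _ = _ := one_mul _
  have b2 : 2 * ∫ x, MA.sq u x * (gr δ x)⁻¹ ≤
      ∑ k, ∫ x, fderiv ℝ (vf δ k) x (e3 k) * MA.sq u x := by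
    rw [← integral_finsetSum _ (fun k _ => i1 k), ← integral_const_mul]
    apply integral_mono
    · exact (hU.continuous.mul hgc).integrable_of_hasCompactSupport hUs.mul_right |>.const_mul 2
    · exact integrable_finsetSum _ fun k _ => i1 k
    intro x
    simp only [vf_deriv hδ]
    rw [← Finset.sum_mul, Finset.sum_sub_distrib, ← Finset.sum_mul]
    have h1 : ∑ k, x k ^ 2 = ‖x‖ ^ 2 := by
      rw [EuclideanSpace.norm_sq_eq]; simp
    rw [h1]
    have h2 : ‖x‖ ^ 2 * ((gr δ x)⁻¹) ^ 3 ≤ (gr δ x)⁻¹ := by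
      have h3 := gr_sq δ x
      have h4 := gr_pos hδ x
      have h5 : ‖x‖ ^ 2 ≤ gr δ x ^ 2 := by rw [h3]; nlinarith [sq_nonneg δ]
      calc ‖x‖ ^ 2 * ((gr δ x)⁻¹) ^ 3 ≤ gr δ x ^ 2 * ((gr δ x)⁻¹) ^ 3 :=
            mul_le_mul_of_nonneg_right h5 (by positivity)
        _ = (gr δ x)⁻¹ := by field_simp
    have h6 := sq_nonneg' u x
    simp only [Finset.sum_const, Finset.card_univ, Fintype.card_fin, nsmul_eq_mul]
    push_cast
    nlinarith
  have b3 : ∫ x, √(MA.sq u x) * √(covSq A u x) ≤ √(∫ x, MA.sq u x) * √(∫ x, covSq A u x) := by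
    rw [← Real.sqrt_mul (integral_nonneg (sq_nonneg' u))]
    apply Real.le_sqrt_of_sq_le
    have e1 : (fun x => √(MA.sq u x) ^ 2) = fun x => MA.sq u x := by
      funext x; exact Real.sq_sqrt (sq_nonneg' u x)
    have e2 : (fun x => √(covSq A u x) ^ 2) = fun x => covSq A u x := by
      funext x; exact Real.sq_sqrt (covSq_nonneg A u x)
    have := cs (μ := volume) (f := fun x => √(MA.sq u x)) (g := fun x => √(covSq A u x))
      (by rw [e1]; exact hu.sq_int) (by rw [e2]; exact hu.covSq_int hA) hW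
    rw [e1, e2] at this
    exact this
  have b4 : ∑ k, ∫ x, fderiv ℝ (vf δ k) x (e3 k) * MA.sq u x ≤
      ∑ _k : Fin 3, 2 * ∫ x, √(MA.sq u x) * √(covSq A u x) := Finset.sum_le_sum fun k _ => b1 k
  simp only [Finset.sum_const, Finset.card_univ, Fintype.card_fin, nsmul_eq_mul] at b4
  push_cast at b4
  linarith

theorem coulomb_lint {A : E3 → E3} (hA : Continuous A) {u : Sp} (hu : Good u) :
    ∫⁻ x, ENNReal.ofReal (MA.sq u x / ‖x‖) ≤
      ENNReal.ofReal (3 * (√(∫ x, MA.sq u x) * √(∫ x, covSq A u x))) := by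
  have hU := contDiff_sq hu.smooth
  set d : ℕ → ℝ := fun n => 1 / ((n : ℝ) + 1) with hd
  have hdpos : ∀ n, 0 < d n := fun n => by positivity
  have hdlim : Filter.Tendsto d Filter.atTop (nhds 0) := tendsto_one_div_add_atTop_nhds_zero_nat
  have hgc : ∀ n, Continuous fun x => (gr (d n) x)⁻¹ := fun n =>
    (contDiff_gr (hdpos n)).continuous.inv₀ fun x => (gr_pos (hdpos n) x).ne'
  calc ∫⁻ x, ENNReal.ofReal (MA.sq u x / ‖x‖) ≤
      ∫⁻ x, Filter.liminf (fun n => ENNReal.ofReal (MA.sq u x * (gr (d n) x)⁻¹)) Filter.atTop := by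
        apply lintegral_mono
        intro x
        by_cases hx : x = 0
        · subst hx; simp
        · have h1 : Filter.Tendsto (fun n => ENNReal.ofReal (MA.sq u x * (gr (d n) x)⁻¹))
              Filter.atTop (nhds (ENNReal.ofReal (MA.sq u x / ‖x‖))) := by
            apply ENNReal.tendsto_ofReal
            rw [div_eq_mul_inv]
            apply Filter.Tendsto.const_mul
            apply Filter.Tendsto.inv₀ _ (norm_ne_zero_iff.2 hx)
            have h2 : Filter.Tendsto (fun n => √(‖x‖ ^ 2 + d n ^ 2)) Filter.atTop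
                (nhds (√(‖x‖ ^ 2 + 0 ^ 2))) :=
              (Filter.Tendsto.const_add _ (hdlim.pow 2)).sqrt
            have h3 : √(‖x‖ ^ 2 + 0 ^ 2) = ‖x‖ := by
              rw [zero_pow two_ne_zero, add_zero, Real.sqrt_sq (norm_nonneg x)]
            rw [h3] at h2
            exact h2
          change _ ≤ Filter.liminf (fun n => ENNReal.ofReal (MA.sq u x * (gr (d n) x)⁻¹)) Filter.atTop
          rw [h1.liminf_eq]
    _ ≤ Filter.liminf (fun n => ∫⁻ x, ENNReal.ofReal (MA.sq u x * (gr (d n) x)⁻¹)) Filter.atTop := by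
        apply lintegral_liminf_le
        intro n
        exact (hU.continuous.mul (hgc n)).measurable.ennreal_ofReal
    _ ≤ Filter.liminf (fun _ : ℕ => ENNReal.ofReal (3 * (√(∫ x, MA.sq u x) * √(∫ x, covSq A u x))))
          Filter.atTop := by
        refine Filter.liminf_le_liminf (Filter.Eventually.of_forall fun n => ?_) ?_ ?_
        rotate_left
        · isBoundedDefault
        · isBoundedDefault
        rw [← ofReal_integral_eq_lintegral_ofReal]
        · exact ENNReal.ofReal_le_ofReal (coulomb_delta hA hu (hdpos n))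
        · exact (hU.continuous.mul (hgc n)).integrable_of_hasCompactSupport hu.sq_supp.mul_right
        · refine Filter.Eventually.of_forall fun x => ?_
          exact mul_nonneg (sq_nonneg' u x) (inv_nonneg.2 (gr_pos (hdpos n) x).le)
    _ = _ := by simp

theorem coulomb_int {u : Sp} (hu : Good u) : Integrable (fun x => MA.sq u x / ‖x‖) := by
  have hm : AEStronglyMeasurable (fun x => MA.sq u x / ‖x‖) volume :=
    ((contDiff_sq hu.smooth).continuous.measurable.div measurable_norm).aestronglyMeasurable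
  refine ⟨hm, ?_⟩
  rw [hasFiniteIntegral_iff_ofReal
    (Filter.Eventually.of_forall fun x => div_nonneg (sq_nonneg' u x) (norm_nonneg x))]
  exact (coulomb_lint (A := fun _ => 0) continuous_const hu).trans_lt ENNReal.ofReal_lt_top

theorem coulomb {A : E3 → E3} (hA : Continuous A) {u : Sp} (hu : Good u) :
    ∫ x, MA.sq u x / ‖x‖ ≤ 3 * (√(∫ x, MA.sq u x) * √(∫ x, covSq A u x)) := by
  have h := coulomb_lint hA hu
  rw [← ofReal_integral_eq_lintegral_ofReal (coulomb_int hu)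
    (Filter.Eventually.of_forall fun x => div_nonneg (sq_nonneg' u x) (norm_nonneg x))] at h
  exact (ENNReal.ofReal_le_ofReal_iff (by positivity)).1 h

end Pool.Agent.H9R2.MA
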