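import Mathlib

set_option autoImplicit false
open MeasureTheory

namespace Pool.Agent.H9R2.MA

/-- Euclidean three-space -/
abbrev E3 := EuclideanSpace ℝ (Fin 3)

/-- unit vectors -/
noncomputable abbrev e3 (k : Fin 3) : E3 := EuclideanSpace.single k (1:ℝ)

/-- Pauli matrices -/
noncomputable abbrev pauli : Fin 3 → Matrix (Fin 2) (Fin 2) ℂ :=
  ![!![0, 1; 1, 0], !![0, -Complex.I; Complex.I, 0], !![1, 0; 0, -1]]

/-- two-component functions -/
abbrev Sp := E3 → Fin 2 → ℂ

/-- covariant derivative `(-i ∂_k + A_k) u` -/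
noncomputable def cov (A : E3 → E3) (u : Sp) (k : Fin 3) (x : E3) (a : Fin 2) : ℂ :=
  (-Complex.I) * fderiv ℝ (fun y => u y a) x (e3 k) + ((A x k : ℝ) : ℂ) * u x a

/-- the Dirac operator `σ · (p + A)` -/
noncomputable def dirac (A : E3 → E3) (u : Sp) (x : E3) (a : Fin 2) : ℂ :=
  ∑ k, ∑ t, pauli k a t * cov A u k x t

/-- pointwise squared length -/
noncomputable def sq (u : Sp) (x : E3) : ℝ := ∑ a, ‖u x a‖ ^ 2

/-- pointwise squared length of the covariant gradient -/
noncomputable def covSq (A : E3 → E3) (u : Sp) (x : E3) : ℝ := ∑ k, ∑ a, ‖cov A u k x a‖ ^ 2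

/-- pointwise squared length of the Dirac derivative -/
noncomputable def diracSq (A : E3 → E3) (u : Sp) (x : E3) : ℝ := ∑ a, ‖dirac A u x a‖ ^ 2

/-- squared length of the magnetic field -/
noncomputable def Bsq (A : E3 → E3) (y : E3) : ℝ :=
  (1 / 2 : ℝ) * ∑ j : Fin 3, ∑ k : Fin 3,
    ((fderiv ℝ A y (e3 j)) k - (fderiv ℝ A y (e3 k)) j) ^ 2

/-- half-open boxes -/
def box (c : Fin 3 → ℝ) (l : ℝ) : Set E3 := {x | ∀ i, c i ≤ x i ∧ x i < c i + l}

/-- admissible one-particle functions: componentwise `C²` with compact support -/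
structure Good (u : Sp) : Prop where
  smooth : ∀ a, ContDiff ℝ 2 (fun x => u x a)
  supp : ∀ a, HasCompactSupport (fun x => u x a)

end Pool.Agent.H9R2.MA
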