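import Pool.Agent.H9R2.MA.Sob

set_option autoImplicit false
open MeasureTheory
open scoped ENNReal

namespace Pool.Agent.H9R2.MA

/-- squared length in `ℂ²` -/
noncomputable def nn (v : Fin 2 → ℂ) : ℝ := ∑ a, ‖v a‖ ^ 2

/-- inner product in `ℂ²` -/
noncomputable def hh (v w : Fin 2 → ℂ) : ℂ := ∑ a, (starRingEnd ℂ) (v a) * w a

theorem nn_eq (v : Fin 2 → ℂ) :
    nn v = (v 0).re ^ 2 + (v 0).im ^ 2 + (v 1).re ^ 2 + (v 1).im ^ 2 := by
  unfold nn
  rw [Fin.sum_univ_two, ← Complex.normSq_eq_norm_sq, ← Complex.normSq_eq_norm_sq,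
    Complex.normSq_apply, Complex.normSq_apply]
  ring

theorem design_a (v w : Fin 2 → ℂ) :
    ∑ k : Fin 4, nn (fun s => w s + Complex.I ^ (k : ℕ) * v s) ^ 2 =
      4 * ((nn w + nn v) ^ 2 + 2 * ‖hh w v‖ ^ 2) := by
  rw [Fin.sum_univ_four, ← Complex.normSq_eq_norm_sq, Complex.normSq_apply]
  simp only [nn_eq, hh, Fin.sum_univ_two, Fin.val_zero, Fin.val_one, Fin.val_two, pow_zero, pow_one,
    Complex.I_sq]
  have h3 : Complex.I ^ ((3 : Fin 4) : ℕ) = -Complex.I := by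
    have : ((3 : Fin 4) : ℕ) = 3 := rfl
    rw [this, pow_succ, Complex.I_sq]; ring
  rw [h3]
  simp only [Complex.add_re, Complex.add_im, Complex.mul_re, Complex.mul_im, Complex.conj_re,
    Complex.conj_im, Complex.I_re, Complex.I_im, Complex.neg_re, Complex.neg_im, Complex.one_re,
    Complex.one_im]
  ring

theorem design_b (v w z : Fin 2 → ℂ) :
    ∑ k : Fin 4, ‖hh (fun s => w s + Complex.I ^ (k : ℕ) * v s) z‖ ^ 2 =
      4 * (‖hh w z‖ ^ 2 + ‖hh v z‖ ^ 2) := by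
  rw [Fin.sum_univ_four]
  simp only [← Complex.normSq_eq_norm_sq, Complex.normSq_apply]
  simp only [hh, Fin.sum_univ_two, Fin.val_zero, Fin.val_one, Fin.val_two, pow_zero, pow_one,
    Complex.I_sq]
  have h3 : Complex.I ^ ((3 : Fin 4) : ℕ) = -Complex.I := by
    have : ((3 : Fin 4) : ℕ) = 3 := rfl
    rw [this, pow_succ, Complex.I_sq]; ring
  rw [h3]
  simp only [Complex.add_re, Complex.add_im, Complex.mul_re, Complex.mul_im, Complex.conj_re,
    Complex.conj_im, Complex.I_re, Complex.I_im, Complex.neg_re, Complex.neg_im, Complex.one_re,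
    Complex.one_im]
  ring

theorem design_c (v w : Fin 2 → ℂ) :
    ∑ k : Fin 4, nn (fun s => w s + Complex.I ^ (k : ℕ) * v s) = 4 * (nn w + nn v) := by
  rw [Fin.sum_univ_four]
  simp only [nn_eq, Fin.val_zero, Fin.val_one, Fin.val_two, pow_zero, pow_one,
    Complex.I_sq]
  have h3 : Complex.I ^ ((3 : Fin 4) : ℕ) = -Complex.I := by
    have : ((3 : Fin 4) : ℕ) = 3 := rfl
    rw [this, pow_succ, Complex.I_sq]; ring
  rw [h3]
  simp only [Complex.add_re, Complex.add_im, Complex.mul_re, Complex.mul_im,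
    Complex.I_re, Complex.I_im, Complex.neg_re, Complex.neg_im, Complex.one_re,
    Complex.one_im]
  ring

theorem gram_low (v1 v2 v3 : Fin 2 → ℂ) :
    (1 / 2 : ℝ) * (nn v1 + nn v2 + nn v3) ^ 2 ≤ nn v1 ^ 2 + nn v2 ^ 2 + nn v3 ^ 2 +
      2 * (‖hh v1 v2‖ ^ 2 + ‖hh v1 v3‖ ^ 2 + ‖hh v2 v3‖ ^ 2) := by
  simp only [← Complex.normSq_eq_norm_sq, Complex.normSq_apply]
  simp only [nn_eq, hh, Fin.sum_univ_two, Complex.add_re, Complex.add_im, Complex.mul_re,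
    Complex.mul_im, Complex.conj_re, Complex.conj_im]
  generalize (v1 0).re = a1
  generalize (v1 0).im = b1
  generalize (v1 1).re = c1
  generalize (v1 1).im = d1
  generalize (v2 0).re = a2
  generalize (v2 0).im = b2
  generalize (v2 1).re = c2
  generalize (v2 1).im = d2
  generalize (v3 0).re = a3
  generalize (v3 0).im = b3
  generalize (v3 1).re = c3
  generalize (v3 1).im = d3
  have h1 := sq_nonneg ((a1 ^ 2 + b1 ^ 2 + a2 ^ 2 + b2 ^ 2 + a3 ^ 2 + b3 ^ 2) -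
    (c1 ^ 2 + d1 ^ 2 + c2 ^ 2 + d2 ^ 2 + c3 ^ 2 + d3 ^ 2))
  have h2 := sq_nonneg ((a1 * c1 + b1 * d1) + (a2 * c2 + b2 * d2) + (a3 * c3 + b3 * d3))
  have h3 := sq_nonneg ((a1 * d1 - b1 * c1) + (a2 * d2 - b2 * c2) + (a3 * d3 - b3 * c3))
  nlinarith [h1, h2, h3]

/-- the finite design inequality -/
theorem design (v1 v2 v3 : Fin 2 → ℂ) :
    24 * (nn v1 + nn v2 + nn v3) ^ 2 ≤
      (∑ k : Fin 4, ∑ l : Fin 4,
        nn (fun s => (v1 s + Complex.I ^ (k : ℕ) * v2 s) + Complex.I ^ (l : ℕ) * v3 s) ^ 2) +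
      16 * (nn v1 ^ 2 + nn v2 ^ 2 + nn v3 ^ 2) := by
  have h1 : ∀ k : Fin 4, ∑ l : Fin 4,
      nn (fun s => (v1 s + Complex.I ^ (k : ℕ) * v2 s) + Complex.I ^ (l : ℕ) * v3 s) ^ 2 =
      4 * ((nn (fun s => v1 s + Complex.I ^ (k : ℕ) * v2 s) + nn v3) ^ 2 +
        2 * ‖hh (fun s => v1 s + Complex.I ^ (k : ℕ) * v2 s) v3‖ ^ 2) := fun k => design_a v3 _
  simp_rw [h1]
  have h2 : ∑ k : Fin 4, 4 * ((nn (fun s => v1 s + Complex.I ^ (k : ℕ) * v2 s) + nn v3) ^ 2 +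
        2 * ‖hh (fun s => v1 s + Complex.I ^ (k : ℕ) * v2 s) v3‖ ^ 2) =
      4 * ((∑ k : Fin 4, nn (fun s => v1 s + Complex.I ^ (k : ℕ) * v2 s) ^ 2) +
        2 * nn v3 * (∑ k : Fin 4, nn (fun s => v1 s + Complex.I ^ (k : ℕ) * v2 s)) +
        4 * nn v3 ^ 2 + 2 * ∑ k : Fin 4, ‖hh (fun s => v1 s + Complex.I ^ (k : ℕ) * v2 s) v3‖ ^ 2) := by
    simp only [Fin.sum_univ_four]
    ring
  rw [h2, design_a, design_b, design_c]
  have h3 := gram_low v1 v2 v3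
  nlinarith [h3]

end Pool.Agent.H9R2.MA
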