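import Pool.Agent.H9R2.MA.Coulomb

set_option autoImplicit false
open MeasureTheory
open scoped ENNReal

namespace Pool.Agent.H9R2.MA

/-- corner of a half-size sub-box -/
noncomputable def sub (c : Fin 3 → ℝ) (l : ℝ) (b : Fin 3 → Fin 2) : Fin 3 → ℝ :=
  fun i => c i + ((b i : ℕ) : ℝ) * (l / 2)

theorem box_split (c : Fin 3 → ℝ) (l : ℝ) (hl : 0 < l) :
    box c l = ⋃ b : Fin 3 → Fin 2, box (sub c l b) (l / 2) := by
  ext x
  simp only [Set.mem_iUnion, box, Set.mem_setOf_eq, sub]
  constructor
  · intro h
    refine ⟨fun i => if x i < c i + l / 2 then 0 else 1, fun i => ?_⟩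
    have hi := h i
    by_cases hx : x i < c i + l / 2
    · simp only [hx, if_true, Fin.val_zero, Nat.cast_zero]
      constructor <;> linarith
    · simp only [hx, if_false, Fin.val_one, Nat.cast_one]
      push Not at hx
      constructor <;> linarith
  · rintro ⟨b, hb⟩ i
    have hi := hb i
    have h0 : ((b i : ℕ) : ℝ) = 0 ∨ ((b i : ℕ) : ℝ) = 1 := by
      have : (b i : ℕ) = 0 ∨ (b i : ℕ) = 1 := by have := (b i).isLt; omega
      rcases this with h | h <;> simp [h]
    rcases h0 with h0 | h0 <;> rw [h0] at hi <;> constructor <;> linarith [hi.1, hi.2]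

theorem box_disj (c : Fin 3 → ℝ) (l : ℝ) (_hl : 0 < l) :
    Pairwise (Function.onFun Disjoint fun b : Fin 3 → Fin 2 => box (sub c l b) (l / 2)) := by
  intro b b' hbb
  rw [Function.onFun, Set.disjoint_left]
  intro x hx hx'
  apply hbb
  funext i
  have h1 := hx i
  have h2 := hx' i
  simp only [sub] at h1 h2
  have key : ∀ a a' : ℕ, c i + (a : ℝ) * (l / 2) ≤ x i → x i < c i + (a' : ℝ) * (l / 2) + l / 2 →
      a ≤ a' := by
    intro a a' h h'
    by_contra hcon
    push Not at hcon
    have : (a' : ℝ) + 1 ≤ a := by exact_mod_cast hcon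
    nlinarith
  exact Fin.ext (le_antisymm (key _ _ h1.1 h2.2) (key _ _ h2.1 h1.2))

theorem int_split {g : E3 → ℝ} (hg : Continuous g) (c : Fin 3 → ℝ) (l : ℝ) (hl : 0 < l) :
    ∫ x in box c l, g x = ∑ b, ∫ x in box (sub c l b) (l / 2), g x := by
  rw [box_split c l hl]
  exact integral_iUnion_fintype (fun b => measurableSet_box _ _) (box_disj c l hl)
    (fun b => Continuous.intBox hg _ _)

/-- Calderon-Zygmund type selection of cubes -/
theorem tree {A : E3 → E3} (hA : ContDiff ℝ 1 A) (n : ℕ) : ∀ (c : Fin 3 → ℝ) (l : ℝ), 0 < l →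
    l * ∫ x in box c l, Bsq A x ≤ 2 ^ n * (1 / 40000) ^ 2 →
    ∃ F : List ((Fin 3 → ℝ) × ℝ), (∀ q ∈ F, 0 < q.2) ∧
      (F.map (fun q => 1 / q.2)).sum ≤
        max 0 (32 * 40000 ^ 2 * (∫ x in box c l, Bsq A x) - 16 / l) ∧
      ∀ (Pos Cond : (Fin 3 → ℝ) → ℝ → Prop),
        (∀ c l, 0 < l → (∀ b, Pos (sub c l b) (l / 2)) → Pos c l) →
        (∀ c l, 0 < l → l * ∫ x in box c l, Bsq A x ≤ (1 / 40000) ^ 2 → Cond c l → Pos c l) →
        (∀ q ∈ F, Cond q.1 q.2) → Cond c l → Pos c l := by
  induction n with
  | zero =>
    intro c l hl h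
    refine ⟨[], by simp, by simp, fun Pos Cond _ h2 _ h4 => h2 c l hl ?_ h4⟩
    simpa using h
  | succ n ih =>
    intro c l hl h
    by_cases hlight : l * ∫ x in box c l, Bsq A x ≤ (1 / 40000) ^ 2
    · exact ⟨[], by simp, by simp, fun Pos Cond _ h2 _ h4 => h2 c l hl hlight h4⟩
    · push Not at hlight
      have hBc := continuous_Bsq hA
      have hsplit := int_split hBc c l hl
      have hnn : ∀ b, 0 ≤ ∫ x in box (sub c l b) (l / 2), Bsq A x := fun b =>
        integral_nonneg (Bsq_nonneg A)
      have hchild : ∀ b, l / 2 * ∫ x in box (sub c l b) (l / 2), Bsq A x ≤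
          2 ^ n * (1 / 40000) ^ 2 := by
        intro b
        have h1 : ∫ x in box (sub c l b) (l / 2), Bsq A x ≤ ∫ x in box c l, Bsq A x := by
          rw [hsplit]
          exact Finset.single_le_sum (f := fun b => ∫ x in box (sub c l b) (l / 2), Bsq A x)
            (fun b _ => hnn b) (Finset.mem_univ b)
        have h2 := mul_le_mul_of_nonneg_left h1 (by linarith : (0:ℝ) ≤ l / 2)
        rw [pow_succ] at h
        nlinarith
      choose F hF1 hF2 hF3 using fun b => ih (sub c l b) (l / 2) (by linarith) (hchild b)
      refine ⟨(Finset.univ : Finset (Fin 3 → Fin 2)).toList.flatMap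
        (fun b => (sub c l b, l / 2) :: F b), ?_, ?_, ?_⟩
      · intro q hq
        rw [List.mem_flatMap] at hq
        obtain ⟨b, _, hb⟩ := hq
        rcases List.mem_cons.1 hb with rfl | hb
        · simp only; linarith
        · exact hF1 b q hb
      · have e1 : ((Finset.univ : Finset (Fin 3 → Fin 2)).toList.flatMap
            (fun b => (sub c l b, l / 2) :: F b)).map (fun q => 1 / q.2) =
            (Finset.univ : Finset (Fin 3 → Fin 2)).toList.flatMap
            (fun b => (1 / (l / 2)) :: (F b).map (fun q => 1 / q.2)) := by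
          rw [List.map_flatMap]; rfl
        rw [e1, List.flatMap_def, List.sum_flatten, List.map_map]
        have e2 : (List.map (List.sum ∘ fun b => (1 / (l / 2)) :: (F b).map (fun q => 1 / q.2))
            (Finset.univ : Finset (Fin 3 → Fin 2)).toList).sum =
            ∑ b, (1 / (l / 2) + ((F b).map (fun q => 1 / q.2)).sum) := by
          rw [Finset.sum_map_toList]
          rfl
        rw [e2, Finset.sum_add_distrib]
        have e3' : ∑ _b : Fin 3 → Fin 2, 1 / (l / 2) = 16 / l := by
          rw [Finset.sum_const, Finset.card_univ]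
          simp only [Fintype.card_pi, Fintype.card_fin, Finset.prod_const, Finset.card_univ,
            nsmul_eq_mul]
          push_cast
          field_simp
          norm_num
        rw [e3']
        have e4 : (0:ℝ) < 16 / l := by positivity
        have e5 : 16 / (l / 2) = 2 * (16 / l) := by field_simp
        have e6 : 16 / l < 16 * 40000 ^ 2 * ∫ x in box c l, Bsq A x := by
          rw [div_lt_iff₀ hl]
          nlinarith
        have hF2' : ∀ b, ((F b).map (fun q => 1 / q.2)).sum ≤
            max 0 (32 * 40000 ^ 2 * (∫ x in box (sub c l b) (l / 2), Bsq A x) - 2 * (16 / l)) := by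
          intro b
          have := hF2 b
          rw [e5] at this
          exact this
        refine le_trans (add_le_add_right (Finset.sum_le_sum fun b _ => hF2' b) _) ?_
        refine le_trans ?_ (le_max_right _ _)
        by_cases hex : ∃ b, 0 < 32 * 40000 ^ 2 * (∫ x in box (sub c l b) (l / 2), Bsq A x) -
            2 * (16 / l)
        · obtain ⟨b0, hb0⟩ := hex
          have h1 : ∑ b, max 0 (32 * 40000 ^ 2 * (∫ x in box (sub c l b) (l / 2), Bsq A x) -
              2 * (16 / l)) ≤ (∑ b, 32 * 40000 ^ 2 * (∫ x in box (sub c l b) (l / 2), Bsq A x)) -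
              2 * (16 / l) := by
            rw [← Finset.sum_erase_add _ _ (Finset.mem_univ b0),
              ← Finset.sum_erase_add (a := b0) (f := fun b => 32 * 40000 ^ 2 *
                (∫ x in box (sub c l b) (l / 2), Bsq A x)) _ (Finset.mem_univ b0)]
            rw [max_eq_right hb0.le]
            have : ∑ b ∈ Finset.univ.erase b0, max 0 (32 * 40000 ^ 2 *
                (∫ x in box (sub c l b) (l / 2), Bsq A x) - 2 * (16 / l)) ≤
                ∑ b ∈ Finset.univ.erase b0, 32 * 40000 ^ 2 *
                (∫ x in box (sub c l b) (l / 2), Bsq A x) := by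
              apply Finset.sum_le_sum
              intro b _
              apply max_le
              · have := hnn b; positivity
              · linarith
            linarith
          rw [← Finset.mul_sum, ← hsplit] at h1
          linarith
        · push Not at hex
          have h1 : ∑ b, max 0 (32 * 40000 ^ 2 * (∫ x in box (sub c l b) (l / 2), Bsq A x) -
              2 * (16 / l)) = 0 := by
            apply Finset.sum_eq_zero
            intro b _
            exact max_eq_left (hex b)
          rw [h1]
          linarith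
      · intro Pos Cond h1 h2 h3 h4
        apply h1 c l hl
        intro b
        have hmem : ∀ q ∈ (sub c l b, l / 2) :: F b, q ∈ (Finset.univ : Finset (Fin 3 → Fin 2)).toList.flatMap
            (fun b => (sub c l b, l / 2) :: F b) := by
          intro q hq
          rw [List.mem_flatMap]
          exact ⟨b, by simp, hq⟩
        apply hF3 b Pos Cond h1 h2
        · intro q hq
          exact h3 q (hmem q (List.mem_cons_of_mem _ hq))
        · exact h3 (sub c l b, l / 2) (hmem _ List.mem_cons_self)

end Pool.Agent.H9R2.MA
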