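import Pool.Agent.H9R2.MA.Forms

set_option autoImplicit false
open MeasureTheory
open scoped ENNReal

namespace Pool.Agent.H9R2.MA

open Matrix

theorem vol_box (c : Fin 3 → ℝ) (l : ℝ) (hl : 0 < l) : ∫ _x in box c l, (1:ℝ) = l ^ 3 := by
  have h1 : volume (box c l) = ENNReal.ofReal (l ^ 3) := by
    have h2 := lint_box c l (fun _ => 1)
    rw [lintegral_const, lintegral_const, one_mul, one_mul,
      Measure.restrict_apply MeasurableSet.univ, Set.univ_inter, Measure.pi_univ] at h2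
    rw [h2]
    simp only [Measure.restrict_apply MeasurableSet.univ, Set.univ_inter, Real.volume_Ico,
      add_sub_cancel_left, Finset.prod_const, Finset.card_univ, Fintype.card_fin]
    rw [ENNReal.ofReal_pow hl.le]
  rw [setIntegral_const, smul_eq_mul, mul_one, measureReal_def, h1,
    ENNReal.toReal_ofReal (by positivity)]

theorem jensen_box {S : E3 → ℝ} (hS : Continuous S) (c : Fin 3 → ℝ) (l : ℝ) (hl : 0 < l) :
    (∫ x in box c l, S x) ^ 2 ≤ l ^ 3 * ∫ x in box c l, S x ^ 2 := by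
  have h := cs (μ := volume.restrict (box c l)) (f := S) (g := fun _ => 1)
    (Continuous.intBox (hS.pow 2) c l) (Continuous.intBox (f := fun _ => (1:ℝ) ^ 2)
      continuous_const c l)
    (Continuous.intBox (f := fun x => S x * 1) (hS.mul continuous_const) c l)
  simp only [mul_one, one_pow] at h
  rw [vol_box c l hl] at h
  linarith

theorem orth_false {A : E3 → E3} (hA : Continuous A) {w : Fin 3 → Sp}
    (hw : ∀ m a, ContDiff ℝ 2 (fun x => w m x a)) (c : Fin 3 → ℝ) (l : ℝ) (hl : 0 < l)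
    (h1 : ∀ β : Fin 3 → ℂ, ∫ x in box c l, MA.sq (comb w β) x = ∑ i, ‖β i‖ ^ 2)
    (h2 : ∀ β : Fin 3 → ℂ, ∫ x in box c l, covSq A (comb w β) x ≤
      (1 / 10000) * (l⁻¹) ^ 2 * ∑ i, ‖β i‖ ^ 2) : False := by
  have key : ∀ β : Fin 3 → ℂ, ∫ x in box c l, MA.sq (comb w β) x ^ 2 ≤
      (1124864 / 1000000) * (l⁻¹) ^ 3 * (∑ i, ‖β i‖ ^ 2) ^ 2 := by
    intro β
    have h3 := cube_sobolev hA (comb_smooth hw β) c l hl
    rw [h1 β] at h3
    have h2' := h2 β
    set n := ∑ i, ‖β i‖ ^ 2 with hn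
    have hn0 : 0 ≤ n := Finset.sum_nonneg fun i _ => by positivity
    have h4 : √(∫ x in box c l, covSq A (comb w β) x) ≤ (1 / 100) * l⁻¹ * √n := by
      apply Real.sqrt_le_iff.2
      refine ⟨by positivity, h2'.trans (le_of_eq ?_)⟩
      rw [mul_pow, mul_pow, Real.sq_sqrt hn0]
      norm_num
    have h5 : l⁻¹ * √n + 4 * √(∫ x in box c l, covSq A (comb w β) x) ≤
        (104 / 100) * l⁻¹ * √n := by linarith
    have h6 : 0 ≤ l⁻¹ * √n + 4 * √(∫ x in box c l, covSq A (comb w β) x) := by positivity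
    calc ∫ x in box c l, MA.sq (comb w β) x ^ 2 ≤
        (l⁻¹ * √n + 4 * √(∫ x in box c l, covSq A (comb w β) x)) ^ 3 * √n := h3
      _ ≤ ((104 / 100) * l⁻¹ * √n) ^ 3 * √n :=
          mul_le_mul_of_nonneg_right (pow_le_pow_left₀ h6 h5 3) (Real.sqrt_nonneg _)
      _ = (1124864 / 1000000) * (l⁻¹) ^ 3 * (√n ^ 2) ^ 2 := by ring
      _ = _ := by rw [Real.sq_sqrt hn0]
  -- pointwise design inequality
  have hpt : ∀ x, 24 * (MA.sq (w 0) x + MA.sq (w 1) x + MA.sq (w 2) x) ^ 2 ≤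
      (∑ k : Fin 4, ∑ l : Fin 4,
        MA.sq (comb w ![1, Complex.I ^ (k : ℕ), Complex.I ^ (l : ℕ)]) x ^ 2) +
      16 * (MA.sq (comb w ![1, 0, 0]) x ^ 2 + MA.sq (comb w ![0, 1, 0]) x ^ 2 +
        MA.sq (comb w ![0, 0, 1]) x ^ 2) := by
    intro x
    have h := design (w 0 x) (w 1 x) (w 2 x)
    have e1 : ∀ k l : Fin 4, MA.sq (comb w ![1, Complex.I ^ (k : ℕ), Complex.I ^ (l : ℕ)]) x =
        nn (fun s => (w 0 x s + Complex.I ^ (k : ℕ) * w 1 x s) + Complex.I ^ (l : ℕ) * w 2 x s) := by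
      intro k l
      unfold MA.sq nn comb
      refine Finset.sum_congr rfl fun s _ => ?_
      rw [Fin.sum_univ_three]
      simp
    have e2 : MA.sq (comb w ![1, 0, 0]) x = nn (w 0 x) := by
      unfold MA.sq nn comb
      refine Finset.sum_congr rfl fun s _ => ?_
      rw [Fin.sum_univ_three]
      simp
    have e3 : MA.sq (comb w ![0, 1, 0]) x = nn (w 1 x) := by
      unfold MA.sq nn comb
      refine Finset.sum_congr rfl fun s _ => ?_
      rw [Fin.sum_univ_three]
      simp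
    have e4 : MA.sq (comb w ![0, 0, 1]) x = nn (w 2 x) := by
      unfold MA.sq nn comb
      refine Finset.sum_congr rfl fun s _ => ?_
      rw [Fin.sum_univ_three]
      simp
    simp_rw [e1, e2, e3, e4]
    exact h
  have hc : ∀ β, Continuous fun x => MA.sq (comb w β) x ^ 2 := fun β =>
    (contDiff_sq (comb_smooth hw β)).continuous.pow 2
  have hcS : Continuous fun x => MA.sq (w 0) x + MA.sq (w 1) x + MA.sq (w 2) x :=
    (((contDiff_sq (hw 0)).continuous).add (contDiff_sq (hw 1)).continuous).add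
      (contDiff_sq (hw 2)).continuous
  have hint : 24 * ∫ x in box c l, (MA.sq (w 0) x + MA.sq (w 1) x + MA.sq (w 2) x) ^ 2 ≤
      (∑ k : Fin 4, ∑ j : Fin 4,
        ∫ x in box c l, MA.sq (comb w ![1, Complex.I ^ (k : ℕ), Complex.I ^ (j : ℕ)]) x ^ 2) +
      16 * ((∫ x in box c l, MA.sq (comb w ![1, 0, 0]) x ^ 2) +
        (∫ x in box c l, MA.sq (comb w ![0, 1, 0]) x ^ 2) +
        (∫ x in box c l, MA.sq (comb w ![0, 0, 1]) x ^ 2)) := by
    rw [← integral_const_mul]
    have hi : ∀ β, Integrable (fun x => MA.sq (comb w β) x ^ 2) (volume.restrict (box c l)) :=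
      fun β => Continuous.intBox (hc β) c l
    have h5 : (∑ k : Fin 4, ∑ j : Fin 4,
        ∫ x in box c l, MA.sq (comb w ![1, Complex.I ^ (k : ℕ), Complex.I ^ (j : ℕ)]) x ^ 2) +
      16 * ((∫ x in box c l, MA.sq (comb w ![1, 0, 0]) x ^ 2) +
        (∫ x in box c l, MA.sq (comb w ![0, 1, 0]) x ^ 2) +
        (∫ x in box c l, MA.sq (comb w ![0, 0, 1]) x ^ 2)) =
        ∫ x in box c l, ((∑ k : Fin 4, ∑ l : Fin 4,
        MA.sq (comb w ![1, Complex.I ^ (k : ℕ), Complex.I ^ (l : ℕ)]) x ^ 2) +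
      16 * (MA.sq (comb w ![1, 0, 0]) x ^ 2 + MA.sq (comb w ![0, 1, 0]) x ^ 2 +
        MA.sq (comb w ![0, 0, 1]) x ^ 2)) := by
      rw [integral_add, integral_const_mul, integral_add, integral_add, integral_finsetSum]
      · congr 1
        refine Finset.sum_congr rfl fun k _ => ?_
        rw [integral_finsetSum]
        intro j _; exact hi _
      · intro k _
        exact integrable_finsetSum _ fun j _ => hi _
      · exact hi _
      · exact hi _
      · exact (hi _).add (hi _)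
      · exact hi _
      · exact integrable_finsetSum _ fun k _ => integrable_finsetSum _ fun j _ => hi _
      · exact (((hi _).add (hi _)).add (hi _)).const_mul _
    rw [h5]
    apply integral_mono
    · exact (Continuous.intBox (hcS.pow 2) c l).const_mul _
    · exact (integrable_finsetSum _ fun k _ => integrable_finsetSum _ fun j _ => hi _).add
        ((((hi _).add (hi _)).add (hi _)).const_mul _)
    · intro x; exact hpt x
  have hj := jensen_box hcS c l hl
  have hsum : ∫ x in box c l, (MA.sq (w 0) x + MA.sq (w 1) x + MA.sq (w 2) x) = 3 := by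
    have hi : ∀ m, Integrable (MA.sq (w m)) (volume.restrict (box c l)) :=
      fun m => Continuous.intBox (contDiff_sq (hw m)).continuous c l
    have hi01 : Integrable (fun x => MA.sq (w 0) x + MA.sq (w 1) x) (volume.restrict (box c l)) :=
      (hi 0).add (hi 1)
    rw [integral_add hi01 (hi 2), integral_add (hi 0) (hi 1)]
    have e0 : MA.sq (w 0) = MA.sq (comb w ![1, 0, 0]) := by
      funext x; unfold MA.sq comb
      refine Finset.sum_congr rfl fun s _ => ?_
      rw [Fin.sum_univ_three]; simp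
    have e1 : MA.sq (w 1) = MA.sq (comb w ![0, 1, 0]) := by
      funext x; unfold MA.sq comb
      refine Finset.sum_congr rfl fun s _ => ?_
      rw [Fin.sum_univ_three]; simp
    have e2 : MA.sq (w 2) = MA.sq (comb w ![0, 0, 1]) := by
      funext x; unfold MA.sq comb
      refine Finset.sum_congr rfl fun s _ => ?_
      rw [Fin.sum_univ_three]; simp
    rw [e0, e1, e2, h1, h1, h1]
    simp [Fin.sum_univ_three]
    norm_num
  rw [hsum] at hj
  have k1 : ∀ k j : Fin 4, ∫ x in box c l,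
      MA.sq (comb w ![1, Complex.I ^ (k : ℕ), Complex.I ^ (j : ℕ)]) x ^ 2 ≤
      (1124864 / 1000000) * (l⁻¹) ^ 3 * 9 := by
    intro k j
    have h := key ![1, Complex.I ^ (k : ℕ), Complex.I ^ (j : ℕ)]
    have e : ∑ i, ‖(![1, Complex.I ^ (k : ℕ), Complex.I ^ (j : ℕ)] : Fin 3 → ℂ) i‖ ^ 2 = 3 := by
      rw [Fin.sum_univ_three]
      simp
      norm_num
    rw [e] at h
    norm_num at h ⊢
    exact h
  have k2 : ∀ β : Fin 3 → ℂ, ∑ i, ‖β i‖ ^ 2 = 1 → ∫ x in box c l,
      MA.sq (comb w β) x ^ 2 ≤ (1124864 / 1000000) * (l⁻¹) ^ 3 := by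
    intro β hβ
    have h := key β
    rw [hβ] at h
    simpa using h
  have k3 := k2 ![1, 0, 0] (by rw [Fin.sum_univ_three]; simp)
  have k4 := k2 ![0, 1, 0] (by rw [Fin.sum_univ_three]; simp)
  have k5 := k2 ![0, 0, 1] (by rw [Fin.sum_univ_three]; simp)
  have k6 : (∑ k : Fin 4, ∑ j : Fin 4,
        ∫ x in box c l, MA.sq (comb w ![1, Complex.I ^ (k : ℕ), Complex.I ^ (j : ℕ)]) x ^ 2) ≤
        16 * ((1124864 / 1000000) * (l⁻¹) ^ 3 * 9) := by
    calc _ ≤ ∑ k : Fin 4, ∑ j : Fin 4, ((1124864 / 1000000) * (l⁻¹) ^ 3 * 9 : ℝ) :=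
          Finset.sum_le_sum fun k _ => Finset.sum_le_sum fun j _ => k1 k j
      _ = _ := by simp; ring
  have hl3 : (l⁻¹) ^ 3 * l ^ 3 = 1 := by
    rw [← mul_pow, inv_mul_cancel₀ hl.ne', one_pow]
  have hl3' : 0 < (l⁻¹) ^ 3 := by positivity
  set T := ∫ x in box c l, (MA.sq (w 0) x + MA.sq (w 1) x + MA.sq (w 2) x) ^ 2 with hT
  have hT9 : 9 * (l⁻¹) ^ 3 ≤ T := by
    have : (l⁻¹) ^ 3 * 3 ^ 2 ≤ (l⁻¹) ^ 3 * (l ^ 3 * T) := mul_le_mul_of_nonneg_left hj hl3'.le
    rw [← mul_assoc, hl3, one_mul] at this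
    linarith
  nlinarith [hint, k6, k3, k4, k5, hT9]

end Pool.Agent.H9R2.MA
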