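import Mathlib

set_option autoImplicit false
open MeasureTheory
open scoped ENNReal

namespace Pool.Agent.H9R2.MA

open Matrix

variable {ι : Type*} [Fintype ι] [DecidableEq ι]

/-- real quadratic form of a complex matrix -/
noncomputable def qf (G : Matrix ι ι ℂ) (α : ι → ℂ) : ℝ := (star α ⬝ᵥ (G *ᵥ α)).re

/-- linear combination of eigenvectors -/
noncomputable def ev {G : Matrix ι ι ℂ} (hG : G.IsHermitian) (γ : ι → ℂ) : ι → ℂ :=
  fun m => ∑ i, γ i * (hG.eigenvectorBasis i).ofLp m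

theorem ev_eq {G : Matrix ι ι ℂ} (hG : G.IsHermitian) (γ : ι → ℂ) :
    ev hG γ = (∑ i, γ i • hG.eigenvectorBasis i : EuclideanSpace ℂ ι).ofLp := by
  funext m
  simp [ev]

theorem qf_ev {G : Matrix ι ι ℂ} (hG : G.IsHermitian) (γ : ι → ℂ) :
    qf G (ev hG γ) = ∑ i, hG.eigenvalues i * ‖γ i‖ ^ 2 := by
  have h1 : G *ᵥ (ev hG γ) = (∑ i, (hG.eigenvalues i * γ i) • hG.eigenvectorBasis i :
      EuclideanSpace ℂ ι).ofLp := by
    rw [ev_eq]
    have : (∑ i, γ i • hG.eigenvectorBasis i : EuclideanSpace ℂ ι).ofLp =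
        ∑ i, γ i • (hG.eigenvectorBasis i).ofLp := by simp
    rw [this, Matrix.mulVec_sum]
    have h2 : (∑ i, ((hG.eigenvalues i : ℂ) * γ i) • hG.eigenvectorBasis i :
        EuclideanSpace ℂ ι).ofLp =
        ∑ i, ((hG.eigenvalues i : ℂ) * γ i) • (hG.eigenvectorBasis i).ofLp := by simp
    rw [h2]
    refine Finset.sum_congr rfl fun i _ => ?_
    rw [Matrix.mulVec_smul, hG.mulVec_eigenvectorBasis]
    ext m
    simp only [Pi.smul_apply, smul_eq_mul, Complex.real_smul]
    ring
  have h3 : star (ev hG γ) ⬝ᵥ (G *ᵥ (ev hG γ)) =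
      inner ℂ (∑ i, γ i • hG.eigenvectorBasis i : EuclideanSpace ℂ ι)
        (∑ i, ((hG.eigenvalues i : ℂ) * γ i) • hG.eigenvectorBasis i) := by
    rw [EuclideanSpace.inner_eq_star_dotProduct, h1, ev_eq, dotProduct_comm]
  unfold qf
  rw [h3, hG.eigenvectorBasis.orthonormal.inner_sum]
  rw [Complex.re_sum]
  refine Finset.sum_congr rfl fun i _ => ?_
  rw [← Complex.normSq_eq_norm_sq, Complex.normSq_apply]
  simp only [Complex.mul_re, Complex.mul_im, Complex.conj_re, Complex.conj_im, Complex.ofReal_re,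
    Complex.ofReal_im]
  ring

theorem norm_ev {G : Matrix ι ι ℂ} (hG : G.IsHermitian) (γ : ι → ℂ) :
    ∑ m, ‖ev hG γ m‖ ^ 2 = ∑ i, ‖γ i‖ ^ 2 := by
  have h1 : ‖(∑ i, γ i • hG.eigenvectorBasis i : EuclideanSpace ℂ ι)‖ ^ 2 = ∑ i, ‖γ i‖ ^ 2 := by
    rw [← @inner_self_eq_norm_sq ℂ, hG.eigenvectorBasis.orthonormal.inner_sum]
    rw [map_sum]
    refine Finset.sum_congr rfl fun i _ => ?_
    rw [RCLike.conj_mul]
    norm_cast
  rw [← h1, ev_eq, EuclideanSpace.norm_sq_eq]

/-- every vector is a combination of eigenvectors -/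
theorem ev_surj {G : Matrix ι ι ℂ} (hG : G.IsHermitian) (α : ι → ℂ) :
    ev hG (fun i => inner ℂ (hG.eigenvectorBasis i) (WithLp.toLp 2 α : EuclideanSpace ℂ ι)) = α := by
  rw [ev_eq, hG.eigenvectorBasis.sum_repr']

/-- the form has at most two negative squares -/
def Idx2 (G : Matrix ι ι ℂ) : Prop :=
  ∀ b : Fin 3 → (ι → ℂ), ¬ ∀ β : Fin 3 → ℂ, β ≠ 0 → qf G (fun m => ∑ i, β i * b i m) < 0

theorem card_neg_le {G : Matrix ι ι ℂ} (hG : G.IsHermitian) (h : Idx2 G) :
    Fintype.card {i // hG.eigenvalues i < 0} ≤ 2 := by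
  by_contra hc
  push Not at hc
  have hc' : Fintype.card (Fin 3) ≤ Fintype.card {i // hG.eigenvalues i < 0} := by
    rw [Fintype.card_fin]
    exact hc
  obtain ⟨f⟩ := Function.Embedding.nonempty_of_card_le hc'
  apply h (fun i m => (hG.eigenvectorBasis (f i).1).ofLp m)
  intro β hβ
  set γ : ι → ℂ := fun m => ∑ i, if (f i).1 = m then β i else 0 with hγ
  have hinj : ∀ i j : Fin 3, (f i).1 = (f j).1 → i = j := fun i j hij => f.injective (Subtype.ext hij)
  have h1 : (fun m => ∑ i, β i * (hG.eigenvectorBasis (f i).1).ofLp m) = ev hG γ := by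
    funext m
    unfold ev
    simp only [hγ, Finset.sum_mul]
    rw [Finset.sum_comm]
    refine Finset.sum_congr rfl fun i _ => ?_
    simp [ite_mul]
  rw [h1, qf_ev]
  have hγf : ∀ i : Fin 3, γ (f i).1 = β i := by
    intro i
    simp only [hγ]
    rw [Finset.sum_eq_single i]
    · simp
    · intro j _ hj
      rw [if_neg]
      intro e; exact hj (hinj _ _ e)
    · simp
  have hle : ∀ m, hG.eigenvalues m * ‖γ m‖ ^ 2 ≤ 0 := by
    intro m
    by_cases hm : ∃ i, (f i).1 = m
    · obtain ⟨i, rfl⟩ := hm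
      have := (f i).2
      nlinarith [sq_nonneg ‖γ (f i).1‖]
    · push Not at hm
      have : γ m = 0 := by
        simp only [hγ]
        apply Finset.sum_eq_zero
        intro i _
        rw [if_neg (hm i)]
      rw [this]; simp
  obtain ⟨i, hi⟩ : ∃ i, β i ≠ 0 := by
    by_contra hcon
    push Not at hcon
    exact hβ (funext hcon)
  apply Finset.sum_neg' (fun m _ => hle m)
  refine ⟨(f i).1, Finset.mem_univ _, ?_⟩
  rw [hγf]
  have h2 := (f i).2
  have h3 : 0 < ‖β i‖ ^ 2 := by positivity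
  nlinarith

theorem index_lemma {J : Type*} [Fintype J] (G : J → Matrix ι ι ℂ)
    (hG : ∀ j, (G j).IsHermitian) (h : ∀ j, Idx2 (G j)) (hc : 2 * Fintype.card J < Fintype.card ι) :
    ∃ α : ι → ℂ, α ≠ 0 ∧ ∀ j, 0 ≤ qf (G j) α := by
  classical
  let T := Σ j : J, {i // (hG j).eigenvalues i < 0}
  let L : (ι → ℂ) →ₗ[ℂ] (T → ℂ) :=
    { toFun := fun α t => inner ℂ ((hG t.1).eigenvectorBasis t.2.1)
        (WithLp.toLp 2 α : EuclideanSpace ℂ ι)
      map_add' := by
        intro a b
        funext t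
        rw [WithLp.toLp_add, inner_add_right]; rfl
      map_smul' := by
        intro a b
        funext t
        rw [WithLp.toLp_smul, inner_smul_right]; rfl }
  have hcard : Fintype.card T ≤ 2 * Fintype.card J := by
    change Fintype.card (Σ j : J, {i // (hG j).eigenvalues i < 0}) ≤ _
    rw [Fintype.card_sigma]
    calc ∑ j, Fintype.card {i // (hG j).eigenvalues i < 0} ≤ ∑ _j : J, 2 :=
          Finset.sum_le_sum fun j _ => card_neg_le (hG j) (h j)
      _ = 2 * Fintype.card J := by simp [mul_comm]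
  have hfin : Module.finrank ℂ (T → ℂ) < Module.finrank ℂ (ι → ℂ) := by
    rw [Module.finrank_fintype_fun_eq_card, Module.finrank_fintype_fun_eq_card]
    omega
  have hker := LinearMap.ker_ne_bot_of_finrank_lt (f := L) hfin
  obtain ⟨α, hα, hα0⟩ := (Submodule.ne_bot_iff _).1 hker
  refine ⟨α, hα0, fun j => ?_⟩
  have h1 : ∀ t : T, inner ℂ ((hG t.1).eigenvectorBasis t.2.1)
        (WithLp.toLp 2 α : EuclideanSpace ℂ ι) = 0 := fun t => congrFun (LinearMap.mem_ker.1 hα) t
  rw [← ev_surj (hG j) α, qf_ev]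
  apply Finset.sum_nonneg
  intro i _
  by_cases hi : (hG j).eigenvalues i < 0
  · have := h1 ⟨j, i, hi⟩
    simp only at this
    rw [this]; simp
  · push Not at hi
    positivity

omit [DecidableEq ι] in
/-- layer cake comparison -/
theorem layer {κ : Type*} [Fintype κ] (x : ι → ℝ) (y : κ → ℝ) (K : ℕ)
    (h : ∀ μ : ℝ, 0 < μ → Fintype.card {i // μ < x i} ≤ K * Fintype.card {q // μ < y q})
    (hy : ∀ q, 0 ≤ y q) :
    ∑ i, max (x i) 0 ≤ K * ∑ q, y q := by
  classical
  have hx : ∀ z : ℝ, ENNReal.ofReal z = ∫⁻ μ : ℝ, (Set.Ioo 0 z).indicator (fun _ => (1:ℝ≥0∞)) μ := by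
    intro z
    rw [lintegral_indicator measurableSet_Ioo, lintegral_const, one_mul,
      Measure.restrict_apply MeasurableSet.univ, Set.univ_inter, Real.volume_Ioo, sub_zero]
  have h1 : ∑ i, ENNReal.ofReal (x i) ≤ K * ∑ q, ENNReal.ofReal (y q) := by
    simp_rw [hx]
    rw [← lintegral_finsetSum _ (fun i _ => measurable_const.indicator measurableSet_Ioo),
      ← lintegral_finsetSum _ (fun i _ => measurable_const.indicator measurableSet_Ioo),
      ← lintegral_const_mul]
    · apply lintegral_mono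
      intro μ
      by_cases hμ : 0 < μ
      · have e1 : ∀ z : ℝ, (Set.Ioo 0 z).indicator (fun _ => (1:ℝ≥0∞)) μ = if μ < z then 1 else 0 := by
          intro z
          by_cases hz : μ < z
          · rw [Set.indicator_of_mem (by exact ⟨hμ, hz⟩), if_pos hz]
          · rw [Set.indicator_of_notMem (by rintro ⟨_, h⟩; exact hz h), if_neg hz]
        simp only [e1, Finset.sum_boole]
        have h2 := h μ hμ
        rw [Fintype.card_subtype, Fintype.card_subtype] at h2
        exact_mod_cast h2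
      · have e1 : ∀ z : ℝ, (Set.Ioo 0 z).indicator (fun _ => (1:ℝ≥0∞)) μ = 0 := by
          intro z
          rw [Set.indicator_of_notMem]
          rintro ⟨h, _⟩; exact hμ h
        simp [e1]
    · exact Finset.measurable_sum _ fun i _ => measurable_const.indicator measurableSet_Ioo
  have h3 : ∑ i, ENNReal.ofReal (x i) = ENNReal.ofReal (∑ i, max (x i) 0) := by
    rw [ENNReal.ofReal_sum_of_nonneg (fun i _ => le_max_right _ _)]
    refine Finset.sum_congr rfl fun i _ => ?_
    rcases le_total (x i) 0 with hi | hi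
    · rw [max_eq_right hi, ENNReal.ofReal_of_nonpos hi, ENNReal.ofReal_zero]
    · rw [max_eq_left hi]
  have h4 : (K : ℝ≥0∞) * ∑ q, ENNReal.ofReal (y q) = ENNReal.ofReal (K * ∑ q, y q) := by
    rw [ENNReal.ofReal_mul (by positivity), ENNReal.ofReal_sum_of_nonneg (fun q _ => hy q),
      ENNReal.ofReal_natCast]
  rw [h3, h4] at h1
  exact (ENNReal.ofReal_le_ofReal_iff (mul_nonneg (by positivity)
    (Finset.sum_nonneg fun q _ => hy q))).1 h1

end Pool.Agent.H9R2.MA
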