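import Pool.Agent.H9R2.MA.Design
import Pool.Agent.H9R2.MA.LA

set_option autoImplicit false
open MeasureTheory
open scoped ENNReal

namespace Pool.Agent.H9R2.MA

open Matrix

section Gram

variable {X : Type*} [MeasurableSpace X] {ι κ : Type*} [Fintype ι] [Fintype κ]

/-- Gram matrix of a family of vector valued functions -/
noncomputable def gram (μ : Measure X) (f : ι → X → κ → ℂ) : Matrix ι ι ℂ :=
  fun m n => ∫ x, ∑ s, (starRingEnd ℂ) (f m x s) * f n x s ∂μ

omit [Fintype ι] in
theorem gram_herm (μ : Measure X) (f : ι → X → κ → ℂ) : (gram μ f).IsHermitian := by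
  ext m n
  rw [Matrix.conjTranspose_apply]
  unfold gram
  change (starRingEnd ℂ) (∫ x, ∑ s, (starRingEnd ℂ) (f n x s) * f m x s ∂μ) = _
  rw [← integral_conj]
  refine integral_congr_ae (Filter.Eventually.of_forall fun x => ?_)
  simp only [map_sum, map_mul, Complex.conj_conj]
  exact Finset.sum_congr rfl fun s _ => mul_comm _ _

theorem qf_gram (μ : Measure X) (f : ι → X → κ → ℂ)
    (hf : ∀ m n, Integrable (fun x => ∑ s, (starRingEnd ℂ) (f m x s) * f n x s) μ) (α : ι → ℂ) :
    qf (gram μ f) α = ∫ x, ∑ s, ‖∑ m, α m * f m x s‖ ^ 2 ∂μ := by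
  have h1 : star α ⬝ᵥ (gram μ f *ᵥ α) =
      ∫ x, ∑ m, ∑ n, ((starRingEnd ℂ) (α m) * α n) *
        ∑ s, (starRingEnd ℂ) (f m x s) * f n x s ∂μ := by
    rw [integral_finsetSum _ (fun m _ => integrable_finsetSum _ fun n _ => (hf m n).const_mul _)]
    simp only [dotProduct, mulVec, gram, Pi.star_apply]
    refine Finset.sum_congr rfl fun m _ => ?_
    rw [integral_finsetSum _ (fun n _ => (hf m n).const_mul _), Finset.mul_sum]
    refine Finset.sum_congr rfl fun n _ => ?_
    rw [integral_const_mul]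
    change (starRingEnd ℂ) (α m) * _ = _
    ring
  have h2 : ∀ x, ∑ m, ∑ n, ((starRingEnd ℂ) (α m) * α n) *
        ∑ s, (starRingEnd ℂ) (f m x s) * f n x s = ((∑ s, ‖∑ m, α m * f m x s‖ ^ 2 : ℝ) : ℂ) := by
    intro x
    push_cast
    have h3 : ∀ s, ((‖∑ m, α m * f m x s‖ : ℝ) : ℂ) ^ 2 =
        (∑ m, (starRingEnd ℂ) (α m) * (starRingEnd ℂ) (f m x s)) * ∑ n, α n * f n x s := by
      intro s
      rw [← Complex.conj_mul']
      congr 1
      simp [map_sum]
    simp_rw [h3, Finset.sum_mul_sum, Finset.mul_sum]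
    rw [Finset.sum_comm' (t' := Finset.univ) (s' := fun _ => Finset.univ) (by simp)]
    conv_rhs => rw [Finset.sum_comm]
    rw [Finset.sum_comm]
    refine Finset.sum_congr rfl fun m _ => ?_
    conv_rhs => rw [Finset.sum_comm]
    refine Finset.sum_congr rfl fun n _ => ?_
    refine Finset.sum_congr rfl fun s _ => ?_
    ring
  unfold qf
  rw [h1]
  simp_rw [h2]
  rw [integral_complex_ofReal, Complex.ofReal_re]

end Gram

section Comb

variable {ι : Type*} [Fintype ι]

/-- linear combination of two-component functions -/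
noncomputable def comb (u : ι → Sp) (α : ι → ℂ) : Sp := fun x s => ∑ m, α m * u m x s

theorem comb_smooth {u : ι → Sp} (hu : ∀ m a, ContDiff ℝ 2 (fun x => u m x a)) (α : ι → ℂ)
    (a : Fin 2) : ContDiff ℝ 2 (fun x => comb u α x a) := by
  unfold comb
  exact ContDiff.sum fun m _ => contDiff_const.mul (hu m a)

theorem cov_comb (A : E3 → E3) {u : ι → Sp} (hu : ∀ m a, ContDiff ℝ 2 (fun x => u m x a))
    (α : ι → ℂ) (k : Fin 3) (x : E3) (a : Fin 2) :
    cov A (comb u α) k x a = ∑ m, α m * cov A (u m) k x a := by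
  unfold cov comb
  have hd : ∀ m, HasFDerivAt (fun y => α m * u m y a) (α m • fderiv ℝ (fun y => u m y a) x) x :=
    fun m => ((((hu m a).differentiable (by norm_num)) x).hasFDerivAt).const_mul (α m)
  have h1 : HasFDerivAt (fun y => ∑ m, α m * u m y a)
      (∑ m, α m • fderiv ℝ (fun y => u m y a) x) x := HasFDerivAt.fun_sum fun m _ => hd m
  rw [h1.fderiv]
  have h2 : (∑ m, α m • fderiv ℝ (fun y => u m y a) x) (e3 k) =
      ∑ m, α m * fderiv ℝ (fun y => u m y a) x (e3 k) := by
    simp
  rw [h2, Finset.mul_sum, Finset.mul_sum, ← Finset.sum_add_distrib]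
  refine Finset.sum_congr rfl fun m _ => ?_
  ring

theorem dirac_comb (A : E3 → E3) {u : ι → Sp} (hu : ∀ m a, ContDiff ℝ 2 (fun x => u m x a))
    (α : ι → ℂ) (x : E3) (a : Fin 2) :
    dirac A (comb u α) x a = ∑ m, α m * dirac A (u m) x a := by
  unfold dirac
  simp_rw [cov_comb A hu, Finset.mul_sum]
  rw [Finset.sum_comm' (t' := Finset.univ) (s' := fun _ => Finset.univ) (by simp)]
  conv_rhs => rw [Finset.sum_comm]
  rw [Finset.sum_comm]
  refine Finset.sum_congr rfl fun k _ => ?_
  conv_rhs => rw [Finset.sum_comm]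
  refine Finset.sum_congr rfl fun t _ => ?_
  refine Finset.sum_congr rfl fun m _ => ?_
  ring

theorem comb_comb {κ : Type*} [Fintype κ] (u : ι → Sp) (b : κ → ι → ℂ) (β : κ → ℂ) :
    comb (fun i => comb u (b i)) β = comb u (fun m => ∑ i, β i * b i m) := by
  funext x s
  unfold comb
  simp_rw [Finset.mul_sum, Finset.sum_mul]
  rw [Finset.sum_comm]
  refine Finset.sum_congr rfl fun m _ => Finset.sum_congr rfl fun i _ => ?_
  ring

/-- mass form on a set -/
noncomputable def gMass (S : Set E3) (u : ι → Sp) : Matrix ι ι ℂ := gram (volume.restrict S) u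

/-- kinetic form on a set -/
noncomputable def gKin (A : E3 → E3) (S : Set E3) (u : ι → Sp) : Matrix ι ι ℂ :=
  gram (volume.restrict S) (fun m x (p : Fin 3 × Fin 2) => cov A (u m) p.1 x p.2)

theorem qf_gMass {u : ι → Sp} (hu : ∀ m a, ContDiff ℝ 2 (fun x => u m x a)) (c : Fin 3 → ℝ) (l : ℝ)
    (α : ι → ℂ) : qf (gMass (box c l) u) α = ∫ x in box c l, MA.sq (comb u α) x := by
  unfold gMass
  rw [qf_gram]
  · rfl
  · intro m n
    have h1 : Continuous fun x => ∑ s, (starRingEnd ℂ) (u m x s) * u n x s :=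
      continuous_finsetSum _ fun s _ =>
        (Complex.continuous_conj.comp (hu m s).continuous).mul (hu n s).continuous
    have h : IntegrableOn (fun x => ∑ s, (starRingEnd ℂ) (u m x s) * u n x s)
        (closure (box c l)) :=
      h1.continuousOn.integrableOn_compact (isBounded_box c l).isCompact_closure
    exact h.mono_set subset_closure

theorem qf_gKin {A : E3 → E3} (hA : Continuous A) {u : ι → Sp}
    (hu : ∀ m a, ContDiff ℝ 2 (fun x => u m x a)) (c : Fin 3 → ℝ) (l : ℝ)
    (α : ι → ℂ) : qf (gKin A (box c l) u) α = ∫ x in box c l, covSq A (comb u α) x := by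
  unfold gKin
  rw [qf_gram]
  · refine integral_congr_ae (Filter.Eventually.of_forall fun x => ?_)
    simp only [covSq, Fintype.sum_prod_type]
    refine Finset.sum_congr rfl fun k _ => Finset.sum_congr rfl fun a _ => ?_
    rw [cov_comb A hu]
  · intro m n
    have h1 : Continuous fun x => ∑ p : Fin 3 × Fin 2,
        (starRingEnd ℂ) (cov A (u m) p.1 x p.2) * cov A (u n) p.1 x p.2 :=
      continuous_finsetSum _ fun p _ =>
        (Complex.continuous_conj.comp (continuous_cov hA (hu m) p.1 p.2)).mul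
          (continuous_cov hA (hu n) p.1 p.2)
    have h : IntegrableOn (fun x => ∑ p : Fin 3 × Fin 2,
        (starRingEnd ℂ) (cov A (u m) p.1 x p.2) * cov A (u n) p.1 x p.2) (closure (box c l)) :=
      h1.continuousOn.integrableOn_compact (isBounded_box c l).isCompact_closure
    exact h.mono_set subset_closure

end Comb

theorem qf_add {ι : Type*} [Fintype ι] (G H : Matrix ι ι ℂ) (α : ι → ℂ) :
    qf (G + H) α = qf G α + qf H α := by
  unfold qf
  rw [Matrix.add_mulVec, dotProduct_add, Complex.add_re]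

theorem qf_smul {ι : Type*} [Fintype ι] (c : ℝ) (G : Matrix ι ι ℂ) (α : ι → ℂ) :
    qf (c • G) α = c * qf G α := by
  unfold qf
  rw [Matrix.smul_mulVec, dotProduct_smul, Complex.real_smul, Complex.re_ofReal_mul]

theorem herm_add_smul {ι : Type*} [Fintype ι] {G H : Matrix ι ι ℂ} (hG : G.IsHermitian)
    (hH : H.IsHermitian) (c : ℝ) : (G + c • H).IsHermitian := by
  apply hG.add
  ext i j
  rw [Matrix.conjTranspose_apply, Matrix.smul_apply, Matrix.smul_apply, star_smul]
  congr 1
  exact congrFun (congrFun hH i) j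

end Pool.Agent.H9R2.MA
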