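import Pool.Agent.H9R2.MA.Defs

set_option autoImplicit false
open MeasureTheory
open scoped ENNReal

namespace Pool.Agent.H9R2.MA

/-- one dimensional estimate: value bounded by average plus total variation -/
theorem one_dim (φ φ' : ℝ → ℝ) (c l x : ℝ) (hl : 0 < l) (hx : c ≤ x ∧ x < c + l)
    (hφ : ∀ t, HasDerivAt φ (φ' t) t) (hφ' : Continuous φ') :
    φ x ≤ l⁻¹ * (∫ t in c..(c + l), φ t) + ∫ t in c..(c + l), |φ' t| := by
  have hcl : c ≤ c + l := by linarith
  have hφc : Continuous φ := continuous_iff_continuousAt.2 fun t => (hφ t).continuousAt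
  have hab : ∀ a b : ℝ, IntervalIntegrable (fun t => |φ' t|) volume a b :=
    fun a b => (hφ'.abs).intervalIntegrable a b
  set V := ∫ t in c..(c + l), |φ' t| with hV
  have key : ∀ t ∈ Set.Icc c (c + l), φ x - V ≤ φ t := by
    intro t ht
    have h1 : ∫ s in t..x, φ' s = φ x - φ t :=
      intervalIntegral.integral_eq_sub_of_hasDerivAt (fun s _ => hφ s) (hφ'.intervalIntegrable _ _)
    have h2 : |∫ s in t..x, φ' s| ≤ V := by
      rcases le_total t x with h | h
      · calc |∫ s in t..x, φ' s| ≤ ∫ s in t..x, |φ' s| :=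
              intervalIntegral.abs_integral_le_integral_abs h
          _ ≤ V := by
              rw [hV]
              apply intervalIntegral.integral_mono_interval ht.1 h hx.2.le
              · exact Filter.Eventually.of_forall fun s => abs_nonneg _
              · exact hab _ _
      · calc |∫ s in t..x, φ' s| = |∫ s in x..t, φ' s| := by
              rw [intervalIntegral.integral_symm, abs_neg]
          _ ≤ ∫ s in x..t, |φ' s| := intervalIntegral.abs_integral_le_integral_abs h
          _ ≤ V := by
              rw [hV]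
              apply intervalIntegral.integral_mono_interval hx.1 h ht.2
              · exact Filter.Eventually.of_forall fun s => abs_nonneg _
              · exact hab _ _
    have h3 := le_abs_self (∫ s in t..x, φ' s)
    linarith
  have h4 : (∫ _t in c..(c + l), (φ x - V)) ≤ ∫ t in c..(c + l), φ t := by
    apply intervalIntegral.integral_mono_on hcl
    · exact intervalIntegrable_const
    · exact hφc.intervalIntegrable _ _
    · intro t ht; exact key t ht
  rw [intervalIntegral.integral_const, smul_eq_mul] at h4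
  have h5 : (φ x - V) ≤ l⁻¹ * ∫ t in c..(c + l), φ t := by
    rw [le_inv_mul_iff₀ hl]
    calc l * (φ x - V) = (c + l - c) * (φ x - V) := by ring
      _ ≤ _ := h4
  linarith

theorem toLp_update (x : Fin 3 → ℝ) (i : Fin 3) (t : ℝ) :
    (WithLp.toLp 2 (Function.update x i t) : E3) =
      WithLp.toLp 2 (Function.update x i 0) + t • e3 i := by
  ext j
  by_cases h : j = i
  · subst h; simp [e3]
  · simp [e3, h]

/-- the line estimate in `ℝ≥0∞` form -/
theorem line_est (g f : E3 → ℝ) (hg : ContDiff ℝ 1 g) (hg0 : ∀ x, 0 ≤ g x) (hf : Continuous f)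
    (l : ℝ) (hl : 0 < l) (c : Fin 3 → ℝ)
    (h : ∀ (k : Fin 3) (x : E3), l⁻¹ * g x + |fderiv ℝ g x (e3 k)| ≤ f x)
    (x : Fin 3 → ℝ) (hx : ∀ i, c i ≤ x i ∧ x i < c i + l) (i : Fin 3) :
    ENNReal.ofReal (g (WithLp.toLp 2 x)) ≤
      ∫⁻ t, ENNReal.ofReal (f (WithLp.toLp 2 (Function.update x i t)))
        ∂(volume.restrict (Set.Ico (c i) (c i + l))) := by
  set γ : ℝ → E3 := fun t => WithLp.toLp 2 (Function.update x i t) with hγ
  have hγd : ∀ t, HasDerivAt γ (e3 i) t := by
    intro t
    have : γ = fun t => (WithLp.toLp 2 (Function.update x i 0) : E3) + t • e3 i := by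
      funext t; exact toLp_update x i t
    rw [this]
    have h1 : HasDerivAt (fun t : ℝ => t • e3 i) ((1:ℝ) • e3 i) t :=
      (hasDerivAt_id t).smul_const _
    rw [one_smul] at h1
    exact h1.const_add _
  have hγc : Continuous γ := continuous_iff_continuousAt.2 fun t => (hγd t).continuousAt
  have hgd : Differentiable ℝ g := hg.differentiable (by norm_num)
  have hφ : ∀ t, HasDerivAt (fun t => g (γ t)) (fderiv ℝ g (γ t) (e3 i)) t := by
    intro t
    exact (hgd (γ t)).hasFDerivAt.comp_hasDerivAt t (hγd t)
  have hφ' : Continuous (fun t => fderiv ℝ g (γ t) (e3 i)) :=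
    ((hg.continuous_fderiv (by norm_num)).comp hγc).clm_apply continuous_const
  have h1 := one_dim (fun t => g (γ t)) (fun t => fderiv ℝ g (γ t) (e3 i)) (c i) l (x i) hl (hx i)
    hφ hφ'
  have hxi : γ (x i) = WithLp.toLp 2 x := by
    rw [hγ]; simp
  rw [hxi] at h1
  have hci : c i ≤ c i + l := by linarith
  have hfc : Continuous (fun t => f (γ t)) := hf.comp hγc
  have h2 : l⁻¹ * (∫ t in (c i)..(c i + l), g (γ t)) +
      ∫ t in (c i)..(c i + l), |fderiv ℝ g (γ t) (e3 i)| ≤ ∫ t in (c i)..(c i + l), f (γ t) := by
    rw [← intervalIntegral.integral_const_mul, ← intervalIntegral.integral_add]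
    · apply intervalIntegral.integral_mono_on hci
      · exact ((continuous_const.mul (hg.continuous.comp hγc)).add hφ'.abs).intervalIntegrable _ _
      · exact hfc.intervalIntegrable _ _
      · intro t _; exact h i (γ t)
    · exact (continuous_const.mul (hg.continuous.comp hγc)).intervalIntegrable _ _
    · exact hφ'.abs.intervalIntegrable _ _
  have hf0 : ∀ y, 0 ≤ f y := fun y =>
    le_trans (by have := hg0 y; positivity) (h 0 y)
  calc ENNReal.ofReal (g (WithLp.toLp 2 x)) ≤ ENNReal.ofReal (∫ t in (c i)..(c i + l), f (γ t)) :=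
        ENNReal.ofReal_le_ofReal (h1.trans h2)
    _ = ∫⁻ t, ENNReal.ofReal (f (γ t)) ∂(volume.restrict (Set.Ico (c i) (c i + l))) := by
        rw [intervalIntegral.integral_of_le hci, ← restrict_Ico_eq_restrict_Ioc]
        rw [ofReal_integral_eq_lintegral_ofReal]
        · have : IntegrableOn (fun t => f (γ t)) (Set.Icc (c i) (c i + l)) :=
            hfc.continuousOn.integrableOn_compact isCompact_Icc
          exact this.mono_set Set.Ico_subset_Icc_self
        · exact Filter.Eventually.of_forall fun t => hf0 _

end Pool.Agent.H9R2.MA
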