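import Pool.Agent.H9R2.MA.Grid

set_option autoImplicit false
open MeasureTheory
open scoped ENNReal

namespace Pool.Agent.H9R2.MA

theorem lint_box (c : Fin 3 → ℝ) (l : ℝ) (G : E3 → ℝ≥0∞) :
    ∫⁻ x in box c l, G x =
      ∫⁻ y, G (WithLp.toLp 2 y) ∂(Measure.pi fun i => volume.restrict (Set.Ico (c i) (c i + l))) := by
  have h1 := (EuclideanSpace.volume_preserving_symm_measurableEquiv_toLp (Fin 3)).symm
  have h2 : (Measure.pi fun i => (volume : Measure ℝ).restrict (Set.Ico (c i) (c i + l))) =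
      (volume : Measure (Fin 3 → ℝ)).restrict (Set.pi Set.univ fun i => Set.Ico (c i) (c i + l)) := by
    rw [volume_pi, Measure.restrict_pi_pi]
  rw [h2]
  have h3 := h1.setLIntegral_comp_preimage_emb (MeasurableEquiv.measurableEmbedding _) G (box c l)
  have h4 : (MeasurableEquiv.toLp 2 (Fin 3 → ℝ)).symm.symm ⁻¹' (box c l) =
      Set.pi Set.univ fun i => Set.Ico (c i) (c i + l) := by
    ext y
    simp [box, Set.mem_pi]
  rw [h4] at h3
  rw [← h3]
  rfl

theorem grid_ineq (g f : E3 → ℝ) (hg : ContDiff ℝ 1 g) (hg0 : ∀ x, 0 ≤ g x) (hf : Continuous f)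
    (l : ℝ) (hl : 0 < l) (c : Fin 3 → ℝ)
    (h : ∀ (k : Fin 3) (x : E3), l⁻¹ * g x + |fderiv ℝ g x (e3 k)| ≤ f x) :
    ∫⁻ x in box c l, ENNReal.ofReal (g x) ^ (3 / 2 : ℝ) ≤
      (∫⁻ x in box c l, ENNReal.ofReal (f x)) ^ (3 / 2 : ℝ) := by
  rw [lint_box, lint_box]
  have hcard : ((Fintype.card (Fin 3) : ℕ) : ℝ) = 3 := by simp
  have hp : ((Fintype.card (Fin 3) : ℕ) : ℝ).HolderConjugate (3 / 2 : ℝ) := by
    rw [hcard, Real.holderConjugate_iff]
    norm_num
  have hmeas : Measurable fun y : Fin 3 → ℝ => ENNReal.ofReal (f (WithLp.toLp 2 y)) := by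
    apply ENNReal.measurable_ofReal.comp
    exact hf.measurable.comp (MeasurableEquiv.toLp 2 (Fin 3 → ℝ)).measurable
  have key := lintegral_prod_lintegral_pow_le
    (fun i => (volume : Measure ℝ).restrict (Set.Ico (c i) (c i + l))) hp hmeas
  refine le_trans ?_ key
  have hae : ∀ᵐ y ∂(Measure.pi fun i => (volume : Measure ℝ).restrict (Set.Ico (c i) (c i + l))),
      ∀ i, c i ≤ y i ∧ y i < c i + l := by
    have h2 : (Measure.pi fun i => (volume : Measure ℝ).restrict (Set.Ico (c i) (c i + l))) =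
        (volume : Measure (Fin 3 → ℝ)).restrict
          (Set.pi Set.univ fun i => Set.Ico (c i) (c i + l)) := by
      rw [volume_pi, Measure.restrict_pi_pi]
    rw [h2]
    have hm : MeasurableSet (Set.pi Set.univ fun i => Set.Ico (c i) (c i + l)) :=
      MeasurableSet.univ_pi fun i => measurableSet_Ico
    filter_upwards [ae_restrict_mem hm] with y hy i
    exact hy i (Set.mem_univ i)
  apply lintegral_mono_ae
  filter_upwards [hae] with y hy
  have h5 : ∀ i : Fin 3, ENNReal.ofReal (g (WithLp.toLp 2 y)) ^ (1 / 2 : ℝ) ≤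
      (∫⁻ t, ENNReal.ofReal (f (WithLp.toLp 2 (Function.update y i t)))
        ∂(volume.restrict (Set.Ico (c i) (c i + l)))) ^ (1 / 2 : ℝ) := fun i =>
    ENNReal.rpow_le_rpow (line_est g f hg hg0 hf l hl c h y hy i) (by norm_num)
  have h6 : ENNReal.ofReal (g (WithLp.toLp 2 y)) ^ (3 / 2 : ℝ) =
      ∏ _i : Fin 3, ENNReal.ofReal (g (WithLp.toLp 2 y)) ^ (1 / 2 : ℝ) := by
    rw [Finset.prod_const, Finset.card_univ, Fintype.card_fin, ← ENNReal.rpow_natCast,
      ← ENNReal.rpow_mul]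
    norm_num
  rw [h6]
  have h7 : (1 / (((Fintype.card (Fin 3) : ℕ) : ℝ) - 1) : ℝ) = 1 / 2 := by
    rw [hcard]; norm_num
  rw [h7]
  exact Finset.prod_le_prod' fun i _ => h5 i

end Pool.Agent.H9R2.MA
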