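import Pool.Agent.H9R2.MA.Excl

set_option autoImplicit false
open MeasureTheory
open scoped ENNReal

namespace Pool.Agent.H9R2.MA

open Matrix

variable {ι : Type*} [Fintype ι] [DecidableEq ι]

theorem comb_zero (v : ι → Sp) : comb v 0 = fun _ _ => 0 := by
  funext x s
  simp [comb]

theorem covSq_zero (A : E3 → E3) (x : E3) : covSq A (fun _ _ => 0) x = 0 := by
  unfold covSq cov
  simp

/-- magnetic local exclusion: on a cube, at most two negative squares -/
theorem idx2_cube {A : E3 → E3} (hA : Continuous A) {u : ι → Sp}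
    (hu : ∀ m a, ContDiff ℝ 2 (fun x => u m x a)) (c : Fin 3 → ℝ) (l : ℝ) (hl : 0 < l) :
    Idx2 (gKin A (box c l) u + (-((1 / 10000) * (l⁻¹) ^ 2) : ℝ) • gMass (box c l) u) := by
  intro b hb
  set v : Fin 3 → Sp := fun i => comb u (b i) with hv
  have hvs : ∀ m a, ContDiff ℝ 2 (fun x => v m x a) := fun m a => comb_smooth hu (b m) a
  have hb' : ∀ β : Fin 3 → ℂ, β ≠ 0 → ∫ x in box c l, covSq A (comb v β) x <
      (1 / 10000) * (l⁻¹) ^ 2 * ∫ x in box c l, MA.sq (comb v β) x := by
    intro β hβ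
    have h := hb β hβ
    rw [qf_add, qf_smul, qf_gKin hA hu, qf_gMass hu, ← comb_comb] at h
    change (∫ x in box c l, covSq A (comb v β) x) + _ * (∫ x in box c l, MA.sq (comb v β) x) < 0 at h
    linarith
  have hG := gram_herm (volume.restrict (box c l)) v
  have hpos : ∀ i, 0 < hG.eigenvalues i := by
    intro i
    have h1 := qf_ev hG (Pi.single i 1)
    have h2 : ∑ j, hG.eigenvalues j * ‖(Pi.single i 1 : Fin 3 → ℂ) j‖ ^ 2 = hG.eigenvalues i := by
      rw [Finset.sum_eq_single i]
      · simp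
      · intro j _ hj; simp [hj]
      · simp
    rw [h2] at h1
    have h3 : ev hG (Pi.single i 1) ≠ 0 := by
      intro h0
      have h4 := norm_ev hG (Pi.single i 1)
      rw [h0] at h4
      have h5 : ∑ j, ‖(Pi.single i 1 : Fin 3 → ℂ) j‖ ^ 2 = 1 := by
        rw [Finset.sum_eq_single i]
        · simp
        · intro j _ hj; simp [hj]
        · simp
      rw [h5] at h4
      simp at h4
    have h6 := hb' _ h3
    have h7 : 0 ≤ ∫ x in box c l, covSq A (comb v (ev hG (Pi.single i 1))) x :=
      integral_nonneg fun x => covSq_nonneg _ _ _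
    have h8 := qf_gMass hvs c l (ev hG (Pi.single i 1))
    unfold gMass at h8
    rw [h1] at h8
    rw [h8]
    by_contra hcon
    push Not at hcon
    have : (1 / 10000) * (l⁻¹) ^ 2 * ∫ x in box c l, MA.sq (comb v (ev hG (Pi.single i 1))) x ≤ 0 :=
      mul_nonpos_of_nonneg_of_nonpos (by positivity) hcon
    linarith
  set w : Fin 3 → Sp := fun i => comb v (ev hG (Pi.single i ((1 / √(hG.eigenvalues i) : ℝ) : ℂ)))
    with hw
  have hws : ∀ m a, ContDiff ℝ 2 (fun x => w m x a) := fun m a => comb_smooth hvs _ a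
  have hcw : ∀ β : Fin 3 → ℂ, comb w β =
      comb v (ev hG (fun i => β i * ((1 / √(hG.eigenvalues i) : ℝ) : ℂ))) := by
    intro β
    rw [hw, comb_comb]
    congr 1
    funext m
    unfold ev
    refine Finset.sum_congr rfl fun i _ => ?_
    rw [Finset.sum_eq_single i]
    · simp [mul_assoc]
    · intro j _ hj; simp [hj]
    · simp
  have hmass : ∀ β : Fin 3 → ℂ, ∫ x in box c l, MA.sq (comb w β) x = ∑ i, ‖β i‖ ^ 2 := by
    intro β
    rw [hcw, ← qf_gMass hvs]
    unfold gMass
    rw [qf_ev hG]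
    refine Finset.sum_congr rfl fun i _ => ?_
    rw [norm_mul, mul_pow, Complex.norm_real, Real.norm_eq_abs, sq_abs, div_pow, one_pow,
      Real.sq_sqrt (hpos i).le]
    have := (hpos i).ne'
    field_simp
  apply orth_false hA hws c l hl hmass
  intro β
  have h1 := hmass β
  rw [← h1, hcw]
  by_cases h0 : ev hG (fun i => β i * ((1 / √(hG.eigenvalues i) : ℝ) : ℂ)) = 0
  · rw [h0, comb_zero]
    have : ∀ x, covSq A (fun _ _ => 0) x = 0 := covSq_zero A
    simp_rw [this]
    have h2 : ∀ x, MA.sq (fun _ _ => 0) x = 0 := by intro x; unfold MA.sq; simp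
    simp_rw [h2]
    simp
  · exact (hb' _ h0).le

theorem idx_herm (A : E3 → E3) (u : ι → Sp) (S : Set E3) (t : ℝ) :
    (gKin A S u + t • gMass S u).IsHermitian :=
  herm_add_smul (gram_herm _ _) (gram_herm _ _) t

end Pool.Agent.H9R2.MA
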