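import Pool.Agent.H9R2.MA.Pauli3

set_option autoImplicit false
open MeasureTheory
open scoped ENNReal

namespace Pool.Agent.H9R2.MA

/-- cubes with little magnetic energy -/
theorem light {A : E3 → E3} (hA : ContDiff ℝ 1 A) {u : Sp}
    (hu : ∀ a, ContDiff ℝ 2 (fun x => u x a)) (c : Fin 3 → ℝ) (l : ℝ) (hl : 0 < l)
    (hB : l * ∫ x in box c l, Bsq A x ≤ (1 / 40000) ^ 2) :
    ∫ x in box c l, √(Bsq A x) * MA.sq u x ≤
      (1 / 4) * (∫ x in box c l, covSq A u x) +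
        (1 / 20000) * (l⁻¹) ^ 2 * ∫ x in box c l, MA.sq u x := by
  have hBc := continuous_Bsq hA
  have hUc := (contDiff_sq hu).continuous
  have hXc : Continuous fun x => √(Bsq A x) * MA.sq u x := hBc.sqrt.mul hUc
  have h1 := cs (μ := volume.restrict (box c l)) (f := fun x => √(Bsq A x)) (g := MA.sq u)
    (Continuous.intBox (hBc.sqrt.pow 2) c l) (Continuous.intBox (hUc.pow 2) c l)
    (Continuous.intBox hXc c l)
  have e1 : (fun x => √(Bsq A x) ^ 2) = fun x => Bsq A x := by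
    funext x; rw [Real.sq_sqrt (Bsq_nonneg A x)]
  rw [e1] at h1
  have h2 := cube_sobolev hA.continuous hu c l hl
  set b := ∫ x in box c l, Bsq A x with hb
  set X := ∫ x in box c l, √(Bsq A x) * MA.sq u x with hX
  set m2 := ∫ x in box c l, MA.sq u x ^ 2 with hm2
  set m1 := ∫ x in box c l, MA.sq u x with hm1
  set P := ∫ x in box c l, covSq A u x with hP
  have hm10 : 0 ≤ m1 := integral_nonneg (sq_nonneg' u)
  have hP0 : 0 ≤ P := integral_nonneg (covSq_nonneg A u)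
  have hX0 : 0 ≤ X := integral_nonneg fun x => mul_nonneg (Real.sqrt_nonneg _) (sq_nonneg' u x)
  have hm20 : 0 ≤ m2 := integral_nonneg fun x => sq_nonneg _
  have hb0 : 0 ≤ b := integral_nonneg (Bsq_nonneg A)
  set y := l⁻¹ * √m1 with hy
  set z := √P with hz
  have hy0 : 0 ≤ y := by positivity
  have hz0 : 0 ≤ z := by positivity
  have hbl : b ≤ (1 / 40000) ^ 2 * l⁻¹ := by
    rw [← div_eq_mul_inv, le_div_iff₀ hl]; linarith
  have h3 : X ^ 2 ≤ ((1 / 40000) * (y + 4 * z) ^ 2) ^ 2 := by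
    calc X ^ 2 ≤ b * m2 := h1
      _ ≤ ((1 / 40000) ^ 2 * l⁻¹) * ((y + 4 * z) ^ 3 * √m1) :=
          mul_le_mul hbl h2 hm20 (by positivity)
      _ = (1 / 40000) ^ 2 * ((y + 4 * z) ^ 3 * y) := by rw [hy]; ring
      _ ≤ (1 / 40000) ^ 2 * ((y + 4 * z) ^ 3 * (y + 4 * z)) := by
          apply mul_le_mul_of_nonneg_left _ (by positivity)
          apply mul_le_mul_of_nonneg_left _ (by positivity)
          linarith
      _ = ((1 / 40000) * (y + 4 * z) ^ 2) ^ 2 := by ring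
  have h4 : X ≤ (1 / 40000) * (y + 4 * z) ^ 2 :=
    (abs_le_of_sq_le_sq' h3 (by positivity)).2
  have h5 : (y + 4 * z) ^ 2 ≤ 2 * y ^ 2 + 32 * z ^ 2 := by nlinarith [sq_nonneg (y - 4 * z)]
  have h6 : y ^ 2 = (l⁻¹) ^ 2 * m1 := by rw [hy, mul_pow, Real.sq_sqrt hm10]
  have h7 : z ^ 2 = P := Real.sq_sqrt hP0
  rw [h6, h7] at h5
  have h8 : 0 ≤ (l⁻¹) ^ 2 * m1 := by positivity
  nlinarith

end Pool.Agent.H9R2.MA
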