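import Pool.Agent.H9R2.MA.OneBody3

set_option autoImplicit false
open MeasureTheory
open scoped ENNReal

namespace Pool.Agent.H9R2.MA

/-- insert an entry -/
def ins {α : Type*} {n : ℕ} (i : Fin (n + 1)) (x : α) (y : Fin n → α) : Fin (n + 1) → α :=
  Fin.insertNth (α := fun _ => α) i x y

/-- remove an entry -/
def rem {α : Type*} {n : ℕ} (i : Fin (n + 1)) (X : Fin (n + 1) → α) : Fin n → α :=
  fun k => X (i.succAbove k)

section

variable {α : Type*} {n : ℕ}

@[simp] theorem ins_same (i : Fin (n + 1)) (x : α) (y : Fin n → α) : ins i x y i = x := by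
  simp [ins]

@[simp] theorem ins_succ (i : Fin (n + 1)) (x : α) (y : Fin n → α) (k : Fin n) :
    ins i x y (i.succAbove k) = y k := by
  simp [ins]

@[simp] theorem rem_ins (i : Fin (n + 1)) (x : α) (y : Fin n → α) : rem i (ins i x y) = y := by
  funext k; simp [rem]

theorem ins_rem (i : Fin (n + 1)) (X : Fin (n + 1) → α) : ins i (X i) (rem i X) = X := by
  funext k
  rcases eq_or_ne k i with rfl | h
  · simp
  · obtain ⟨j, rfl⟩ := Fin.exists_succAbove_eq h
    simp [rem]

theorem ins_rem_update (i : Fin (n + 1)) (x : α) (X : Fin (n + 1) → α) :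
    ins i x (rem i X) = Function.update X i x := by
  funext k
  rcases eq_or_ne k i with rfl | h
  · simp
  · obtain ⟨j, rfl⟩ := Fin.exists_succAbove_eq h
    simp [rem, h]

theorem update_ins (i : Fin (n + 1)) (x x' : α) (y : Fin n → α) :
    Function.update (ins i x y) i x' = ins i x' y := by
  rw [← ins_rem_update, rem_ins]

theorem continuous_ins [TopologicalSpace α] (i : Fin (n + 1)) :
    Continuous fun p : α × (Fin n → α) => ins i p.1 p.2 := by
  apply continuous_pi
  intro k
  rcases eq_or_ne k i with rfl | h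
  · simpa using continuous_fst
  · obtain ⟨j, rfl⟩ := Fin.exists_succAbove_eq h
    simp only [ins_succ]
    exact (continuous_apply j).comp continuous_snd

theorem continuous_rem [TopologicalSpace α] (i : Fin (n + 1)) :
    Continuous fun X : Fin (n + 1) → α => rem i X :=
  continuous_pi fun k => continuous_apply _

theorem sum_ins {M : Type*} [AddCommMonoid M] [Fintype α] (i : Fin (n + 1))
    (f : (Fin (n + 1) → α) → M) : ∑ s, f s = ∑ a, ∑ τ, f (ins i a τ) := by
  rw [← Fintype.sum_prod_type' (f := fun a τ => f (ins i a τ))]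
  exact (Equiv.sum_comp (Fin.insertNthEquiv (fun _ => α) i) f).symm

end

theorem contDiff_ins {n : ℕ} (i : Fin (n + 1)) {m : WithTop ℕ∞} :
    ContDiff ℝ m fun p : E3 × (Fin n → E3) => ins i p.1 p.2 := by
  rw [contDiff_pi]
  intro k
  rcases eq_or_ne k i with rfl | h
  · simpa using contDiff_fst
  · obtain ⟨j, rfl⟩ := Fin.exists_succAbove_eq h
    simp only [ins_succ]
    exact (contDiff_apply ℝ E3 j).comp contDiff_snd

section

variable {F : Type*} [NormedAddCommGroup F]

theorem supp_ins {n : ℕ} (i : Fin (n + 1)) {g : (Fin (n + 1) → E3) → F}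
    (hgs : HasCompactSupport g) :
    HasCompactSupport fun p : E3 × (Fin n → E3) => g (ins i p.1 p.2) := by
  have hK : IsCompact ((fun X : Fin (n + 1) → E3 => (X i, rem i X)) '' tsupport g) :=
    hgs.isCompact.image ((continuous_apply i).prodMk (continuous_rem i))
  apply HasCompactSupport.intro hK
  intro p hp
  by_contra h
  apply hp
  exact ⟨ins i p.1 p.2, subset_tsupport _ h, by simp⟩

theorem supp_ins1 {n : ℕ} (i : Fin (n + 1)) {g : (Fin (n + 1) → E3) → F}
    (hgs : HasCompactSupport g) :
    ∃ K : Set E3, IsCompact K ∧ ∀ x ∉ K, ∀ y, g (ins i x y) = 0 := by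
  refine ⟨(fun X : Fin (n + 1) → E3 => X i) '' tsupport g,
    hgs.isCompact.image (continuous_apply i), fun x hx y => ?_⟩
  by_contra h
  exact hx ⟨ins i x y, subset_tsupport _ h, by simp⟩

theorem supp_ins2 {n : ℕ} (i : Fin (n + 1)) {g : (Fin (n + 1) → E3) → F}
    (hgs : HasCompactSupport g) :
    ∃ K : Set (Fin n → E3), IsCompact K ∧ ∀ y ∉ K, ∀ x, g (ins i x y) = 0 := by
  refine ⟨(fun X : Fin (n + 1) → E3 => rem i X) '' tsupport g,
    hgs.isCompact.image (continuous_rem i), fun x hx y => ?_⟩
  by_contra h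
  exact hx ⟨ins i y x, subset_tsupport _ h, by simp⟩

variable [NormedSpace ℝ F] [CompleteSpace F]

theorem int_ins {n : ℕ} (i : Fin (n + 1)) {g : (Fin (n + 1) → E3) → F} (hg : Continuous g)
    (hgs : HasCompactSupport g) : ∫ X, g X = ∫ x, ∫ y, g (ins i x y) := by
  have h1 := (volume_preserving_piFinSuccAbove (fun _ : Fin (n + 1) => E3) i).symm
  rw [← h1.integral_comp' g]
  have h2 : Integrable (fun p : E3 × (Fin n → E3) => g (ins i p.1 p.2))
      ((volume : Measure E3).prod (volume : Measure (Fin n → E3))) :=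
    (hg.comp (continuous_ins i)).integrable_of_hasCompactSupport (supp_ins i hgs)
  exact integral_prod _ h2

theorem int_ins' {n : ℕ} (i : Fin (n + 1)) {g : (Fin (n + 1) → E3) → F} (hg : Continuous g)
    (hgs : HasCompactSupport g) : ∫ X, g X = ∫ y, ∫ x, g (ins i x y) := by
  rw [int_ins i hg hgs]
  apply integral_integral_swap
  exact (hg.comp (continuous_ins i)).integrable_of_hasCompactSupport (supp_ins i hgs)

end

end Pool.Agent.H9R2.MA
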