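import Pool.Agent.H9R2.MA.NB9

set_option autoImplicit false
open MeasureTheory
open scoped ENNReal Topology

namespace Pool.Agent.H9R2.MA

theorem nbody_delta {n : ℕ} {A : E3 → E3} (hA : ContDiff ℝ 1 A) (hAc : HasCompactSupport A)
    {ψ : Wf (n + 1)} (h : Sm ψ) (ha : Anti ψ) (hnorm : ∫ X, ∑ s, ‖ψ X s‖ ^ 2 = 1) {z : ℝ}
    (hz : 0 < z) {δ : ℝ} (hδ : 0 < δ) :
    z * ∑ i, PC ψ δ i ≤ (∑ i, ∫ X, ∑ s, ‖nd A ψ i X s‖ ^ 2) +
      (z / 10) * (32 * 40000 ^ 2 * ∫ x, Bsq A x) + 36 * z ^ 2 * (n + 1) := by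
  classical
  apply le_of_forall_pos_le_add
  intro η' hη'
  have hη : 0 < η' / (z * (n + 1)) := by positivity
  obtain ⟨M, S, hS, hfin, hd, hP⟩ := coul_cells h hδ hη
  have hG : ∀ m : Ix n M, Good (fam ψ S m) := fun m => good_um h m.1 m.2.1 (hS m.2.2)
  have hone := one_body hA hAc hG (fun α => mass_bound h ha hnorm hS hfin hd α) hz
  have hsum : ∀ F : Sp → ℝ, ∑ m : Ix n M, F (fam ψ S m) =
      ∑ i, ∑ τ, ∑ j, F (um ψ i τ (S j)) := by
    intro F
    rw [Fintype.sum_prod_type]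
    refine Finset.sum_congr rfl fun i _ => ?_
    rw [Fintype.sum_prod_type]
    rfl
  rw [hsum (fun u => (∫ x, diracSq A u x) - z * (∫ x, MA.sq u x / ‖x‖) +
    36 * z ^ 2 * ∫ x, MA.sq u x)] at hone
  simp_rw [Finset.sum_add_distrib, Finset.sum_sub_distrib, ← Finset.mul_sum] at hone
  have h1 : ∑ i, ∑ τ, ∑ j, ∫ x, diracSq A (um ψ i τ (S j)) x ≤
      ∑ i, ∫ X, ∑ s, ‖nd A ψ i X s‖ ^ 2 :=
    Finset.sum_le_sum fun i _ => dirac_sum hA.continuous h hS hfin hd i
  have h2 : ∑ i : Fin (n + 1), ∑ τ, ∑ j, ∫ x, MA.sq (um ψ i τ (S j)) x ≤ (n + 1 : ℝ) := by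
    have h3 : ∑ i : Fin (n + 1), ∑ τ, ∑ j, ∫ x, MA.sq (um ψ i τ (S j)) x ≤
        ∑ _i : Fin (n + 1), (1:ℝ) :=
      Finset.sum_le_sum fun i _ => (mass_sum h hS hfin hd i).trans hnorm.le
    simpa using h3
  have h4 : ∑ i, PC ψ δ i ≤ (∑ i, ∑ τ, ∑ j, ∫ x, MA.sq (um ψ i τ (S j)) x / ‖x‖) +
      (n + 1) * (η' / (z * (n + 1))) := by
    have h5 : ∑ i, PC ψ δ i ≤ ∑ i, ((∑ τ, ∑ j, ∫ x, MA.sq (um ψ i τ (S j)) x / ‖x‖) +
      (η' / (z * (n + 1)))) := Finset.sum_le_sum fun i _ => hP i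
    rw [Finset.sum_add_distrib, Finset.sum_const, Finset.card_univ, Fintype.card_fin,
      nsmul_eq_mul] at h5
    push_cast at h5
    exact h5
  have h6 := mul_le_mul_of_nonneg_left h4 hz.le
  have h7 : z * ((n + 1) * (η' / (z * (n + 1)))) = η' := by field_simp
  rw [mul_add, h7] at h6
  have h8 : 36 * z ^ 2 * ∑ i : Fin (n + 1), ∑ τ, ∑ j, ∫ x, MA.sq (um ψ i τ (S j)) x ≤
      36 * z ^ 2 * (n + 1 : ℝ) := mul_le_mul_of_nonneg_left h2 (by positivity)
  linarith

theorem nbody {n : ℕ} {A : E3 → E3} (hA : ContDiff ℝ 1 A) (hAc : HasCompactSupport A)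
    {ψ : Wf (n + 1)} (h : Sm ψ) (ha : Anti ψ) (hnorm : ∫ X, ∑ s, ‖ψ X s‖ ^ 2 = 1) {z : ℝ}
    (hz : 0 < z) :
    z * ∑ i, ∫ X, ∑ s, ‖ψ X s‖ ^ 2 / ‖X i‖ ≤ (∑ i, ∫ X, ∑ s, ‖nd A ψ i X s‖ ^ 2) +
      (z / 10) * (32 * 40000 ^ 2 * ∫ x, Bsq A x) + 36 * z ^ 2 * (n + 1) := by
  set E := (∑ i, ∫ X, ∑ s, ‖nd A ψ i X s‖ ^ 2) +
      (z / 10) * (32 * 40000 ^ 2 * ∫ x, Bsq A x) + 36 * z ^ 2 * (n + 1) with hE
  have hEδ : ∀ δ : ℝ, 0 < δ → ∑ i, PC ψ δ i ≤ E / z := by
    intro δ hδ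
    rw [le_div_iff₀ hz]
    have := nbody_delta hA hAc h ha hnorm hz hδ
    linarith
  have hEz : 0 ≤ E / z := by
    refine le_trans (Finset.sum_nonneg fun i _ => ?_) (hEδ 1 one_pos)
    exact integral_nonneg fun X => mul_nonneg (Finset.sum_nonneg fun s _ => by positivity)
      (inv_nonneg.2 (gr_pos one_pos _).le)
  have hcc := h.cc
  set ρ : (Fin (n + 1) → E3) → ℝ := fun X => ∑ s, ‖ψ X s‖ ^ 2 with hρ
  have hρc : Continuous ρ := continuous_finsetSum _ fun s _ => (sqnorm_cc (hcc.cont s) (hcc.supp s)).1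
  have hρ0 : ∀ X, 0 ≤ ρ X := fun X => Finset.sum_nonneg fun s _ => by positivity
  have hρs : HasCompactSupport ρ := by
    have h1 := fun s => hasCompactSupport_iff_eventuallyEq.1 (sqnorm_cc (hcc.cont s) (hcc.supp s)).2
    rw [hasCompactSupport_iff_eventuallyEq]
    have h2 := Filter.eventually_all.2 h1
    filter_upwards [h2] with p hp
    exact Finset.sum_eq_zero fun a _ => hp a
  -- the limit
  set d : ℕ → ℝ := fun k => 1 / ((k : ℝ) + 1) with hd
  have hdpos : ∀ k, 0 < d k := fun k => by positivity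
  have hdlim : Filter.Tendsto d Filter.atTop (nhds 0) := tendsto_one_div_add_atTop_nhds_zero_nat
  have hcont : ∀ k, Continuous fun X : Fin (n + 1) → E3 => ∑ i, ρ X * (gr (d k) (X i))⁻¹ := fun k =>
    continuous_finsetSum _ fun i _ =>
      hρc.mul ((cont_gr_inv (hdpos k)).comp (continuous_apply i))
  have hint : ∀ k i, Integrable fun X : Fin (n + 1) → E3 => ρ X * (gr (d k) (X i))⁻¹ := fun k i =>
    (hρc.mul ((cont_gr_inv (hdpos k)).comp (continuous_apply i))).integrable_of_hasCompactSupport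
      hρs.mul_right
  have hlint : ∫⁻ X : Fin (n + 1) → E3, ENNReal.ofReal (∑ i, ρ X / ‖X i‖) ≤
      ENNReal.ofReal (E / z) := by
    calc ∫⁻ X : Fin (n + 1) → E3, ENNReal.ofReal (∑ i, ρ X / ‖X i‖) ≤
        ∫⁻ X : Fin (n + 1) → E3, Filter.liminf (fun k => ENNReal.ofReal
          (∑ i, ρ X * (gr (d k) (X i))⁻¹)) Filter.atTop := by
          apply lintegral_mono_ae
          have hne : ∀ i : Fin (n + 1), ∀ᵐ X : Fin (n + 1) → E3, X i ≠ 0 := fun i =>
            Measure.ae_eval_ne (μ := fun _ : Fin (n + 1) => (volume : Measure E3)) i 0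
          filter_upwards [ae_all_iff.2 hne] with X hX
          have h1 : Filter.Tendsto (fun k => ENNReal.ofReal (∑ i, ρ X * (gr (d k) (X i))⁻¹))
              Filter.atTop (nhds (ENNReal.ofReal (∑ i, ρ X / ‖X i‖))) := by
            apply ENNReal.tendsto_ofReal
            apply tendsto_finsetSum
            intro i _
            rw [div_eq_mul_inv]
            apply Filter.Tendsto.const_mul
            apply Filter.Tendsto.inv₀ _ (norm_ne_zero_iff.2 (hX i))
            have h2 : Filter.Tendsto (fun k => √(‖X i‖ ^ 2 + d k ^ 2)) Filter.atTop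
                (nhds (√(‖X i‖ ^ 2 + 0 ^ 2))) :=
              (Filter.Tendsto.const_add _ (hdlim.pow 2)).sqrt
            have h3 : √(‖X i‖ ^ 2 + 0 ^ 2) = ‖X i‖ := by
              rw [zero_pow two_ne_zero, add_zero, Real.sqrt_sq (norm_nonneg _)]
            rw [h3] at h2
            exact h2
          rw [h1.liminf_eq]
      _ ≤ Filter.liminf (fun k => ∫⁻ X : Fin (n + 1) → E3, ENNReal.ofReal
            (∑ i, ρ X * (gr (d k) (X i))⁻¹)) Filter.atTop := by
          apply lintegral_liminf_le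
          intro k
          exact (hcont k).measurable.ennreal_ofReal
      _ ≤ Filter.liminf (fun _ : ℕ => ENNReal.ofReal (E / z)) Filter.atTop := by
          refine Filter.liminf_le_liminf (Filter.Eventually.of_forall fun k => ?_) ?_ ?_
          rotate_left
          · isBoundedDefault
          · isBoundedDefault
          rw [← ofReal_integral_eq_lintegral_ofReal]
          · apply ENNReal.ofReal_le_ofReal
            rw [integral_finsetSum _ fun i _ => hint k i]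
            exact hEδ (d k) (hdpos k)
          · exact integrable_finsetSum _ fun i _ => hint k i
          · refine Filter.Eventually.of_forall fun X => ?_
            exact Finset.sum_nonneg fun i _ =>
              mul_nonneg (hρ0 X) (inv_nonneg.2 (gr_pos (hdpos k) _).le)
      _ = _ := by simp
  have hmeas : ∀ i, Measurable fun X : Fin (n + 1) → E3 => ρ X / ‖X i‖ := fun i =>
    hρc.measurable.div (continuous_norm.comp (continuous_apply i)).measurable
  have hnn : ∀ i (X : Fin (n + 1) → E3), 0 ≤ ρ X / ‖X i‖ := fun i X =>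
    div_nonneg (hρ0 X) (norm_nonneg _)
  have hInt : ∀ i, Integrable fun X : Fin (n + 1) → E3 => ρ X / ‖X i‖ := by
    intro i
    refine ⟨(hmeas i).aestronglyMeasurable, ?_⟩
    rw [hasFiniteIntegral_iff_ofReal (Filter.Eventually.of_forall (hnn i))]
    refine lt_of_le_of_lt (lintegral_mono fun X => ?_) (hlint.trans_lt ENNReal.ofReal_lt_top)
    apply ENNReal.ofReal_le_ofReal
    exact Finset.single_le_sum (f := fun i => ρ X / ‖X i‖) (fun i _ => hnn i X) (Finset.mem_univ i)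
  have hsum : ∑ i, ∫ X, ρ X / ‖X i‖ ≤ E / z := by
    rw [← integral_finsetSum _ fun i _ => hInt i]
    have h1 : Integrable fun X : Fin (n + 1) → E3 => ∑ i, ρ X / ‖X i‖ :=
      integrable_finsetSum _ fun i _ => hInt i
    rw [← ofReal_integral_eq_lintegral_ofReal h1 (Filter.Eventually.of_forall fun X =>
      Finset.sum_nonneg fun i _ => hnn i X)] at hlint
    exact (ENNReal.ofReal_le_ofReal_iff hEz).1 hlint
  have hfin : ∑ i, ∫ X, ∑ s, ‖ψ X s‖ ^ 2 / ‖X i‖ = ∑ i, ∫ X, ρ X / ‖X i‖ := by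
    refine Finset.sum_congr rfl fun i _ => ?_
    refine integral_congr_ae (Filter.Eventually.of_forall fun X => ?_)
    simp only [hρ]
    rw [Finset.sum_div]
  rw [hfin]
  calc z * ∑ i, ∫ X, ρ X / ‖X i‖ ≤ z * (E / z) := mul_le_mul_of_nonneg_left hsum hz.le
    _ = E := by field_simp

end Pool.Agent.H9R2.MA
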