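import Pool.Agent.H9R2.MA.NB1

set_option autoImplicit false
open MeasureTheory
open scoped ENNReal Topology

namespace Pool.Agent.H9R2.MA

section

variable {Y : Type*} [NormedAddCommGroup Y] [NormedSpace ℝ Y] [MeasurableSpace Y] [BorelSpace Y]
  [SecondCountableTopology Y]

/-- continuity of parameter integrals of compactly supported functions -/
theorem param_cont {Z F : Type*} [NormedAddCommGroup F] [NormedSpace ℝ F] [TopologicalSpace Z]
    [FirstCountableTopology Z]
    [LocallyCompactSpace Z] {μ : Measure Y} [IsLocallyFiniteMeasure μ] {f : Z → Y → F}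
    (hf : Continuous (Function.uncurry f)) {K : Set Y} (hK : IsCompact K)
    (hs : ∀ x y, y ∉ K → f x y = 0) : Continuous (fun x => ∫ y, f x y ∂μ) := by
  have h1 := continuous_parametric_integral_of_continuous (μ := μ) hf hK
  have h2 : (fun x => ∫ y, f x y ∂μ) = fun x => ∫ y in K, f x y ∂μ := by
    funext x
    exact (setIntegral_eq_integral_of_forall_compl_eq_zero fun y hy => hs x y hy).symm
  rw [h2]
  exact h1

theorem param_smooth {μ : Measure Y} [IsLocallyFiniteMeasure μ] {f : E3 → Y → ℂ}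
    (hf : ContDiff ℝ 2 (Function.uncurry f)) {K : Set Y} (hK : IsCompact K)
    (hs : ∀ x y, y ∉ K → f x y = 0) {S : Set Y} (hS : MeasurableSet S) :
    ContDiff ℝ 2 (fun x => ∫ y in S, f x y ∂μ) := by
  have hF : LocallyIntegrable (S.indicator (fun _ => (1:ℝ))) μ :=
    (locallyIntegrable_const (1:ℝ)).indicator hS
  have hg : ContDiffOn ℝ (2:ℕ∞) (Function.uncurry fun (x : E3) (s : Y) => f x (-s))
      (Set.univ ×ˢ Set.univ) := by
    apply ContDiff.contDiffOn
    exact hf.comp (contDiff_fst.prodMk contDiff_snd.neg)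
  have h1 := contDiffOn_convolution_right_with_param_comp (μ := μ) (n := 2)
    (ContinuousLinearMap.lsmul ℝ ℝ : ℝ →L[ℝ] ℂ →L[ℝ] ℂ) (s := (Set.univ : Set E3))
    (v := fun _ => (0:Y)) contDiffOn_const (f := S.indicator (fun _ => (1:ℝ)))
    (g := fun (x : E3) (s : Y) => f x (-s)) (k := -K) isOpen_univ hK.neg
    (fun p x _ hx => hs p (-x) (by simpa using hx)) hF hg
  rw [contDiffOn_univ] at h1
  have h2 : (fun x => ∫ y in S, f x y ∂μ) = fun x => (MeasureTheory.convolution
      (S.indicator (fun _ => (1:ℝ))) (fun (s : Y) => f x (-s))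
      (ContinuousLinearMap.lsmul ℝ ℝ : ℝ →L[ℝ] ℂ →L[ℝ] ℂ) μ) 0 := by
    funext x
    rw [← integral_indicator hS]
    unfold convolution
    refine integral_congr_ae (Filter.Eventually.of_forall fun y => ?_)
    by_cases hy : y ∈ S
    · simp [hy]
    · simp [hy]
  rw [h2]
  exact h1

theorem param_fderiv {μ : Measure Y} {f : E3 → Y → ℂ}
    (hf : ContDiff ℝ 2 (Function.uncurry f)) (hs : HasCompactSupport (Function.uncurry f))
    {S : Set Y} (hfin : μ S ≠ ∞) (x v : E3) :
    fderiv ℝ (fun x => ∫ y in S, f x y ∂μ) x v = ∫ y in S, fderiv ℝ (fun x' => f x' y) x v ∂μ := by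
  haveI : IsFiniteMeasure (μ.restrict S) := ⟨by
    rw [Measure.restrict_apply_univ]; exact lt_top_iff_ne_top.2 hfin⟩
  have hD : Continuous (fderiv ℝ (Function.uncurry f)) := hf.continuous_fderiv (by norm_num)
  have hDs : HasCompactSupport (fderiv ℝ (Function.uncurry f)) := hs.fderiv ℝ
  obtain ⟨C, hC⟩ := hD.bounded_above_of_compact_support hDs
  have hpd : ∀ (x : E3) (y : Y), HasFDerivAt (fun x' => f x' y)
      ((fderiv ℝ (Function.uncurry f) (x, y)).comp (ContinuousLinearMap.inl ℝ E3 Y)) x := by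
    intro x y
    have h1 : HasFDerivAt (Function.uncurry f) (fderiv ℝ (Function.uncurry f) (x, y)) (x, y) :=
      ((hf.differentiable (by norm_num)) (x, y)).hasFDerivAt
    have h2 : HasFDerivAt (fun x' : E3 => (x', y)) (ContinuousLinearMap.inl ℝ E3 Y) x :=
      hasFDerivAt_prodMk_left x y
    exact h1.comp x h2
  have hcont : ∀ x, Continuous fun y => f x y := fun x =>
    hf.continuous.comp (continuous_const.prodMk continuous_id)
  obtain ⟨C0, hC0⟩ := hf.continuous.bounded_above_of_compact_support hs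
  have key := hasFDerivAt_integral_of_dominated_of_fderiv_le (μ := μ.restrict S) (𝕜 := ℝ)
    (F := f) (F' := fun x y => (fderiv ℝ (Function.uncurry f) (x, y)).comp
      (ContinuousLinearMap.inl ℝ E3 Y)) (x₀ := x) (s := Set.univ)
    (bound := fun _ => C * ‖ContinuousLinearMap.inl ℝ E3 Y‖) Filter.univ_mem
    (Filter.Eventually.of_forall fun x => (hcont x).aestronglyMeasurable)
    (Integrable.of_bound (hcont x).aestronglyMeasurable C0
      (Filter.Eventually.of_forall fun y => hC0 (x, y)))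
    (((hD.comp (continuous_const.prodMk continuous_id)).clm_comp
      continuous_const).aestronglyMeasurable)
    (Filter.Eventually.of_forall fun y x _ =>
      (ContinuousLinearMap.opNorm_comp_le _ _).trans
        (mul_le_mul_of_nonneg_right (hC (x, y)) (norm_nonneg _)))
    (integrable_const _)
    (Filter.Eventually.of_forall fun y x _ => hpd x y)
  rw [key.fderiv, ContinuousLinearMap.integral_apply]
  · refine integral_congr_ae (Filter.Eventually.of_forall fun y => ?_)
    simp only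
    rw [(hpd x y).fderiv]
  · refine Integrable.of_bound (((hD.comp (continuous_const.prodMk continuous_id)).clm_comp
      continuous_const).aestronglyMeasurable) (C * ‖ContinuousLinearMap.inl ℝ E3 Y‖)
      (Filter.Eventually.of_forall fun y => ?_)
    exact (ContinuousLinearMap.opNorm_comp_le _ _).trans
        (mul_le_mul_of_nonneg_right (hC (x, y)) (norm_nonneg _))

end

/-- Cauchy-Schwarz for averages -/
theorem avg_cs {Y : Type*} [MeasurableSpace Y] {μ : Measure Y} {S : Set Y} (hfin : μ S ≠ ∞)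
    {g : Y → ℂ} (hg : Integrable g (μ.restrict S)) (hg2 : Integrable (fun y => ‖g y‖ ^ 2) (μ.restrict S)) :
    ‖(((√(μ.real S))⁻¹ : ℝ) : ℂ) * ∫ y in S, g y ∂μ‖ ^ 2 ≤ ∫ y in S, ‖g y‖ ^ 2 ∂μ := by
  haveI : IsFiniteMeasure (μ.restrict S) := ⟨by
    rw [Measure.restrict_apply_univ]; exact lt_top_iff_ne_top.2 hfin⟩
  have hn : 0 ≤ ∫ y in S, ‖g y‖ ^ 2 ∂μ := integral_nonneg fun y => by positivity
  rw [norm_mul, mul_pow, Complex.norm_real, Real.norm_eq_abs, sq_abs, inv_pow,
    Real.sq_sqrt measureReal_nonneg]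
  have h1 : ‖∫ y in S, g y ∂μ‖ ≤ ∫ y in S, ‖g y‖ ∂μ := norm_integral_le_integral_norm _
  have h2 : (∫ y in S, ‖g y‖ * 1 ∂μ) ^ 2 ≤ (∫ y in S, ‖g y‖ ^ 2 ∂μ) * ∫ y in S, (1:ℝ) ^ 2 ∂μ :=
    cs hg2 (by simpa using integrable_const (1:ℝ)) (by simpa using hg.norm)
  simp only [mul_one, one_pow, integral_const, smul_eq_mul, measureReal_restrict_apply_univ] at h2
  have h3 : ‖∫ y in S, g y ∂μ‖ ^ 2 ≤ (∫ y in S, ‖g y‖ ^ 2 ∂μ) * μ.real S :=
    (pow_le_pow_left₀ (norm_nonneg _) h1 2).trans h2
  rcases eq_or_lt_of_le (measureReal_nonneg (μ := μ) (s := S)) with h0 | h0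
  · rw [← h0]; simpa using hn
  · rw [inv_mul_le_iff₀ h0]
    linarith

end Pool.Agent.H9R2.MA
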