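import Pool.Agent.H9R2.MA.NB2

set_option autoImplicit false
open MeasureTheory
open scoped ENNReal Topology

namespace Pool.Agent.H9R2.MA

/-- N-body functions -/
abbrev Wf (n : ℕ) := (Fin n → E3) → (Fin n → Fin 2) → ℂ

/-- continuous, compactly supported -/
structure Cc {n : ℕ} (ψ : Wf n) : Prop where
  cont : ∀ s, Continuous (fun X => ψ X s)
  supp : ∀ s, HasCompactSupport (fun X => ψ X s)

/-- C², compactly supported -/
structure Sm {n : ℕ} (ψ : Wf n) : Prop where
  smooth : ∀ s, ContDiff ℝ 2 (fun X => ψ X s)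
  supp : ∀ s, HasCompactSupport (fun X => ψ X s)

theorem Sm.cc {n : ℕ} {ψ : Wf n} (h : Sm ψ) : Cc ψ := ⟨fun s => (h.smooth s).continuous, h.supp⟩

/-- normalised averages over a cell -/
noncomputable def um {n : ℕ} (ψ : Wf (n + 1)) (i : Fin (n + 1)) (τ : Fin n → Fin 2)
    (S : Set (Fin n → E3)) : Sp :=
  fun x a => (((√(volume.real S))⁻¹ : ℝ) : ℂ) * ∫ y in S, ψ (ins i x y) (ins i a τ)

/-- one-body slice -/
def sl {n : ℕ} (ψ : Wf (n + 1)) (i : Fin (n + 1)) (τ : Fin n → Fin 2) (y : Fin n → E3) : Sp :=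
  fun x a => ψ (ins i x y) (ins i a τ)

section

variable {n : ℕ} {ψ : Wf (n + 1)}

theorem Sm.joint (h : Sm ψ) (i : Fin (n + 1)) (s : Fin (n + 1) → Fin 2) :
    ContDiff ℝ 2 (Function.uncurry fun (x : E3) (y : Fin n → E3) => ψ (ins i x y) s) :=
  (h.smooth s).comp (contDiff_ins i)

theorem Cc.joint (h : Cc ψ) (i : Fin (n + 1)) (s : Fin (n + 1) → Fin 2) :
    Continuous (Function.uncurry fun (x : E3) (y : Fin n → E3) => ψ (ins i x y) s) :=
  (h.cont s).comp (continuous_ins i)

theorem Cc.joint_supp (h : Cc ψ) (i : Fin (n + 1)) (s : Fin (n + 1) → Fin 2) :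
    HasCompactSupport (Function.uncurry fun (x : E3) (y : Fin n → E3) => ψ (ins i x y) s) :=
  supp_ins i (h.supp s)

theorem good_um (h : Sm ψ) (i : Fin (n + 1)) (τ : Fin n → Fin 2) {S : Set (Fin n → E3)}
    (hS : MeasurableSet S) : Good (um ψ i τ S) := by
  refine ⟨fun a => ?_, fun a => ?_⟩
  · obtain ⟨K, hK, hKs⟩ := supp_ins2 i (h.supp (ins i a τ))
    exact contDiff_const.mul (param_smooth (h.joint i (ins i a τ)) hK
      (fun x y hy => hKs y hy x) hS)
  · obtain ⟨K, hK, hKs⟩ := supp_ins1 i (h.supp (ins i a τ))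
    apply HasCompactSupport.intro hK
    intro x hx
    unfold um
    simp [hKs x hx]

theorem sl_smooth (h : Sm ψ) (i : Fin (n + 1)) (τ : Fin n → Fin 2) (y : Fin n → E3) (a : Fin 2) :
    ContDiff ℝ 2 (fun x => sl ψ i τ y x a) :=
  (h.joint i (ins i a τ)).comp (contDiff_id.prodMk contDiff_const)

theorem joint_int (h : Cc ψ) (i : Fin (n + 1)) (s : Fin (n + 1) → Fin 2) (x : E3) :
    Integrable fun y : Fin n → E3 => ψ (ins i x y) s := by
  have h1 : Continuous fun y : Fin n → E3 => ψ (ins i x y) s :=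
    (h.joint i s).comp (continuous_const.prodMk continuous_id)
  obtain ⟨K, hK, hKs⟩ := supp_ins2 i (h.supp s)
  exact h1.integrable_of_hasCompactSupport (HasCompactSupport.intro hK fun y hy => hKs y hy x)

/-- derivative in the inserted variable -/
theorem fderiv_sl (h : Sm ψ) (i : Fin (n + 1)) (τ : Fin n → Fin 2) (y : Fin n → E3) (x v : E3)
    (a : Fin 2) : fderiv ℝ (fun x' => sl ψ i τ y x' a) x v =
      fderiv ℝ (fun X => ψ X (ins i a τ)) (ins i x y) (Pi.single i v) := by
  have h1 : HasFDerivAt (fun x' : E3 => ins i x' y)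
      (ContinuousLinearMap.single ℝ (fun _ : Fin (n + 1) => E3) i) x := by
    rw [hasFDerivAt_pi']
    intro k
    rcases eq_or_ne k i with rfl | hk
    · simp only [ins_same]
      have : (ContinuousLinearMap.proj k).comp
        (ContinuousLinearMap.single ℝ (fun _ : Fin (n + 1) => E3) k) =
        ContinuousLinearMap.id ℝ E3 := by
        ext1 w; simp
      rw [this]
      exact hasFDerivAt_id x
    · have : (ContinuousLinearMap.proj k).comp
        (ContinuousLinearMap.single ℝ (fun _ : Fin (n + 1) => E3) i) = 0 := by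
        ext1 w; simp [hk]
      rw [this]
      obtain ⟨j, rfl⟩ := Fin.exists_succAbove_eq hk
      simp only [ins_succ]
      exact hasFDerivAt_const _ _
  have h2 : HasFDerivAt (fun X => ψ X (ins i a τ)) (fderiv ℝ (fun X => ψ X (ins i a τ)) (ins i x y))
      (ins i x y) := (((h.smooth (ins i a τ)).differentiable (by norm_num)) _).hasFDerivAt
  have h3 := h2.comp x h1
  have h4 : (fun x' => sl ψ i τ y x' a) = (fun X => ψ X (ins i a τ)) ∘ fun x' => ins i x' y := rfl
  rw [h4, h3.fderiv]
  rfl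

theorem fderiv_int (h : Sm ψ) (i : Fin (n + 1)) (τ : Fin n → Fin 2) (x v : E3)
    (a : Fin 2) : Integrable fun y => fderiv ℝ (fun x' => sl ψ i τ y x' a) x v := by
  simp_rw [fderiv_sl h]
  have hc : Continuous fun X => fderiv ℝ (fun X => ψ X (ins i a τ)) X (Pi.single i v) :=
    ((h.smooth (ins i a τ)).continuous_fderiv (by norm_num)).clm_apply continuous_const
  have hs : HasCompactSupport fun X => fderiv ℝ (fun X => ψ X (ins i a τ)) X (Pi.single i v) :=
    (h.supp (ins i a τ)).fderiv_apply ℝ (Pi.single i v)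
  have h1 : Continuous fun y : Fin n → E3 =>
      fderiv ℝ (fun X => ψ X (ins i a τ)) (ins i x y) (Pi.single i v) :=
    hc.comp ((continuous_ins i).comp (continuous_const.prodMk continuous_id))
  obtain ⟨K, hK, hKs⟩ := supp_ins2 i hs
  exact h1.integrable_of_hasCompactSupport (HasCompactSupport.intro hK fun y hy => hKs y hy x)

theorem cov_um (A : E3 → E3) (h : Sm ψ) (i : Fin (n + 1)) (τ : Fin n → Fin 2)
    {S : Set (Fin n → E3)} (hS : MeasurableSet S) (hfin : volume S ≠ ∞) (k : Fin 3) (x : E3)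
    (a : Fin 2) : cov A (um ψ i τ S) k x a =
      (((√(volume.real S))⁻¹ : ℝ) : ℂ) * ∫ y in S, cov A (sl ψ i τ y) k x a := by
  have h1 := param_fderiv (μ := (volume : Measure (Fin n → E3))) (h.joint i (ins i a τ))
    (h.cc.joint_supp i (ins i a τ)) hfin x (e3 k)
  have h2 : fderiv ℝ (fun x => um ψ i τ S x a) x (e3 k) =
      (((√(volume.real S))⁻¹ : ℝ) : ℂ) *
        ∫ y in S, fderiv ℝ (fun x' => sl ψ i τ y x' a) x (e3 k) := by
    obtain ⟨K, hK, hKs⟩ := supp_ins2 i (h.supp (ins i a τ))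
    have hd : DifferentiableAt ℝ (fun x => ∫ y in S, ψ (ins i x y) (ins i a τ)) x :=
      ((param_smooth (μ := (volume : Measure (Fin n → E3))) (h.joint i (ins i a τ)) hK
      (fun x y hy => hKs y hy x) hS).differentiable (by norm_num)) x
    unfold um
    rw [fderiv_const_mul hd]
    simp only [ContinuousLinearMap.smul_apply, smul_eq_mul]
    rw [h1]
    rfl
  unfold cov
  rw [h2, integral_add, integral_const_mul, integral_const_mul]
  · unfold um sl
    ring
  · exact ((fderiv_int h i τ x (e3 k) a).integrableOn).const_mul _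
  · exact ((joint_int h.cc i (ins i a τ) x).integrableOn).const_mul _

theorem cov_int (A : E3 → E3) (h : Sm ψ) (i : Fin (n + 1)) (τ : Fin n → Fin 2) (k : Fin 3) (x : E3)
    (a : Fin 2) : Integrable fun y => cov A (sl ψ i τ y) k x a :=
  ((fderiv_int h i τ x (e3 k) a).const_mul _).add ((joint_int h.cc i (ins i a τ) x).const_mul _)

theorem dirac_um (A : E3 → E3) (h : Sm ψ) (i : Fin (n + 1)) (τ : Fin n → Fin 2)
    {S : Set (Fin n → E3)} (hS : MeasurableSet S) (hfin : volume S ≠ ∞) (x : E3) (a : Fin 2) :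
    dirac A (um ψ i τ S) x a =
      (((√(volume.real S))⁻¹ : ℝ) : ℂ) * ∫ y in S, dirac A (sl ψ i τ y) x a := by
  unfold dirac
  rw [integral_finsetSum _ fun k _ => integrable_finsetSum _ fun t _ =>
    ((cov_int A h i τ k x t).integrableOn).const_mul _, Finset.mul_sum]
  refine Finset.sum_congr rfl fun k _ => ?_
  rw [integral_finsetSum _ fun t _ => ((cov_int A h i τ k x t).integrableOn).const_mul _,
    Finset.mul_sum]
  refine Finset.sum_congr rfl fun t _ => ?_
  rw [integral_const_mul, cov_um A h i τ hS hfin]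
  ring

end

end Pool.Agent.H9R2.MA
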