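import Pool.Agent.H9R2.MA.NB3

set_option autoImplicit false
open MeasureTheory
open scoped ENNReal Topology

namespace Pool.Agent.H9R2.MA

/-- many-body Dirac operator acting on the `i`-th particle -/
noncomputable def nd {N : ℕ} (A : E3 → E3) (ψ : Wf N) (i : Fin N) : Wf N := fun x s =>
  ∑ k : Fin 3, ∑ t : Fin 2, pauli k (s i) t *
    ((-Complex.I) * fderiv ℝ (fun y => ψ y (Function.update s i t)) x (Pi.single i (e3 k)) +
      ((A (x i) k : ℝ) : ℂ) * ψ x (Function.update s i t))

theorem nd_ins {n : ℕ} (A : E3 → E3) {ψ : Wf (n + 1)} (h : Sm ψ) (i : Fin (n + 1)) (x : E3)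
    (y : Fin n → E3) (a : Fin 2) (τ : Fin n → Fin 2) :
    nd A ψ i (ins i x y) (ins i a τ) = dirac A (sl ψ i τ y) x a := by
  unfold nd dirac cov
  refine Finset.sum_congr rfl fun k _ => Finset.sum_congr rfl fun t _ => ?_
  rw [fderiv_sl h, update_ins, ins_same, ins_same]
  rfl

theorem nd_cc {N : ℕ} {A : E3 → E3} (hA : Continuous A) {ψ : Wf N} (h : Sm ψ) (i : Fin N) :
    Cc (nd A ψ i) := by
  refine ⟨fun s => ?_, fun s => ?_⟩
  · unfold nd
    refine continuous_finsetSum _ fun k _ => continuous_finsetSum _ fun t _ => ?_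
    refine continuous_const.mul ((continuous_const.mul ?_).add (Continuous.mul ?_ ?_))
    · exact ((h.smooth _).continuous_fderiv (by norm_num)).clm_apply continuous_const
    · have h1 : Continuous fun X : Fin N → E3 => A (X i) := hA.comp (continuous_apply i)
      have h2 : Continuous fun X : Fin N → E3 => (A (X i)) k :=
        (EuclideanSpace.proj k : E3 →L[ℝ] ℝ).continuous.comp h1
      exact Complex.continuous_ofReal.comp h2
    · exact (h.smooth _).continuous
  · have h1 : ∀ t k, (fun X => fderiv ℝ (fun y => ψ y (Function.update s i t)) X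
        (Pi.single i (e3 k))) =ᶠ[Filter.coclosedCompact (Fin N → E3)] 0 := fun t k =>
      hasCompactSupport_iff_eventuallyEq.1 ((h.supp _).fderiv_apply ℝ _)
    have h2 : ∀ t, (fun X => ψ X (Function.update s i t))
        =ᶠ[Filter.coclosedCompact (Fin N → E3)] 0 := fun t =>
      hasCompactSupport_iff_eventuallyEq.1 (h.supp _)
    rw [hasCompactSupport_iff_eventuallyEq]
    have h3 : ∀ᶠ X in Filter.coclosedCompact (Fin N → E3), ∀ t k,
        fderiv ℝ (fun y => ψ y (Function.update s i t)) X (Pi.single i (e3 k)) = 0 := by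
      rw [Filter.eventually_all]; intro t
      rw [Filter.eventually_all]; intro k
      exact h1 t k
    have h4 : ∀ᶠ X in Filter.coclosedCompact (Fin N → E3), ∀ t,
        ψ X (Function.update s i t) = 0 := by
      rw [Filter.eventually_all]; intro t
      exact h2 t
    filter_upwards [h3, h4] with X hX hX'
    unfold nd
    simp [hX, hX']

theorem sqnorm_cc {X : Type*} [TopologicalSpace X] {f : X → ℂ} (hf : Continuous f)
    (hs : HasCompactSupport f) :
    Continuous (fun x => ‖f x‖ ^ 2) ∧ HasCompactSupport (fun x => ‖f x‖ ^ 2) :=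
  ⟨hf.norm.pow 2, hs.comp_left (g := fun z : ℂ => ‖z‖ ^ 2) (by simp)⟩

theorem sqnorm_int {X : Type*} [TopologicalSpace X] [MeasurableSpace X] [OpensMeasurableSpace X]
    {μ : Measure X} [IsFiniteMeasureOnCompacts μ] {f : X → ℂ} (hf : Continuous f)
    (hs : HasCompactSupport f) : Integrable (fun x => ‖f x‖ ^ 2) μ :=
  (sqnorm_cc hf hs).1.integrable_of_hasCompactSupport (sqnorm_cc hf hs).2

/-- integrated squares, sliced -/
theorem int_slice {n : ℕ} {G : Wf (n + 1)} (h : Cc G) (i : Fin (n + 1)) :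
    ∫ X, ∑ s, ‖G X s‖ ^ 2 =
      ∑ τ : Fin n → Fin 2, ∑ a, ∫ x, ∫ y, ‖G (ins i x y) (ins i a τ)‖ ^ 2 := by
  have hc : ∀ s, Continuous fun X => ‖G X s‖ ^ 2 := fun s => (h.cont s).norm.pow 2
  have hs : ∀ s, HasCompactSupport fun X => ‖G X s‖ ^ 2 := fun s =>
    (h.supp s).comp_left (g := fun z : ℂ => ‖z‖ ^ 2) (by simp)
  rw [integral_finsetSum _ fun s _ => (hc s).integrable_of_hasCompactSupport (hs s)]
  rw [sum_ins i, Finset.sum_comm]
  refine Finset.sum_congr rfl fun τ _ => Finset.sum_congr rfl fun a _ => ?_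
  exact int_ins i (hc _) (hs _)

section

variable {n : ℕ}

theorem param_cc {F : Type*} [NormedAddCommGroup F] [NormedSpace ℝ F] {g : E3 → (Fin n → E3) → F}
    (hg : Continuous (Function.uncurry g)) (hgs : HasCompactSupport (Function.uncurry g))
    (μ : Measure (Fin n → E3)) [IsLocallyFiniteMeasure μ] :
    Continuous (fun x => ∫ y, g x y ∂μ) ∧ HasCompactSupport (fun x => ∫ y, g x y ∂μ) := by
  constructor
  · apply param_cont hg (hgs.isCompact.image continuous_snd)
    intro x y hy
    by_contra h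
    exact hy ⟨(x, y), subset_tsupport _ h, rfl⟩
  · apply HasCompactSupport.intro (hgs.isCompact.image continuous_fst)
    intro x hx
    have : ∀ y, g x y = 0 := by
      intro y
      by_contra h
      exact hx ⟨(x, y), subset_tsupport _ h, rfl⟩
    simp [this]

theorem slice_int {F : Type*} [NormedAddCommGroup F] {g : E3 → (Fin n → E3) → F}
    (hg : Continuous (Function.uncurry g)) (hgs : HasCompactSupport (Function.uncurry g)) (x : E3) :
    Integrable (g x) := by
  have h1 : Continuous (g x) := hg.comp (continuous_const.prodMk continuous_id)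
  apply h1.integrable_of_hasCompactSupport
  apply HasCompactSupport.intro (hgs.isCompact.image continuous_snd)
  intro y hy
  by_contra h
  exact hy ⟨(x, y), subset_tsupport _ h, rfl⟩

theorem sq_joint {g : E3 → (Fin n → E3) → ℂ}
    (hg : Continuous (Function.uncurry g)) (hgs : HasCompactSupport (Function.uncurry g)) :
    Continuous (Function.uncurry fun x y => ‖g x y‖ ^ 2) ∧
      HasCompactSupport (Function.uncurry fun x y => ‖g x y‖ ^ 2) :=
  ⟨hg.norm.pow 2, hgs.comp_left (g := fun z : ℂ => ‖z‖ ^ 2) (by simp)⟩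

theorem avg_cc {g : E3 → (Fin n → E3) → ℂ}
    (hg : Continuous (Function.uncurry g)) (hgs : HasCompactSupport (Function.uncurry g))
    (S : Set (Fin n → E3)) (c : ℂ) :
    Continuous (fun x => ‖c * ∫ y in S, g x y‖ ^ 2) ∧
      HasCompactSupport (fun x => ‖c * ∫ y in S, g x y‖ ^ 2) := by
  obtain ⟨h1, h2⟩ := param_cc hg hgs (volume.restrict S)
  exact ⟨(continuous_const.mul h1).norm.pow 2,
    h2.comp_left (g := fun z : ℂ => ‖c * z‖ ^ 2) (by simp)⟩

theorem cells_le {M : ℕ} {f : (Fin n → E3) → ℝ} (hf : Integrable f) (hf0 : ∀ y, 0 ≤ f y)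
    {S : Fin M → Set (Fin n → E3)} (hS : ∀ j, MeasurableSet (S j))
    (hd : Pairwise (Function.onFun Disjoint S)) : ∑ j, ∫ y in S j, f y ≤ ∫ y, f y := by
  rw [← integral_iUnion_fintype hS hd fun j => hf.integrableOn]
  exact setIntegral_le_integral hf (Filter.Eventually.of_forall hf0)

theorem avg_sum {M : ℕ} {g : E3 → (Fin n → E3) → ℂ}
    (hg : Continuous (Function.uncurry g)) (hgs : HasCompactSupport (Function.uncurry g))
    {S : Fin M → Set (Fin n → E3)} (hS : ∀ j, MeasurableSet (S j))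
    (hfin : ∀ j, volume (S j) ≠ ∞) (hd : Pairwise (Function.onFun Disjoint S)) :
    ∑ j, ∫ x, ‖(((√(volume.real (S j)))⁻¹ : ℝ) : ℂ) * ∫ y in S j, g x y‖ ^ 2 ≤
      ∫ x, ∫ y, ‖g x y‖ ^ 2 := by
  obtain ⟨q1, q2⟩ := sq_joint hg hgs
  rw [← integral_finsetSum _ fun j _ => (avg_cc hg hgs (S j) _).1.integrable_of_hasCompactSupport
    (avg_cc hg hgs (S j) _).2]
  apply integral_mono
  · exact integrable_finsetSum _ fun j _ =>
      (avg_cc hg hgs (S j) _).1.integrable_of_hasCompactSupport (avg_cc hg hgs (S j) _).2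
  · exact (param_cc q1 q2 volume).1.integrable_of_hasCompactSupport (param_cc q1 q2 volume).2
  intro x
  refine le_trans (Finset.sum_le_sum fun j _ => ?_)
    (cells_le (slice_int q1 q2 x) (fun y => by positivity) hS hd)
  exact avg_cs (hfin j) (slice_int hg hgs x).integrableOn (slice_int q1 q2 x).integrableOn

end

/-- total Dirac energy of the averaged family -/
theorem dirac_sum {n M : ℕ} {A : E3 → E3} (hA : Continuous A) {ψ : Wf (n + 1)} (h : Sm ψ)
    {S : Fin M → Set (Fin n → E3)} (hS : ∀ j, MeasurableSet (S j))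
    (hfin : ∀ j, volume (S j) ≠ ∞) (hd : Pairwise (Function.onFun Disjoint S)) (i : Fin (n + 1)) :
    ∑ τ : Fin n → Fin 2, ∑ j, ∫ x, diracSq A (um ψ i τ (S j)) x ≤ ∫ X, ∑ s, ‖nd A ψ i X s‖ ^ 2 := by
  rw [int_slice (nd_cc hA h i) i]
  refine Finset.sum_le_sum fun τ _ => ?_
  have h1 : ∀ j, ∫ x, diracSq A (um ψ i τ (S j)) x =
      ∑ a, ∫ x, ‖(((√(volume.real (S j)))⁻¹ : ℝ) : ℂ) *
        ∫ y in S j, nd A ψ i (ins i x y) (ins i a τ)‖ ^ 2 := by
    intro j
    unfold diracSq
    rw [integral_finsetSum]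
    · refine Finset.sum_congr rfl fun a _ => ?_
      refine integral_congr_ae (Filter.Eventually.of_forall fun x => ?_)
      simp only
      rw [dirac_um A h i τ (hS j) (hfin j)]
      simp_rw [nd_ins A h]
    · intro a _
      have hG := good_um h i τ (hS j)
      exact sqnorm_int (continuous_dirac hA hG a) (supp_dirac hG a)
  simp_rw [h1]
  rw [Finset.sum_comm]
  refine Finset.sum_le_sum fun a _ => ?_
  exact avg_sum ((nd_cc hA h i).joint i (ins i a τ)) ((nd_cc hA h i).joint_supp i (ins i a τ))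
    hS hfin hd

/-- total mass of the averaged family -/
theorem mass_sum {n M : ℕ} {ψ : Wf (n + 1)} (h : Sm ψ)
    {S : Fin M → Set (Fin n → E3)} (hS : ∀ j, MeasurableSet (S j))
    (hfin : ∀ j, volume (S j) ≠ ∞) (hd : Pairwise (Function.onFun Disjoint S)) (i : Fin (n + 1)) :
    ∑ τ : Fin n → Fin 2, ∑ j, ∫ x, MA.sq (um ψ i τ (S j)) x ≤ ∫ X, ∑ s, ‖ψ X s‖ ^ 2 := by
  rw [int_slice h.cc i]
  refine Finset.sum_le_sum fun τ _ => ?_
  have h1 : ∀ j, ∫ x, MA.sq (um ψ i τ (S j)) x =
      ∑ a, ∫ x, ‖(((√(volume.real (S j)))⁻¹ : ℝ) : ℂ) *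
        ∫ y in S j, ψ (ins i x y) (ins i a τ)‖ ^ 2 := by
    intro j
    unfold MA.sq
    rw [integral_finsetSum]
    · rfl
    · intro a _
      have hG := good_um h i τ (hS j)
      exact sqnorm_int (hG.smooth a).continuous (hG.supp a)
  simp_rw [h1]
  rw [Finset.sum_comm]
  refine Finset.sum_le_sum fun a _ => ?_
  exact avg_sum (h.cc.joint i (ins i a τ)) (h.cc.joint_supp i (ins i a τ)) hS hfin hd

end Pool.Agent.H9R2.MA
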