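import Pool.Agent.H9R2.MA.NB4

set_option autoImplicit false
open MeasureTheory
open scoped ENNReal Topology

namespace Pool.Agent.H9R2.MA

theorem exists_cells {n : ℕ} (R r : ℝ) (hr : 0 < r) :
    ∃ (M : ℕ) (S : Fin M → Set (Fin n → E3)), (∀ j, MeasurableSet (S j)) ∧
      (∀ j, volume (S j) ≠ ∞) ∧ Pairwise (Function.onFun Disjoint S) ∧
      (⋃ j, S j) = Metric.closedBall 0 R ∧ ∀ j, ∀ y ∈ S j, ∀ y' ∈ S j, dist y y' < r := by
  classical
  have hB : IsCompact (Metric.closedBall (0 : Fin n → E3) R) := isCompact_closedBall 0 R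
  obtain ⟨t, _, ht, hcov⟩ := hB.finite_cover_balls (half_pos hr)
  set T := ht.toFinset with hT
  set M := T.card with hM
  let c : Fin M → (Fin n → E3) := fun j => (T.equivFin.symm j : Fin n → E3)
  let f : Fin M → Set (Fin n → E3) := fun j => Metric.ball (c j) (r / 2) ∩ Metric.closedBall 0 R
  have hf : ∀ j, MeasurableSet (f j) := fun j => measurableSet_ball.inter measurableSet_closedBall
  let S : Fin M → Set (Fin n → E3) := fun j => f j \ ⋃ (k) (_ : k < j), f k
  have hSf : ∀ j, S j ⊆ f j := fun j => Set.diff_subset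
  refine ⟨M, S, ?_, ?_, ?_, ?_, ?_⟩
  · intro j
    exact (hf j).diff (MeasurableSet.iUnion fun k => MeasurableSet.iUnion fun _ => hf k)
  · intro j
    have h1 : S j ⊆ Metric.closedBall 0 R := (hSf j).trans Set.inter_subset_right
    exact ((measure_mono h1).trans_lt hB.measure_lt_top).ne
  · intro j k hjk
    rw [Function.onFun, Set.disjoint_left]
    rcases lt_or_gt_of_ne hjk with h | h
    · intro y hy hy'
      exact hy'.2 (Set.mem_iUnion₂.2 ⟨j, h, hSf j hy⟩)
    · intro y hy hy'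
      exact hy.2 (Set.mem_iUnion₂.2 ⟨k, h, hSf k hy'⟩)
  · apply Set.Subset.antisymm
    · exact Set.iUnion_subset fun j => (hSf j).trans Set.inter_subset_right
    · intro y hy
      have h1 : ({j | y ∈ f j} : Set (Fin M)).Nonempty := by
        obtain ⟨x, hx, hyx⟩ := Set.mem_iUnion₂.1 (hcov hy)
        have hxT : x ∈ T := by rw [hT]; simpa using hx
        refine ⟨T.equivFin ⟨x, hxT⟩, ?_⟩
        refine ⟨?_, hy⟩
        change y ∈ Metric.ball ((T.equivFin.symm (T.equivFin ⟨x, hxT⟩) : T) : Fin n → E3) (r / 2)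
        rw [Equiv.symm_apply_apply]
        exact hyx
      obtain ⟨m, hm, hmin⟩ := (wellFounded_lt : WellFounded ((· < ·) : Fin M → Fin M → Prop)).has_min
        _ h1
      rw [Set.mem_iUnion]
      refine ⟨m, hm, ?_⟩
      intro hcon
      obtain ⟨k, hk, hyk⟩ := Set.mem_iUnion₂.1 hcon
      exact hmin k hyk hk
  · intro j y hy y' hy'
    have h1 : dist y (c j) < r / 2 := (hSf j hy).1
    have h2 : dist y' (c j) < r / 2 := (hSf j hy').1
    calc dist y y' ≤ dist y (c j) + dist y' (c j) := dist_triangle_right _ _ _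
      _ < r := by linarith

theorem cell_est {Y : Type*} [MeasurableSpace Y] {μ : Measure Y} {S : Set Y}
    (hS : MeasurableSet S) (hfin : μ S ≠ ∞) {g : Y → ℂ} {M0 ω : ℝ} (hω : 0 ≤ ω) (hω1 : ω ≤ 1)
    (hM0 : 0 ≤ M0) (hM : ∀ y, ‖g y‖ ≤ M0) (hg : Integrable g (μ.restrict S))
    (hosc : ∀ y ∈ S, ∀ y' ∈ S, ‖g y - g y'‖ ≤ ω) :
    ∫ y in S, ‖g y‖ ^ 2 ∂μ ≤
      ‖(((√(μ.real S))⁻¹ : ℝ) : ℂ) * ∫ y in S, g y ∂μ‖ ^ 2 + (2 * M0 + 1) * ω * μ.real S := by
  have hfm : IsFiniteMeasure (μ.restrict S) := ⟨by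
    rw [Measure.restrict_apply_univ]; exact lt_top_iff_ne_top.2 hfin⟩
  rw [norm_mul, mul_pow, Complex.norm_real, Real.norm_eq_abs, sq_abs, inv_pow,
    Real.sq_sqrt measureReal_nonneg]
  rcases eq_or_lt_of_le (measureReal_nonneg (μ := μ) (s := S)) with h0 | h0
  · have hz : μ S = 0 := by
      rw [measureReal_def] at h0
      exact ((ENNReal.toReal_eq_zero_iff _).1 h0.symm).resolve_right hfin
    have : μ.restrict S = 0 := Measure.restrict_eq_zero.2 hz
    rw [this]
    simp [← h0]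
  · set v := μ.real S with hv
    set c := v⁻¹ • ∫ y in S, g y ∂μ with hc
    have hcI : ∫ y in S, g y ∂μ = v • c := by rw [hc, smul_smul, mul_inv_cancel₀ h0.ne', one_smul]
    have h1 : ∀ y ∈ S, ‖g y - c‖ ≤ ω := by
      intro y hy
      have h2 : ∫ y' in S, (g y - g y') ∂μ = v • (g y - c) := by
        rw [integral_sub (integrable_const _) hg, integral_const, measureReal_restrict_apply_univ,
          hcI, smul_sub]
      have h3 : ‖∫ y' in S, (g y - g y') ∂μ‖ ≤ ω * v :=
        norm_setIntegral_le_of_norm_le_const (lt_top_iff_ne_top.2 hfin) (fun y' hy' => hosc y hy y' hy')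
      rw [h2, norm_smul, Real.norm_eq_abs, abs_of_pos h0] at h3
      have : v * ‖g y - c‖ ≤ v * ω := by linarith
      exact le_of_mul_le_mul_left this h0
    have h4 : ∫ y in S, ‖g y‖ ^ 2 ∂μ ≤ ∫ y in S, (‖c‖ ^ 2 + (2 * M0 + 1) * ω) ∂μ := by
      have hcM : ‖c‖ ≤ M0 := by
        rw [hc, norm_smul, norm_inv, Real.norm_eq_abs, abs_of_pos h0, inv_mul_le_iff₀ h0]
        have := norm_setIntegral_le_of_norm_le_const (μ := μ) (s := S) (f := g) (C := M0)
          (lt_top_iff_ne_top.2 hfin) (fun y _ => hM y)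
        linarith
      apply setIntegral_mono_on
      · apply Integrable.of_bound (hg.aestronglyMeasurable.norm.pow 2) (M0 ^ 2)
        refine Filter.Eventually.of_forall fun y => ?_
        simp only [Pi.pow_apply, norm_pow, norm_norm]
        exact pow_le_pow_left₀ (norm_nonneg _) (hM y) 2
      · exact integrable_const _
      · exact hS
      · intro y hy
        have h5 : ‖g y‖ ≤ ‖c‖ + ω := by
          calc ‖g y‖ = ‖c + (g y - c)‖ := by congr 1; ring
            _ ≤ ‖c‖ + ‖g y - c‖ := norm_add_le _ _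
            _ ≤ _ := by linarith [h1 y hy]
        calc ‖g y‖ ^ 2 ≤ (‖c‖ + ω) ^ 2 := pow_le_pow_left₀ (norm_nonneg _) h5 2
          _ ≤ _ := by nlinarith [norm_nonneg c]
    rw [integral_const, measureReal_restrict_apply_univ, smul_eq_mul, ← hv] at h4
    refine h4.trans (le_of_eq ?_)
    have hnv : ‖v • c‖ = v * ‖c‖ := by rw [norm_smul v c, Real.norm_eq_abs, abs_of_pos h0]
    rw [hcI, hnv, mul_pow, ← mul_assoc]
    have : v⁻¹ * v ^ 2 = v := by field_simp
    rw [this]
    ring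

end Pool.Agent.H9R2.MA
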