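import Pool.Agent.H9R2.MA.NB5

set_option autoImplicit false
open MeasureTheory
open scoped ENNReal Topology

namespace Pool.Agent.H9R2.MA

theorem le_gr {δ : ℝ} (x : E3) : ‖x‖ ≤ gr δ x := by
  apply Real.le_sqrt_of_sq_le
  nlinarith [sq_nonneg δ]

theorem gr_inv_le {δ : ℝ} (hδ : 0 < δ) (x : E3) : (gr δ x)⁻¹ ≤ δ⁻¹ := by
  apply inv_anti₀ hδ
  apply Real.le_sqrt_of_sq_le
  nlinarith [sq_nonneg ‖x‖]

theorem cont_gr_inv {δ : ℝ} (hδ : 0 < δ) : Continuous fun x => (gr δ x)⁻¹ :=
  (contDiff_gr hδ).continuous.inv₀ fun x => (gr_pos hδ x).ne'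

theorem reg_le {u : Sp} (hu : Good u) {δ : ℝ} (hδ : 0 < δ) :
    ∫ x, MA.sq u x * (gr δ x)⁻¹ ≤ ∫ x, MA.sq u x / ‖x‖ := by
  apply integral_mono_ae
  · exact ((contDiff_sq hu.smooth).continuous.mul (cont_gr_inv hδ)).integrable_of_hasCompactSupport
      hu.sq_supp.mul_right
  · exact coulomb_int hu
  · have h0 : ∀ᵐ x : E3, x ≠ 0 := compl_mem_ae_iff.2 (measure_singleton 0)
    filter_upwards [h0] with x hx
    rw [div_eq_mul_inv]
    apply mul_le_mul_of_nonneg_left _ (sq_nonneg' u x)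
    exact inv_anti₀ (norm_pos_iff.2 hx) (le_gr x)

/-- regularised Coulomb energy of particle `i` -/
noncomputable def PC {N : ℕ} (ψ : Wf N) (δ : ℝ) (i : Fin N) : ℝ :=
  ∫ X, (∑ s, ‖ψ X s‖ ^ 2) * (gr δ (X i))⁻¹

theorem PC_slice {n : ℕ} {ψ : Wf (n + 1)} (h : Cc ψ) {δ : ℝ} (hδ : 0 < δ) (i : Fin (n + 1)) :
    PC ψ δ i = ∑ τ : Fin n → Fin 2, ∑ a, ∫ x, (∫ y, ‖ψ (ins i x y) (ins i a τ)‖ ^ 2) *
      (gr δ x)⁻¹ := by
  have hgi : Continuous fun X : Fin (n + 1) → E3 => (gr δ (X i))⁻¹ :=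
    (cont_gr_inv hδ).comp (continuous_apply i)
  have hc : ∀ s, Continuous fun X => ‖ψ X s‖ ^ 2 * (gr δ (X i))⁻¹ := fun s =>
    (sqnorm_cc (h.cont s) (h.supp s)).1.mul hgi
  have hs : ∀ s, HasCompactSupport fun X => ‖ψ X s‖ ^ 2 * (gr δ (X i))⁻¹ := fun s =>
    (sqnorm_cc (h.cont s) (h.supp s)).2.mul_right
  unfold PC
  simp_rw [Finset.sum_mul]
  rw [integral_finsetSum _ fun s _ => (hc s).integrable_of_hasCompactSupport (hs s)]
  rw [sum_ins i, Finset.sum_comm]
  refine Finset.sum_congr rfl fun τ _ => Finset.sum_congr rfl fun a _ => ?_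
  rw [int_ins i (hc _) (hs _)]
  refine integral_congr_ae (Filter.Eventually.of_forall fun x => ?_)
  simp only [ins_same]
  rw [integral_mul_const]

theorem coul_cells {n : ℕ} {ψ : Wf (n + 1)} (h : Sm ψ) {δ η : ℝ} (hδ : 0 < δ) (hη : 0 < η) :
    ∃ (M : ℕ) (S : Fin M → Set (Fin n → E3)), (∀ j, MeasurableSet (S j)) ∧
      (∀ j, volume (S j) ≠ ∞) ∧ Pairwise (Function.onFun Disjoint S) ∧
      ∀ i, PC ψ δ i ≤ (∑ τ, ∑ j, ∫ x, MA.sq (um ψ i τ (S j)) x / ‖x‖) + η := by
  classical
  have hcc := h.cc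
  -- radius
  obtain ⟨R, hR0, hR⟩ : ∃ R : ℝ, 0 < R ∧ ∀ s X, ψ X s ≠ 0 → ‖X‖ ≤ R := by
    have h1 : ∀ s, ∃ R : ℝ, tsupport (fun X => ψ X s) ⊆ Metric.closedBall 0 R := fun s =>
      (((h.supp s)).isCompact.isBounded).subset_closedBall 0
    choose R hR using h1
    refine ⟨1 + ∑ s, |R s|, by positivity, fun s X hX => ?_⟩
    have h2 := hR s (subset_tsupport _ hX)
    rw [mem_closedBall_zero_iff] at h2
    have h3 : |R s| ≤ ∑ s, |R s| := Finset.single_le_sum (f := fun s => |R s|)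
      (fun _ _ => abs_nonneg _) (Finset.mem_univ s)
    linarith [le_abs_self (R s)]
  obtain ⟨M0, hM00, hM0⟩ : ∃ M0 : ℝ, 0 ≤ M0 ∧ ∀ s X, ‖ψ X s‖ ≤ M0 := by
    have h1 : ∀ s, ∃ C : ℝ, ∀ X, ‖ψ X s‖ ≤ C := fun s =>
      (hcc.cont s).bounded_above_of_compact_support (hcc.supp s)
    choose C hC using h1
    refine ⟨∑ s, |C s|, by positivity, fun s X => ?_⟩
    have h3 : |C s| ≤ ∑ s, |C s| := Finset.single_le_sum (f := fun s => |C s|)
      (fun _ _ => abs_nonneg _) (Finset.mem_univ s)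
    linarith [le_abs_self (C s), hC s X]
  set V := volume.real (Metric.closedBall (0 : Fin n → E3) R) with hV
  set κ1 := volume.real (Metric.closedBall (0 : E3) R) with hκ1
  have hV0 : 0 ≤ V := measureReal_nonneg
  have hκ0 : 0 ≤ κ1 := measureReal_nonneg
  set D : ℝ := (Fintype.card (Fin n → Fin 2) : ℝ) * 2 * ((2 * M0 + 1) * V * δ⁻¹ * κ1) with hD
  have hD0 : 0 ≤ D := by positivity
  set ω := min 1 (η / (D + 1)) with hω
  have hω0 : 0 < ω := lt_min one_pos (by positivity)
  have hω1 : ω ≤ 1 := min_le_left _ _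
  have hωD : ω * D ≤ η := by
    calc ω * D ≤ (η / (D + 1)) * D := mul_le_mul_of_nonneg_right (min_le_right _ _) hD0
      _ ≤ (η / (D + 1)) * (D + 1) := by
          apply mul_le_mul_of_nonneg_left (by linarith) (by positivity)
      _ = η := by field_simp
  -- modulus
  obtain ⟨r, hr0, hr⟩ : ∃ r : ℝ, 0 < r ∧ ∀ s X X', dist X X' < r → ‖ψ X s - ψ X' s‖ ≤ ω := by
    have h1 : ∀ s, ∃ r : ℝ, 0 < r ∧ ∀ X X', dist X X' < r → ‖ψ X s - ψ X' s‖ ≤ ω := by
      intro s
      have huc : UniformContinuous fun X => ψ X s :=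
        (hcc.supp s).uniformContinuous_of_continuous (hcc.cont s)
      obtain ⟨r, hr0, hr⟩ := Metric.uniformContinuous_iff.1 huc ω hω0
      refine ⟨r, hr0, fun X X' hX => ?_⟩
      have := hr hX
      rw [dist_eq_norm] at this
      exact this.le
    choose r hr0 hr using h1
    have hne : (Finset.univ : Finset (Fin (n + 1) → Fin 2)).Nonempty := Finset.univ_nonempty
    refine ⟨Finset.univ.inf' hne r, ?_, fun s X X' hX => ?_⟩
    · rw [Finset.lt_inf'_iff]; intro s _; exact hr0 s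
    · exact hr s X X' (hX.trans_le (Finset.inf'_le _ (Finset.mem_univ s)))
  obtain ⟨M, S, hS, hfin, hd, hun, hdiam⟩ := exists_cells (n := n) R r hr0
  refine ⟨M, S, hS, hfin, hd, fun i => ?_⟩
  rw [PC_slice hcc hδ i]
  have hsumV : ∑ j, volume.real (S j) = V := by
    rw [hV, ← hun]
    rw [measureReal_iUnion_fintype]
    · exact hd
    · exact hS
  -- the pointwise estimate
  have hpt : ∀ (τ : Fin n → Fin 2) (a : Fin 2) (x : E3), ∫ y, ‖ψ (ins i x y) (ins i a τ)‖ ^ 2 ≤
      (∑ j, ‖um ψ i τ (S j) x a‖ ^ 2) +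
        (Metric.closedBall (0 : E3) R).indicator (fun _ => (2 * M0 + 1) * ω * V) x := by
    intro τ a x
    have hint : Integrable fun y => ψ (ins i x y) (ins i a τ) := joint_int hcc i (ins i a τ) x
    by_cases hx : x ∈ Metric.closedBall (0 : E3) R
    · rw [Set.indicator_of_mem hx]
      have h1 : ∫ y, ‖ψ (ins i x y) (ins i a τ)‖ ^ 2 =
          ∑ j, ∫ y in S j, ‖ψ (ins i x y) (ins i a τ)‖ ^ 2 := by
        rw [← integral_iUnion_fintype hS hd, hun]
        · refine (setIntegral_eq_integral_of_forall_compl_eq_zero fun y hy => ?_).symm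
          have : ψ (ins i x y) (ins i a τ) = 0 := by
            by_contra hne
            apply hy
            have h2 := hR _ _ hne
            rw [mem_closedBall_zero_iff]
            rw [pi_norm_le_iff_of_nonneg hR0.le] at h2 ⊢
            intro k
            have := h2 (i.succAbove k)
            rwa [ins_succ] at this
          simp [this]
        · intro j
          have hq := sq_joint (hcc.joint i (ins i a τ)) (hcc.joint_supp i (ins i a τ))
          exact (slice_int hq.1 hq.2 x).integrableOn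
      rw [h1, ← hsumV, Finset.mul_sum, ← Finset.sum_add_distrib]
      refine Finset.sum_le_sum fun j _ => ?_
      apply cell_est (hS j) (hfin j) hω0.le hω1 hM00 (fun y => hM0 _ _) hint.integrableOn
      intro y hy y' hy'
      apply hr
      unfold ins
      rw [Fin.dist_insertNth_insertNth, dist_self]
      exact max_lt hr0 (hdiam j y hy y' hy')
    · rw [Set.indicator_of_notMem hx, add_zero]
      have h0 : ∀ y, ψ (ins i x y) (ins i a τ) = 0 := by
        intro y
        by_contra hne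
        apply hx
        have h2 := hR _ _ hne
        rw [mem_closedBall_zero_iff]
        have := norm_le_pi_norm (ins i x y) i
        rw [ins_same] at this
        linarith
      have : ∫ y, ‖ψ (ins i x y) (ins i a τ)‖ ^ 2 = 0 := by simp [h0]
      rw [this]
      exact Finset.sum_nonneg fun _ _ => by positivity
  have hint2 : ∀ (τ : Fin n → Fin 2) (a : Fin 2) (j : Fin M),
      Integrable fun x => ‖um ψ i τ (S j) x a‖ ^ 2 * (gr δ x)⁻¹ := by
    intro τ a j
    have hG := good_um h i τ (hS j)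
    have hq := sqnorm_cc (hG.smooth a).continuous (hG.supp a)
    exact (hq.1.mul (cont_gr_inv hδ)).integrable_of_hasCompactSupport hq.2.mul_right
  have hmain : ∀ (τ : Fin n → Fin 2) (a : Fin 2), ∫ x, (∫ y, ‖ψ (ins i x y) (ins i a τ)‖ ^ 2) *
      (gr δ x)⁻¹ ≤ (∑ j, ∫ x, ‖um ψ i τ (S j) x a‖ ^ 2 * (gr δ x)⁻¹) +
        ω * ((2 * M0 + 1) * V * δ⁻¹ * κ1) := by
    intro τ a
    have hind : Integrable (fun x : E3 => (Metric.closedBall (0 : E3) R).indicator
        (fun _ => (2 * M0 + 1) * ω * V * δ⁻¹) x) := by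
      rw [integrable_indicator_iff measurableSet_closedBall]
      exact integrableOn_const (isCompact_closedBall (0 : E3) R).measure_ne_top
    have h1 : ∫ x, (∫ y, ‖ψ (ins i x y) (ins i a τ)‖ ^ 2) * (gr δ x)⁻¹ ≤
        ∫ x, ((∑ j, ‖um ψ i τ (S j) x a‖ ^ 2 * (gr δ x)⁻¹) +
          (Metric.closedBall (0 : E3) R).indicator (fun _ => (2 * M0 + 1) * ω * V * δ⁻¹) x) := by
      apply integral_mono
      · have hq := sq_joint (hcc.joint i (ins i a τ)) (hcc.joint_supp i (ins i a τ))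
        have hp := param_cc hq.1 hq.2 volume
        exact (hp.1.mul (cont_gr_inv hδ)).integrable_of_hasCompactSupport hp.2.mul_right
      · exact (integrable_finsetSum _ fun j _ => hint2 τ a j).add hind
      · intro x
        have h2 := mul_le_mul_of_nonneg_right (hpt τ a x) (inv_nonneg.2 (gr_pos hδ x).le)
        refine h2.trans ?_
        rw [add_mul, Finset.sum_mul]
        apply add_le_add_right
        by_cases hx : x ∈ Metric.closedBall (0 : E3) R
        · rw [Set.indicator_of_mem hx, Set.indicator_of_mem hx]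
          apply mul_le_mul_of_nonneg_left (gr_inv_le hδ x)
          positivity
        · rw [Set.indicator_of_notMem hx, Set.indicator_of_notMem hx, zero_mul]
    refine h1.trans (le_of_eq ?_)
    rw [integral_add (integrable_finsetSum _ fun j _ => hint2 τ a j) hind,
      integral_finsetSum _ fun j _ => hint2 τ a j, integral_indicator measurableSet_closedBall,
      integral_const, measureReal_restrict_apply_univ, smul_eq_mul, ← hκ1]
    ring
  calc ∑ τ : Fin n → Fin 2, ∑ a, ∫ x, (∫ y, ‖ψ (ins i x y) (ins i a τ)‖ ^ 2) * (gr δ x)⁻¹ ≤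
      ∑ τ : Fin n → Fin 2, ∑ a, ((∑ j, ∫ x, ‖um ψ i τ (S j) x a‖ ^ 2 * (gr δ x)⁻¹) +
        ω * ((2 * M0 + 1) * V * δ⁻¹ * κ1)) :=
        Finset.sum_le_sum fun τ _ => Finset.sum_le_sum fun a _ => hmain τ a
    _ = (∑ τ : Fin n → Fin 2, ∑ j, ∫ x, MA.sq (um ψ i τ (S j)) x * (gr δ x)⁻¹) + ω * D := by
        have e1 : ∀ (τ : Fin n → Fin 2) (j : Fin M), ∫ x, MA.sq (um ψ i τ (S j)) x * (gr δ x)⁻¹ =
            ∑ a, ∫ x, ‖um ψ i τ (S j) x a‖ ^ 2 * (gr δ x)⁻¹ := by
          intro τ j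
          unfold MA.sq
          simp_rw [Finset.sum_mul]
          rw [integral_finsetSum _ fun a _ => hint2 τ a j]
        simp_rw [e1, Finset.sum_add_distrib, Finset.sum_const, Finset.card_univ]
        rw [hD]
        congr 1
        · refine Finset.sum_congr rfl fun τ _ => ?_
          rw [Finset.sum_comm]
        · simp only [Fintype.card_fin, nsmul_eq_mul]
          push_cast
          ring
    _ ≤ _ := by
        apply add_le_add _ hωD
        exact Finset.sum_le_sum fun τ _ => Finset.sum_le_sum fun j _ =>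
          reg_le (good_um h i τ (hS j)) hδ

end Pool.Agent.H9R2.MA
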