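import Pool.Agent.H9R2.MA.NB6

set_option autoImplicit false
open MeasureTheory
open scoped ENNReal Topology

namespace Pool.Agent.H9R2.MA

/-- continuous, compactly supported spinors -/
structure Cw (w : Sp) : Prop where
  cont : ∀ a, Continuous (fun x => w x a)
  supp : ∀ a, HasCompactSupport (fun x => w x a)

theorem Good.cw {w : Sp} (h : Good w) : Cw w := ⟨fun a => (h.smooth a).continuous, h.supp⟩

section

variable {n : ℕ}

/-- annihilation of a particle in the state `w` -/
noncomputable def cc (w : Sp) (i : Fin (n + 1)) (f : Wf (n + 1)) : Wf n := fun y τ =>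
  ∫ x, ∑ a, (starRingEnd ℂ) (w x a) * f (ins i x y) (ins i a τ)

/-- projection of the `i`-th particle onto the state `w` -/
noncomputable def PP (w : Sp) (i : Fin (n + 1)) (f : Wf (n + 1)) : Wf (n + 1) := fun X s =>
  w (X i) (s i) * cc w i f (rem i X) (rem i s)

theorem PP_ins (w : Sp) (i : Fin (n + 1)) (f : Wf (n + 1)) (x : E3) (y : Fin n → E3) (a : Fin 2)
    (τ : Fin n → Fin 2) : PP w i f (ins i x y) (ins i a τ) = w x a * cc w i f y τ := by
  unfold PP
  simp

variable {w : Sp} (hw : Cw w) {f : Wf (n + 1)} (hf : Cc f)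

include hw hf

theorem cc_joint (i : Fin (n + 1)) (a : Fin 2) (s : Fin (n + 1) → Fin 2) :
    Continuous (Function.uncurry fun (y : Fin n → E3) (x : E3) =>
      (starRingEnd ℂ) (w x a) * f (ins i x y) s) := by
  apply Continuous.mul
  · exact Complex.continuous_conj.comp ((hw.cont a).comp continuous_snd)
  · exact (hf.joint i s).comp (continuous_snd.prodMk continuous_fst)

theorem cc_term_int (i : Fin (n + 1)) (a : Fin 2) (s : Fin (n + 1) → Fin 2) (y : Fin n → E3) :
    Integrable fun x => (starRingEnd ℂ) (w x a) * f (ins i x y) s := by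
  have h1 : Continuous fun x => (starRingEnd ℂ) (w x a) * f (ins i x y) s :=
    (cc_joint hw hf i a s).comp (continuous_const.prodMk continuous_id)
  apply h1.integrable_of_hasCompactSupport
  have h2 : HasCompactSupport fun x => (starRingEnd ℂ) (w x a) :=
    (hw.supp a).comp_left (g := (starRingEnd ℂ)) (map_zero _)
  exact h2.mul_right

theorem cc_eq (i : Fin (n + 1)) (y : Fin n → E3) (τ : Fin n → Fin 2) :
    cc w i f y τ = ∑ a, ∫ x, (starRingEnd ℂ) (w x a) * f (ins i x y) (ins i a τ) := by
  unfold cc
  rw [integral_finsetSum _ fun a _ => cc_term_int hw hf i a _ y]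

theorem cct_cc (i : Fin (n + 1)) (a : Fin 2) (s : Fin (n + 1) → Fin 2) :
    Continuous (fun y : Fin n → E3 => ∫ x, (starRingEnd ℂ) (w x a) * f (ins i x y) s) ∧
    HasCompactSupport (fun y : Fin n → E3 => ∫ x, (starRingEnd ℂ) (w x a) * f (ins i x y) s) := by
  constructor
  · apply param_cont (cc_joint hw hf i a s) (hw.supp a).isCompact
    intro y x hx
    rw [image_eq_zero_of_notMem_tsupport (f := fun x => w x a) hx]
    simp
  · obtain ⟨K, hK, hKs⟩ := supp_ins2 i (hf.supp s)
    apply HasCompactSupport.intro hK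
    intro y hy
    simp [hKs y hy]

theorem cc_cc (i : Fin (n + 1)) : Cc (cc w i f) := by
  refine ⟨fun τ => ?_, fun τ => ?_⟩
  · simp_rw [cc_eq hw hf]
    exact continuous_finsetSum _ fun a _ => (cct_cc hw hf i a _).1
  · simp_rw [cc_eq hw hf]
    have h1 : ∀ a, (fun y : Fin n → E3 => ∫ x, (starRingEnd ℂ) (w x a) *
        f (ins i x y) (ins i a τ)) =ᶠ[Filter.coclosedCompact (Fin n → E3)] 0 := fun a =>
      hasCompactSupport_iff_eventuallyEq.1 (cct_cc hw hf i a _).2
    rw [hasCompactSupport_iff_eventuallyEq]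
    have h2 : ∀ᶠ y in Filter.coclosedCompact (Fin n → E3), ∀ a, ∫ x, (starRingEnd ℂ) (w x a) *
        f (ins i x y) (ins i a τ) = 0 := by
      rw [Filter.eventually_all]; intro a
      exact h1 a
    filter_upwards [h2] with y hy
    simp [hy]

theorem PP_cc (i : Fin (n + 1)) : Cc (PP w i f) := by
  have hc := cc_cc hw hf i
  refine ⟨fun s => ?_, fun s => ?_⟩
  · unfold PP
    exact ((hw.cont (s i)).comp (continuous_apply i)).mul
      ((hc.cont (rem i s)).comp (continuous_rem i))
  · have hK : IsCompact ((fun p : E3 × (Fin n → E3) => ins i p.1 p.2) ''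
        (tsupport (fun x => w x (s i)) ×ˢ tsupport (fun y => cc w i f y (rem i s)))) :=
      ((hw.supp (s i)).isCompact.prod (hc.supp (rem i s)).isCompact).image (continuous_ins i)
    apply HasCompactSupport.intro hK
    intro X hX
    unfold PP
    by_contra hne
    apply hX
    have h1 : w (X i) (s i) ≠ 0 := left_ne_zero_of_mul hne
    have h2 : cc w i f (rem i X) (rem i s) ≠ 0 := right_ne_zero_of_mul hne
    refine ⟨(X i, rem i X), ⟨?_, ?_⟩, ins_rem i X⟩
    · exact subset_tsupport (fun x => w x (s i)) h1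
    · exact subset_tsupport (fun y => cc w i f y (rem i s)) h2

end

/-- inner product of many-body functions -/
noncomputable def ip {N : ℕ} (f g : Wf N) : ℂ := ∫ X, ∑ s, (starRingEnd ℂ) (f X s) * g X s

theorem ip_term_int {N : ℕ} {f g : Wf N} (hf : Cc f) (hg : Cc g) (s : Fin N → Fin 2) :
    Integrable fun X => (starRingEnd ℂ) (f X s) * g X s :=
  ((Complex.continuous_conj.comp (hf.cont s)).mul (hg.cont s)).integrable_of_hasCompactSupport
    (hg.supp s).mul_left

theorem ip_PP {n : ℕ} {w : Sp} (hw : Cw w) {f g : Wf (n + 1)} (hf : Cc f) (hg : Cc g)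
    (i : Fin (n + 1)) : ip f (PP w i g) = ip (cc w i f) (cc w i g) := by
  have hP := PP_cc hw hg i
  have hcf := cc_cc hw hf i
  have hcg := cc_cc hw hg i
  unfold ip
  rw [integral_finsetSum _ fun s _ => ip_term_int hf hP s,
    integral_finsetSum _ fun s _ => ip_term_int hcf hcg s, sum_ins i, Finset.sum_comm]
  refine Finset.sum_congr rfl fun τ _ => ?_
  have h1 : ∀ a, ∫ X, (starRingEnd ℂ) (f X (ins i a τ)) * PP w i g X (ins i a τ) =
      ∫ y, (starRingEnd ℂ) (∫ x, (starRingEnd ℂ) (w x a) * f (ins i x y) (ins i a τ)) *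
        cc w i g y τ := by
    intro a
    rw [int_ins' i (g := fun X => (starRingEnd ℂ) (f X (ins i a τ)) * PP w i g X (ins i a τ))
      ((Complex.continuous_conj.comp (hf.cont _)).mul (hP.cont _)) (hP.supp _).mul_left]
    refine integral_congr_ae (Filter.Eventually.of_forall fun y => ?_)
    simp only [PP_ins]
    rw [← integral_conj, ← integral_mul_const]
    refine integral_congr_ae (Filter.Eventually.of_forall fun x => ?_)
    simp only [map_mul, Complex.conj_conj]
    ring
  simp_rw [h1]
  rw [← integral_finsetSum]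
  · refine integral_congr_ae (Filter.Eventually.of_forall fun y => ?_)
    simp only
    rw [← Finset.sum_mul, ← map_sum, ← cc_eq hw hf]
  · intro a _
    have hq := cct_cc hw hf i a (ins i a τ)
    exact ((Complex.continuous_conj.comp hq.1).mul (hcg.cont τ)).integrable_of_hasCompactSupport
      (hcg.supp τ).mul_left

end Pool.Agent.H9R2.MA
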