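import Pool.Agent.H9R2.MA.NB7

set_option autoImplicit false
open MeasureTheory
open scoped ENNReal Topology

namespace Pool.Agent.H9R2.MA

/-- squared norm of a spinor -/
noncomputable def nw (w : Sp) : ℝ := ∫ x, MA.sq w x

theorem Cw.sq_int {w : Sp} (hw : Cw w) : Integrable (MA.sq w) := by
  unfold MA.sq
  exact integrable_finsetSum _ fun a _ => sqnorm_int (hw.cont a) (hw.supp a)

/-- antisymmetry -/
def Anti {N : ℕ} (ψ : Wf N) : Prop :=
  ∀ (σ : Equiv.Perm (Fin N)) (x : Fin N → E3) (s : Fin N → Fin 2),
    ψ (x ∘ σ) (s ∘ σ) = ((Equiv.Perm.sign σ : ℤ) : ℂ) * ψ x s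

section

variable {n : ℕ}

theorem cc_PP_same {w : Sp} (hw : Cw w) {f : Wf (n + 1)} (i : Fin (n + 1))
    (y : Fin n → E3) (τ : Fin n → Fin 2) :
    cc w i (PP w i f) y τ = (nw w : ℂ) * cc w i f y τ := by
  have h1 : cc w i (PP w i f) y τ = ∫ x, ((MA.sq w x : ℝ) : ℂ) * cc w i f y τ := by
    rw [cc]
    refine integral_congr_ae (Filter.Eventually.of_forall fun x => ?_)
    simp only [PP_ins, MA.sq]
    rw [Complex.ofReal_sum, Finset.sum_mul]
    refine Finset.sum_congr rfl fun a _ => ?_
    rw [← mul_assoc, ← Complex.normSq_eq_conj_mul_self, Complex.normSq_eq_norm_sq]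
  rw [h1, integral_mul_const, integral_complex_ofReal]
  rfl

theorem swap_update {α : Type*} (i j : Fin (n + 1)) (hij : i ≠ j) (x x' : α) (y : Fin n → α) :
    (Function.update (ins j x y) i x') ∘ (Equiv.swap i j) = Function.update (ins j x' y) i x := by
  funext k
  rw [Function.comp_apply]
  rcases eq_or_ne k i with rfl | hki
  · rw [Equiv.swap_apply_left, Function.update_of_ne hij.symm, ins_same, Function.update_self]
  · rcases eq_or_ne k j with rfl | hkj
    · rw [Equiv.swap_apply_right, Function.update_self, Function.update_of_ne hki, ins_same]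
    · rw [Equiv.swap_apply_of_ne_of_ne hki hkj, Function.update_of_ne hki, Function.update_of_ne hki]
      obtain ⟨m, rfl⟩ := Fin.exists_succAbove_eq hkj
      rw [ins_succ, ins_succ]

theorem cc_PP_ne {w : Sp} (hw : Cw w) {f : Wf (n + 1)} (hf : Cc f) (ha : Anti f)
    {i j : Fin (n + 1)} (hij : i ≠ j) (y : Fin n → E3) (τ : Fin n → Fin 2) :
    cc w j (PP w i f) y τ = 0 := by
  obtain ⟨k, rfl⟩ := Fin.exists_succAbove_eq hij
  set i := j.succAbove k with hi
  -- the kernel
  set h : E3 → E3 → ℂ := fun x x' => ∑ a, ∑ b, (starRingEnd ℂ) (w x a) * ((starRingEnd ℂ) (w x' b) *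
    f (Function.update (ins j x y) i x') (Function.update (ins j a τ) i b)) with hh
  have hanti : ∀ x x', h x' x = - h x x' := by
    intro x x'
    simp only [hh]
    rw [Finset.sum_comm, ← Finset.sum_neg_distrib]
    refine Finset.sum_congr rfl fun a _ => ?_
    rw [← Finset.sum_neg_distrib]
    refine Finset.sum_congr rfl fun b _ => ?_
    have h1 := ha (Equiv.swap i j) (Function.update (ins j x y) i x')
      (Function.update (ins j a τ) i b)
    rw [swap_update i j hij, swap_update i j hij, Equiv.Perm.sign_swap hij] at h1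
    rw [h1]
    push_cast
    ring
  have hterm : ∀ (a b : Fin 2), Continuous (Function.uncurry fun (x x' : E3) =>
      (starRingEnd ℂ) (w x a) * ((starRingEnd ℂ) (w x' b) *
      f (Function.update (ins j x y) i x') (Function.update (ins j a τ) i b))) := by
    intro a b
    apply Continuous.mul
    · exact Complex.continuous_conj.comp ((hw.cont a).comp continuous_fst)
    apply Continuous.mul
    · exact Complex.continuous_conj.comp ((hw.cont b).comp continuous_snd)
    · have h2 : Continuous fun p : E3 × E3 => Function.update (ins j p.1 y) i p.2 := by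
        apply Continuous.update
        · exact (continuous_ins j).comp (continuous_fst.prodMk continuous_const)
        · exact continuous_snd
      exact (hf.cont _).comp h2
  have hsupp : ∀ (a b : Fin 2), HasCompactSupport (Function.uncurry fun (x x' : E3) =>
      (starRingEnd ℂ) (w x a) * ((starRingEnd ℂ) (w x' b) *
      f (Function.update (ins j x y) i x') (Function.update (ins j a τ) i b))) := by
    intro a b
    apply HasCompactSupport.intro ((hw.supp a).isCompact.prod (hw.supp b).isCompact)
    rintro ⟨x, x'⟩ hx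
    by_contra hne
    apply hx
    have h1 : (starRingEnd ℂ) (w x a) ≠ 0 := left_ne_zero_of_mul hne
    have h2 : (starRingEnd ℂ) (w x' b) ≠ 0 := left_ne_zero_of_mul (right_ne_zero_of_mul hne)
    refine ⟨subset_tsupport (fun x => w x a) ?_, subset_tsupport (fun x => w x b) ?_⟩
    · simpa using h1
    · simpa using h2
  have hint : Integrable (Function.uncurry h) ((volume : Measure E3).prod (volume : Measure E3)) := by
    have : Function.uncurry h = fun p : E3 × E3 => ∑ a, ∑ b, (Function.uncurry fun (x x' : E3) =>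
      (starRingEnd ℂ) (w x a) * ((starRingEnd ℂ) (w x' b) *
      f (Function.update (ins j x y) i x') (Function.update (ins j a τ) i b))) p := rfl
    rw [this]
    exact integrable_finsetSum _ fun a _ => integrable_finsetSum _ fun b _ =>
      (hterm a b).integrable_of_hasCompactSupport (hsupp a b)
  have hI : ∫ x, ∫ x', h x x' = 0 := by
    have h1 : ∫ x, ∫ x', h x x' = ∫ x', ∫ x, h x x' := integral_integral_swap hint
    have h2 : ∫ x', ∫ x, h x x' = - ∫ x', ∫ x, h x' x := by
      rw [← integral_neg]
      refine integral_congr_ae (Filter.Eventually.of_forall fun x' => ?_)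
      simp only
      rw [← integral_neg]
      refine integral_congr_ae (Filter.Eventually.of_forall fun x => ?_)
      simp only
      rw [hanti x' x]
    rw [h2] at h1
    exact self_eq_neg.1 h1
  have hmain : cc w j (PP w i f) y τ = (w (y k) (τ k)) * ∫ x, ∫ x', h x x' := by
    rw [cc, ← integral_const_mul]
    refine integral_congr_ae (Filter.Eventually.of_forall fun x => ?_)
    simp only
    have h1 : ∫ x', h x x' = ∑ a, (starRingEnd ℂ) (w x a) * ∫ x', ∑ b, (starRingEnd ℂ) (w x' b) *
        f (Function.update (ins j x y) i x') (Function.update (ins j a τ) i b) := by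
      simp only [hh]
      have hslice : ∀ a b, Integrable fun x' => (starRingEnd ℂ) (w x a) * ((starRingEnd ℂ) (w x' b) *
          f (Function.update (ins j x y) i x') (Function.update (ins j a τ) i b)) := by
        intro a b
        have hc : Continuous fun x' => (starRingEnd ℂ) (w x a) * ((starRingEnd ℂ) (w x' b) *
          f (Function.update (ins j x y) i x') (Function.update (ins j a τ) i b)) :=
          (hterm a b).comp (continuous_const.prodMk continuous_id)
        apply hc.integrable_of_hasCompactSupport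
        apply HasCompactSupport.intro (hw.supp b).isCompact
        intro x' hx'
        rw [image_eq_zero_of_notMem_tsupport (f := fun x => w x b) hx']
        simp
      rw [integral_finsetSum _ fun a _ => integrable_finsetSum _ fun b _ => hslice a b]
      refine Finset.sum_congr rfl fun a _ => ?_
      rw [← integral_const_mul]
      refine integral_congr_ae (Filter.Eventually.of_forall fun x' => ?_)
      simp only
      rw [Finset.mul_sum]
    rw [h1, Finset.mul_sum]
    refine Finset.sum_congr rfl fun a _ => ?_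
    unfold PP
    rw [hi, ins_succ, ins_succ]
    unfold cc
    simp_rw [ins_rem_update]
    ring
  rw [hmain, hI, mul_zero]

theorem cc_sum {w : Sp} (hw : Cw w) {ι : Type*} (T : Finset ι) {F : ι → Wf (n + 1)}
    (hF : ∀ i, Cc (F i)) (j : Fin (n + 1)) (y : Fin n → E3) (τ : Fin n → Fin 2) :
    cc w j (fun X s => ∑ i ∈ T, F i X s) y τ = ∑ i ∈ T, cc w j (F i) y τ := by
  unfold cc
  rw [← integral_finsetSum _ fun i _ => integrable_finsetSum _ fun a _ =>
    cc_term_int hw (hF i) j a _ y]
  refine integral_congr_ae (Filter.Eventually.of_forall fun x => ?_)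
  simp only
  simp_rw [Finset.mul_sum]
  rw [Finset.sum_comm]

/-- The Pauli principle: occupation numbers are at most one. -/
theorem pauli_principle {w : Sp} (hw : Cw w) {f : Wf (n + 1)} (hf : Cc f) (ha : Anti f) :
    ∑ i, ∫ y, ∑ τ, ‖cc w i f y τ‖ ^ 2 ≤ nw w * ∫ X, ∑ s, ‖f X s‖ ^ 2 := by
  classical
  set g : Wf (n + 1) := fun X s => ∑ i, PP w i f X s with hg
  have hPc : ∀ i, Cc (PP w i f) := fun i => PP_cc hw hf i
  have hgc : Cc g := by
    refine ⟨fun s => continuous_finsetSum _ fun i _ => (hPc i).cont s, fun s => ?_⟩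
    have h1 : ∀ i, (fun X => PP w i f X s) =ᶠ[Filter.coclosedCompact (Fin (n + 1) → E3)] 0 :=
      fun i => hasCompactSupport_iff_eventuallyEq.1 ((hPc i).supp s)
    rw [hasCompactSupport_iff_eventuallyEq]
    have h2 : ∀ᶠ X in Filter.coclosedCompact (Fin (n + 1) → E3), ∀ i, PP w i f X s = 0 := by
      rw [Filter.eventually_all]; intro i
      exact h1 i
    filter_upwards [h2] with X hX
    simp [hg, hX]
  set F := ∫ X, ∑ s, ‖f X s‖ ^ 2 with hF
  set Q := ∑ i, ∫ y, ∑ τ, ‖cc w i f y τ‖ ^ 2 with hQ
  have hself : ∀ {m : ℕ} {u : Wf m}, ip u u = ((∫ X, ∑ s, ‖u X s‖ ^ 2 : ℝ) : ℂ) := by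
    intro m u
    unfold ip
    rw [← integral_complex_ofReal]
    refine integral_congr_ae (Filter.Eventually.of_forall fun X => ?_)
    simp only
    rw [Complex.ofReal_sum]
    refine Finset.sum_congr rfl fun s _ => ?_
    rw [← Complex.normSq_eq_conj_mul_self, Complex.normSq_eq_norm_sq]
  have hipsum : ∀ u : Wf (n + 1), Cc u → ip u g = ∑ i, ip u (PP w i f) := by
    intro u hu
    unfold ip
    rw [← integral_finsetSum _ fun i _ => integrable_finsetSum _ fun s _ =>
      ip_term_int hu (hPc i) s]
    refine integral_congr_ae (Filter.Eventually.of_forall fun X => ?_)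
    simp only [hg]
    simp_rw [Finset.mul_sum]
    rw [Finset.sum_comm]
  have hfg : ip f g = (Q : ℂ) := by
    rw [hipsum f hf, hQ, Complex.ofReal_sum]
    refine Finset.sum_congr rfl fun i _ => ?_
    rw [ip_PP hw hf hf, hself]
  have hcg : ∀ j, cc w j g = fun y τ => (nw w : ℂ) * cc w j f y τ := by
    intro j
    funext y τ
    rw [hg, cc_sum hw _ hPc]
    rw [Finset.sum_eq_single j]
    · exact cc_PP_same hw j y τ
    · intro i _ hij
      exact cc_PP_ne hw hf ha hij y τ
    · intro h; exact absurd (Finset.mem_univ j) h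
  have hgg : ip g g = ((nw w * Q : ℝ) : ℂ) := by
    rw [hipsum g hgc, Complex.ofReal_mul, hQ, Complex.ofReal_sum, Finset.mul_sum]
    refine Finset.sum_congr rfl fun i _ => ?_
    rw [ip_PP hw hgc hf, hcg i, ← hself]
    unfold ip
    rw [← integral_const_mul]
    refine integral_congr_ae (Filter.Eventually.of_forall fun y => ?_)
    simp only
    rw [Finset.mul_sum]
    refine Finset.sum_congr rfl fun τ _ => ?_
    rw [map_mul, Complex.conj_ofReal]
    ring
  have hGint : ∫ X, ∑ s, ‖g X s‖ ^ 2 = nw w * Q := by
    have := hself (u := g)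
    rw [hgg] at this
    exact_mod_cast this.symm
  have hfgint : ∀ s, Integrable fun X => (starRingEnd ℂ) (f X s) * g X s := fun s =>
    ip_term_int hf hgc s
  have hre : ∫ X, ∑ s, ((starRingEnd ℂ) (f X s) * g X s).re = Q := by
    have h1 : ∫ X, ∑ s, ((starRingEnd ℂ) (f X s) * g X s).re =
        (∫ X, ∑ s, (starRingEnd ℂ) (f X s) * g X s).re := by
      have h2 := integral_re (𝕜 := ℂ) (f := fun X => ∑ s, (starRingEnd ℂ) (f X s) * g X s)
        (μ := volume) (integrable_finsetSum _ fun s _ => hfgint s)
      have h3 : ∀ X, ∑ s, ((starRingEnd ℂ) (f X s) * g X s).re =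
          RCLike.re (∑ s, (starRingEnd ℂ) (f X s) * g X s) := by
        intro X
        rw [map_sum]
        rfl
      simp_rw [h3]
      exact h2
    rw [h1]
    have h4 : ∫ X, ∑ s, (starRingEnd ℂ) (f X s) * g X s = (Q : ℂ) := hfg
    rw [h4]
    simp
  have key : ∀ l : ℝ, 0 ≤ F - 2 * l * Q + l ^ 2 * (nw w * Q) := by
    intro l
    have h1 : 0 ≤ ∫ X, ∑ s, ‖f X s - (l : ℂ) * g X s‖ ^ 2 :=
      integral_nonneg fun X => Finset.sum_nonneg fun s _ => by positivity
    have h2 : ∀ X, ∑ s, ‖f X s - (l : ℂ) * g X s‖ ^ 2 =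
        ((∑ s, ‖f X s‖ ^ 2) - 2 * l * ∑ s, ((starRingEnd ℂ) (f X s) * g X s).re) +
          l ^ 2 * ∑ s, ‖g X s‖ ^ 2 := by
      intro X
      rw [Finset.mul_sum, Finset.mul_sum, ← Finset.sum_sub_distrib, ← Finset.sum_add_distrib]
      refine Finset.sum_congr rfl fun s _ => ?_
      simp only [← Complex.normSq_eq_norm_sq, Complex.normSq_apply, Complex.sub_re, Complex.sub_im,
        Complex.mul_re, Complex.mul_im, Complex.ofReal_re, Complex.ofReal_im, Complex.conj_re,
        Complex.conj_im]
      ring
    have i1 : Integrable fun X => ∑ s, ‖f X s‖ ^ 2 :=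
      integrable_finsetSum _ fun s _ => sqnorm_int (hf.cont s) (hf.supp s)
    have i2 : Integrable fun X => ∑ s, ‖g X s‖ ^ 2 :=
      integrable_finsetSum _ fun s _ => sqnorm_int (hgc.cont s) (hgc.supp s)
    have i3 : Integrable fun X => ∑ s, ((starRingEnd ℂ) (f X s) * g X s).re :=
      integrable_finsetSum _ fun s _ => (hfgint s).re
    have i4 : Integrable fun X => (∑ s, ‖f X s‖ ^ 2) -
        2 * l * ∑ s, ((starRingEnd ℂ) (f X s) * g X s).re := i1.sub (i3.const_mul _)
    simp_rw [h2] at h1
    rw [integral_add i4 (i2.const_mul _), integral_sub i1 (i3.const_mul _), integral_const_mul,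
      integral_const_mul, hre, hGint] at h1
    exact h1
  have hQ0 : 0 ≤ Q := Finset.sum_nonneg fun i _ => integral_nonneg fun y =>
    Finset.sum_nonneg fun τ _ => by positivity
  have hF0 : 0 ≤ F := integral_nonneg fun y => Finset.sum_nonneg fun τ _ => by positivity
  have hn0 : 0 ≤ nw w := integral_nonneg (sq_nonneg' w)
  rcases eq_or_lt_of_le hn0 with hn | hn
  · rw [← hn, zero_mul]
    by_contra hcon
    push Not at hcon
    have := key ((F + 1) / (2 * Q))
    rw [← hn] at this
    have h2 : 2 * ((F + 1) / (2 * Q)) * Q = F + 1 := by field_simp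
    rw [h2] at this
    linarith
  · have := key (1 / nw w)
    have h2 : (1 / nw w) ^ 2 * (nw w * Q) = Q / nw w := by field_simp
    have h3 : 2 * (1 / nw w) * Q = 2 * (Q / nw w) := by ring
    rw [h2, h3] at this
    have h4 : Q / nw w ≤ F := by linarith
    rw [div_le_iff₀ hn] at h4
    linarith

end

end Pool.Agent.H9R2.MA
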