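import Pool.Agent.H9R2.MA.NB8

set_option autoImplicit false
open MeasureTheory
open scoped ENNReal Topology

namespace Pool.Agent.H9R2.MA

section

variable {n : ℕ}

theorem ip_um {w : Sp} (hw : Cw w) {ψ : Wf (n + 1)} (h : Cc ψ) (i : Fin (n + 1))
    (τ : Fin n → Fin 2) (S : Set (Fin n → E3)) :
    ∫ x, ∑ a, (starRingEnd ℂ) (w x a) * um ψ i τ S x a =
      (((√(volume.real S))⁻¹ : ℝ) : ℂ) * ∫ y in S, cc w i ψ y τ := by
  set c : ℂ := (((√(volume.real S))⁻¹ : ℝ) : ℂ) with hc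
  have hcont : Continuous (Function.uncurry fun (x : E3) (y : Fin n → E3) =>
      ∑ a, (starRingEnd ℂ) (w x a) * ψ (ins i x y) (ins i a τ)) := by
    apply continuous_finsetSum
    intro a _
    exact (Complex.continuous_conj.comp ((hw.cont a).comp continuous_fst)).mul (h.joint i _)
  have hterm : ∀ a, HasCompactSupport (Function.uncurry fun (x : E3) (y : Fin n → E3) =>
      (starRingEnd ℂ) (w x a) * ψ (ins i x y) (ins i a τ)) := fun a =>
    (h.joint_supp i (ins i a τ)).mul_left (f := fun p : E3 × (Fin n → E3) =>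
      (starRingEnd ℂ) (w p.1 a))
  have hsupp : HasCompactSupport (Function.uncurry fun (x : E3) (y : Fin n → E3) =>
      ∑ a, (starRingEnd ℂ) (w x a) * ψ (ins i x y) (ins i a τ)) := by
    have h1 := fun a => hasCompactSupport_iff_eventuallyEq.1 (hterm a)
    rw [hasCompactSupport_iff_eventuallyEq]
    have h2 := Filter.eventually_all.2 h1
    filter_upwards [h2] with p hp
    exact Finset.sum_eq_zero fun a _ => hp a
  have hswap : ∫ x, ∫ y in S, ∑ a, (starRingEnd ℂ) (w x a) * ψ (ins i x y) (ins i a τ) =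
      ∫ y in S, ∫ x, ∑ a, (starRingEnd ℂ) (w x a) * ψ (ins i x y) (ins i a τ) := by
    apply integral_integral_swap
    exact hcont.integrable_of_hasCompactSupport hsupp
  have e2 : ∫ y in S, cc w i ψ y τ =
      ∫ y in S, ∫ x, ∑ a, (starRingEnd ℂ) (w x a) * ψ (ins i x y) (ins i a τ) := rfl
  rw [e2, ← hswap, ← integral_const_mul]
  refine integral_congr_ae (Filter.Eventually.of_forall fun x => ?_)
  simp only
  rw [integral_finsetSum _ fun a _ => ((joint_int h i _ x).const_mul _).integrableOn,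
    Finset.mul_sum]
  refine Finset.sum_congr rfl fun a _ => ?_
  rw [integral_const_mul]
  unfold um
  ring

/-- index set of the averaged family -/
abbrev Ix (n M : ℕ) := Fin (n + 1) × (Fin n → Fin 2) × Fin M

/-- the averaged family -/
noncomputable def fam {n M : ℕ} (ψ : Wf (n + 1)) (S : Fin M → Set (Fin n → E3)) : Ix n M → Sp :=
  fun m => um ψ m.1 m.2.1 (S m.2.2)

theorem mass_bound {M : ℕ} {ψ : Wf (n + 1)} (h : Sm ψ) (ha : Anti ψ)
    (hnorm : ∫ X, ∑ s, ‖ψ X s‖ ^ 2 = 1)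
    {S : Fin M → Set (Fin n → E3)} (hS : ∀ j, MeasurableSet (S j))
    (hfin : ∀ j, volume (S j) ≠ ∞) (hd : Pairwise (Function.onFun Disjoint S))
    (α : Ix n M → ℂ) : ∫ x, MA.sq (comb (fam ψ S) α) x ≤ ∑ m, ‖α m‖ ^ 2 := by
  classical
  have hG : ∀ m, Good (fam ψ S m) := fun m => good_um h m.1 m.2.1 (hS m.2.2)
  set w := comb (fam ψ S) α with hwdef
  have hwG : Good w := Good.comb hG α
  have hw := hwG.cw
  set c : Ix n M → ℂ := fun m => ∫ x, ∑ a, (starRingEnd ℂ) (w x a) * fam ψ S m x a with hc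
  have hint : ∀ m, Integrable fun x => ∑ a, (starRingEnd ℂ) (w x a) * fam ψ S m x a := fun m =>
    integrable_finsetSum _ fun a _ =>
      ((Complex.continuous_conj.comp (hw.cont a)).mul
        ((hG m).smooth a).continuous).integrable_of_hasCompactSupport ((hG m).supp a).mul_left
  have h1 : ((nw w : ℝ) : ℂ) = ∑ m, α m * c m := by
    have h2 : ∑ m, α m * c m = ∫ x, ∑ m, α m * ∑ a, (starRingEnd ℂ) (w x a) * fam ψ S m x a := by
      rw [integral_finsetSum _ fun m _ => (hint m).const_mul _]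
      refine Finset.sum_congr rfl fun m _ => ?_
      rw [integral_const_mul]
    rw [h2, nw, ← integral_complex_ofReal]
    refine integral_congr_ae (Filter.Eventually.of_forall fun x => ?_)
    simp only [MA.sq]
    rw [Complex.ofReal_sum]
    simp_rw [Finset.mul_sum]
    rw [Finset.sum_comm]
    refine Finset.sum_congr rfl fun a _ => ?_
    have h3 : ((‖w x a‖ ^ 2 : ℝ) : ℂ) = (starRingEnd ℂ) (w x a) * w x a := by
      rw [← Complex.normSq_eq_conj_mul_self, Complex.normSq_eq_norm_sq]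
    rw [h3]
    have h4 : w x a = ∑ m, α m * fam ψ S m x a := rfl
    have h5 : ∀ v : ℂ, v * w x a = ∑ m, α m * (v * fam ψ S m x a) := by
      intro v
      rw [h4, Finset.mul_sum]
      refine Finset.sum_congr rfl fun m _ => ?_
      ring
    exact h5 _
  have hn0 : 0 ≤ nw w := integral_nonneg (sq_nonneg' w)
  have hcc : ∀ i, Cc (cc w i ψ) := fun i => cc_cc hw h.cc i
  have h5 : ∑ m, ‖c m‖ ^ 2 ≤ nw w := by
    have h6 : ∀ m : Ix n M, ‖c m‖ ^ 2 ≤ ∫ y in S m.2.2, ‖cc w m.1 ψ y m.2.1‖ ^ 2 := by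
      intro m
      have : c m = (((√(volume.real (S m.2.2)))⁻¹ : ℝ) : ℂ) * ∫ y in S m.2.2, cc w m.1 ψ y m.2.1 :=
        ip_um hw h.cc m.1 m.2.1 (S m.2.2)
      rw [this]
      exact avg_cs (hfin _)
        (((hcc m.1).cont m.2.1).integrable_of_hasCompactSupport ((hcc m.1).supp m.2.1)).integrableOn
        (sqnorm_int ((hcc m.1).cont m.2.1) ((hcc m.1).supp m.2.1)).integrableOn
    calc ∑ m, ‖c m‖ ^ 2 ≤ ∑ m : Ix n M, ∫ y in S m.2.2, ‖cc w m.1 ψ y m.2.1‖ ^ 2 :=
          Finset.sum_le_sum fun m _ => h6 m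
      _ = ∑ i, ∑ τ, ∑ j, ∫ y in S j, ‖cc w i ψ y τ‖ ^ 2 := by
          rw [Fintype.sum_prod_type]
          refine Finset.sum_congr rfl fun i _ => ?_
          rw [Fintype.sum_prod_type]
      _ ≤ ∑ i, ∑ τ, ∫ y, ‖cc w i ψ y τ‖ ^ 2 :=
          Finset.sum_le_sum fun i _ => Finset.sum_le_sum fun τ _ =>
            cells_le (sqnorm_int ((hcc i).cont τ) ((hcc i).supp τ)) (fun y => by positivity) hS hd
      _ = ∑ i, ∫ y, ∑ τ, ‖cc w i ψ y τ‖ ^ 2 := by
          refine Finset.sum_congr rfl fun i _ => ?_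
          rw [integral_finsetSum _ fun τ _ => sqnorm_int ((hcc i).cont τ) ((hcc i).supp τ)]
      _ ≤ nw w * ∫ X, ∑ s, ‖ψ X s‖ ^ 2 := pauli_principle hw h.cc ha
      _ = nw w := by rw [hnorm, mul_one]
  have h7 : nw w ≤ √(∑ m, ‖α m‖ ^ 2) * √(∑ m, ‖c m‖ ^ 2) := by
    calc nw w = ‖((nw w : ℝ) : ℂ)‖ := by
          rw [Complex.norm_real, Real.norm_eq_abs, abs_of_nonneg hn0]
      _ = ‖∑ m, α m * c m‖ := by rw [h1]
      _ ≤ ∑ m, ‖α m‖ * ‖c m‖ := (norm_sum_le _ _).trans (le_of_eq (by simp_rw [norm_mul]))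
      _ ≤ _ := Real.sum_mul_le_sqrt_mul_sqrt _ _ _
  have hS0 : 0 ≤ ∑ m, ‖α m‖ ^ 2 := Finset.sum_nonneg fun m _ => by positivity
  have h8 : nw w ≤ √(∑ m, ‖α m‖ ^ 2) * √(nw w) :=
    h7.trans (mul_le_mul_of_nonneg_left (Real.sqrt_le_sqrt h5) (Real.sqrt_nonneg _))
  change nw w ≤ _
  rcases eq_or_lt_of_le hn0 with hn | hn
  · rw [← hn]; exact hS0
  · have h9 : 0 < √(nw w) := Real.sqrt_pos.2 hn
    have h10 : √(nw w) * √(nw w) ≤ √(∑ m, ‖α m‖ ^ 2) * √(nw w) := by
      rw [Real.mul_self_sqrt hn0]; exact h8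
    have h11 : √(nw w) ≤ √(∑ m, ‖α m‖ ^ 2) := le_of_mul_le_mul_right h10 h9
    exact (Real.sqrt_le_sqrt_iff hS0).1 h11

end

end Pool.Agent.H9R2.MA
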