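import Pool.Agent.H9R2.MA.Dyadic
import Pool.Agent.H9R2.MA.Idx

set_option autoImplicit false
open MeasureTheory
open scoped ENNReal

namespace Pool.Agent.H9R2.MA

open Matrix

theorem diracSq_nonneg (A : E3 → E3) (u : Sp) (x : E3) : 0 ≤ diracSq A u x :=
  Finset.sum_nonneg fun _ _ => by positivity

theorem step_pos {A : E3 → E3} (hA : ContDiff ℝ 1 A) {w : Sp} (hw : Good w) {z μ : ℝ}
    (hz : 0 < z) (hμ : 36 * z ^ 2 ≤ μ)
    (hG : 0 ≤ (3 / 4) * (∫ x, covSq A w x) - (∫ x, √(Bsq A x) * MA.sq w x) +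
      (μ ^ 2 / (48 * z ^ 2)) * ∫ x, MA.sq w x) :
    0 ≤ (∫ x, diracSq A w x) - z * (∫ x, MA.sq w x / ‖x‖) + μ * ∫ x, MA.sq w x := by
  have h1 := pauli_ineq hA hw
  have h2 := coulomb hA.continuous hw
  have hD : 0 ≤ ∫ x, diracSq A w x := integral_nonneg (diracSq_nonneg A w)
  have hK : 0 ≤ ∫ x, covSq A w x := integral_nonneg (covSq_nonneg A w)
  have hm : 0 ≤ ∫ x, MA.sq w x := integral_nonneg (sq_nonneg' w)
  set K := ∫ x, covSq A w x
  set X := ∫ x, √(Bsq A x) * MA.sq w x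
  set m := ∫ x, MA.sq w x
  set D := ∫ x, diracSq A w x
  set P := ∫ x, MA.sq w x / ‖x‖
  set a := √K with ha
  set b := √m with hb
  have ha2 : a ^ 2 = K := Real.sq_sqrt hK
  have hb2 : b ^ 2 = m := Real.sq_sqrt hm
  have ha0 : 0 ≤ a := Real.sqrt_nonneg _
  have hb0 : 0 ≤ b := Real.sqrt_nonneg _
  have hz2 : 0 < z ^ 2 := by positivity
  have hμ0 : 0 < μ := by linarith
  set κ := 36 * z ^ 2 / μ with hκ
  have hκ0 : 0 < κ := by positivity
  have hκ1 : κ ≤ 1 := by rw [hκ, div_le_one hμ0]; exact hμ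
  have hκμ : κ * μ = 36 * z ^ 2 := by rw [hκ]; field_simp
  have h3 : κ * (K - X) ≤ D := by
    calc κ * (K - X) ≤ κ * D := mul_le_mul_of_nonneg_left h1 hκ0.le
      _ ≤ 1 * D := mul_le_mul_of_nonneg_right hκ1 hD
      _ = D := one_mul D
  have h4 : z * P ≤ (κ / 4) * K + (μ / 4) * m := by
    have h5 : z * P ≤ z * (3 * (b * a)) := mul_le_mul_of_nonneg_left h2 hz.le
    have h6 : 0 ≤ (κ * a ^ 2 + μ * b ^ 2 - 12 * z * (a * b)) := by
      have : 0 ≤ μ * (κ * a ^ 2 + μ * b ^ 2 - 12 * z * (a * b)) := by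
        have e : μ * (κ * a ^ 2 + μ * b ^ 2 - 12 * z * (a * b)) = (6 * z * a - μ * b) ^ 2 := by
          have : μ * (κ * a ^ 2 + μ * b ^ 2 - 12 * z * (a * b)) = (κ * μ) * a ^ 2 + μ ^ 2 * b ^ 2 -
            12 * z * μ * (a * b) := by ring
          rw [this, hκμ]; ring
        rw [e]; positivity
      exact nonneg_of_mul_nonneg_right this hμ0
    rw [← ha2, ← hb2]
    nlinarith
  have h7 : κ * ((3 / 4) * K - X + (μ ^ 2 / (48 * z ^ 2)) * m) =
      κ * (3 / 4) * K - κ * X + (3 / 4) * μ * m := by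
    have : κ * (μ ^ 2 / (48 * z ^ 2)) = (3 / 4) * μ := by
      rw [hκ]; field_simp; norm_num
    rw [mul_add, mul_sub, ← mul_assoc κ (μ ^ 2 / (48 * z ^ 2)) m, this]
    ring
  have h8 := mul_nonneg hκ0.le hG
  rw [h7] at h8
  nlinarith

/-- the recursion property of the selected cubes -/
def TreeProp (A : E3 → E3) (F : List ((Fin 3 → ℝ) × ℝ)) (c : Fin 3 → ℝ) (l : ℝ) : Prop :=
  ∀ (Pos Cond : (Fin 3 → ℝ) → ℝ → Prop),
        (∀ c l, 0 < l → (∀ b, Pos (sub c l b) (l / 2)) → Pos c l) →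
        (∀ c l, 0 < l → l * ∫ x in box c l, Bsq A x ≤ (1 / 40000) ^ 2 → Cond c l → Pos c l) →
        (∀ q ∈ F, Cond q.1 q.2) → Cond c l → Pos c l

theorem total_pos {A : E3 → E3} (hA : ContDiff ℝ 1 A) {w : Sp} (hw : Good w) {z μ : ℝ}
    (hz : 0 < z) (hμ : 36 * z ^ 2 ≤ μ) {F : List ((Fin 3 → ℝ) × ℝ)} {c : Fin 3 → ℝ} {l : ℝ}
    (hF : TreeProp A F c l) (hl : z / (20 * μ) ≤ l)
    (hs1 : ∀ x, x ∉ box c l → MA.sq w x = 0) (hs2 : ∀ x, x ∉ box c l → covSq A w x = 0)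
    (hc : ∀ q ∈ F, q.2 < z / (20 * μ) → 0 ≤ (∫ x in box q.1 q.2, covSq A w x) +
      (-((1 / 10000) * (q.2⁻¹) ^ 2)) * ∫ x in box q.1 q.2, MA.sq w x) :
    0 ≤ (∫ x, diracSq A w x) - z * (∫ x, MA.sq w x / ‖x‖) + μ * ∫ x, MA.sq w x := by
  apply step_pos hA hw hz hμ
  have hz2 : 0 < z ^ 2 := by positivity
  have hμ0 : 0 < μ := by linarith
  have hUc := (contDiff_sq hw.smooth).continuous
  have hKc := continuous_covSq hA.continuous hw.smooth
  have hXc : Continuous fun x => √(Bsq A x) * MA.sq w x := (continuous_Bsq hA).sqrt.mul hUc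
  have hmain := hF
    (fun c l => 0 ≤ (3 / 4) * (∫ x in box c l, covSq A w x) -
      (∫ x in box c l, √(Bsq A x) * MA.sq w x) +
      (μ ^ 2 / (48 * z ^ 2)) * ∫ x in box c l, MA.sq w x)
    (fun c l => z / (20 * μ) ≤ l ∨ 0 ≤ (∫ x in box c l, covSq A w x) +
      (-((1 / 10000) * (l⁻¹) ^ 2)) * ∫ x in box c l, MA.sq w x)
  have hPos := hmain ?_ ?_ ?_ (Or.inl hl)
  · have e1 : ∫ x in box c l, covSq A w x = ∫ x, covSq A w x :=
      setIntegral_eq_integral_of_forall_compl_eq_zero hs2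
    have e2 : ∫ x in box c l, MA.sq w x = ∫ x, MA.sq w x :=
      setIntegral_eq_integral_of_forall_compl_eq_zero hs1
    have e3 : ∫ x in box c l, √(Bsq A x) * MA.sq w x = ∫ x, √(Bsq A x) * MA.sq w x :=
      setIntegral_eq_integral_of_forall_compl_eq_zero fun x hx => by rw [hs1 x hx, mul_zero]
    rw [e1, e2, e3] at hPos
    exact hPos
  · intro c l hl hb
    rw [int_split hKc c l hl, int_split hXc c l hl, int_split hUc c l hl, Finset.mul_sum,
      Finset.mul_sum, ← Finset.sum_sub_distrib, ← Finset.sum_add_distrib]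
    exact Finset.sum_nonneg fun b _ => hb b
  · intro c l hl hB hcond
    have h1 := light hA hw.smooth c l hl hB
    have hK0 : 0 ≤ ∫ x in box c l, covSq A w x := integral_nonneg (covSq_nonneg A w)
    have hm0 : 0 ≤ ∫ x in box c l, MA.sq w x := integral_nonneg (sq_nonneg' w)
    set K := ∫ x in box c l, covSq A w x
    set m := ∫ x in box c l, MA.sq w x
    have hp : 0 ≤ (μ ^ 2 / (48 * z ^ 2)) * m := by positivity
    rcases hcond with hc | hc
    · have h2 : (1 / 20000) * (l⁻¹) ^ 2 ≤ μ ^ 2 / (48 * z ^ 2) := by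
        have h3 : l⁻¹ ≤ 20 * μ / z := by
          rw [← inv_div]
          exact inv_anti₀ (by positivity) hc
        calc (1 / 20000) * (l⁻¹) ^ 2 ≤ (1 / 20000) * (20 * μ / z) ^ 2 := by
              apply mul_le_mul_of_nonneg_left _ (by norm_num)
              exact pow_le_pow_left₀ (by positivity) h3 2
          _ ≤ μ ^ 2 / (48 * z ^ 2) := by
              rw [div_pow, ← mul_div_assoc, div_le_div_iff₀ (by positivity) (by positivity)]
              have : 0 ≤ μ ^ 2 * z ^ 2 := by positivity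
              nlinarith
      have h4 := mul_le_mul_of_nonneg_right h2 hm0
      linarith
    · linarith
  · intro q hq
    by_cases hql : q.2 < z / (20 * μ)
    · exact Or.inr (hc q hq hql)
    · push Not at hql
      exact Or.inl hql

end Pool.Agent.H9R2.MA
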