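import Pool.Agent.H9R2.MA.OneBody

set_option autoImplicit false
open MeasureTheory
open scoped ENNReal

namespace Pool.Agent.H9R2.MA

open Matrix

section

variable {ι : Type*} [Fintype ι]

theorem Good.comb {u : ι → Sp} (hu : ∀ m, Good (u m)) (α : ι → ℂ) : Good (comb u α) := by
  refine ⟨comb_smooth (fun m a => (hu m).smooth a) α, fun a => ?_⟩
  unfold MA.comb
  have h : ∀ m, (fun x => u m x a) =ᶠ[Filter.coclosedCompact E3] 0 := fun m =>
    hasCompactSupport_iff_eventuallyEq.1 ((hu m).supp a)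
  rw [hasCompactSupport_iff_eventuallyEq]
  have h2 : ∀ᶠ x in Filter.coclosedCompact E3, ∀ m, u m x a = 0 := by
    rw [Filter.eventually_all]; intro m
    exact h m
  filter_upwards [h2] with x hx
  simp [hx]

/-- Dirac form -/
noncomputable def gDir (A : E3 → E3) (u : ι → Sp) : Matrix ι ι ℂ :=
  gram volume (fun m x s => dirac A (u m) x s)

/-- Coulomb form -/
noncomputable def gCou (u : ι → Sp) : Matrix ι ι ℂ :=
  gram volume (fun m x s => (((√‖x‖)⁻¹ : ℝ) : ℂ) * u m x s)

/-- total mass form -/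
noncomputable def gTot (u : ι → Sp) : Matrix ι ι ℂ := gram volume u

theorem continuous_dirac {A : E3 → E3} (hA : Continuous A) {u : Sp} (hu : Good u) (a : Fin 2) :
    Continuous fun x => dirac A u x a := by
  unfold dirac
  exact continuous_finsetSum _ fun k _ => continuous_finsetSum _ fun t _ =>
    continuous_const.mul (continuous_cov hA hu.smooth k t)

theorem supp_dirac {A : E3 → E3} {u : Sp} (hu : Good u) (a : Fin 2) :
    HasCompactSupport fun x => dirac A u x a := by
  have h : ∀ k t, (fun x => cov A u k x t) =ᶠ[Filter.coclosedCompact E3] 0 := fun k t =>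
    hasCompactSupport_iff_eventuallyEq.1 (cov_supp hu k t)
  rw [hasCompactSupport_iff_eventuallyEq]
  have h2 : ∀ᶠ x in Filter.coclosedCompact E3, ∀ k t, cov A u k x t = 0 := by
    rw [Filter.eventually_all]; intro k
    rw [Filter.eventually_all]; intro a
    exact h k a
  filter_upwards [h2] with x hx
  unfold dirac
  simp [hx]

theorem qf_gDir {A : E3 → E3} (hA : Continuous A) {u : ι → Sp} (hu : ∀ m, Good (u m))
    (α : ι → ℂ) : qf (gDir A u) α = ∫ x, diracSq A (comb u α) x := by
  unfold gDir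
  rw [qf_gram]
  · refine integral_congr_ae (Filter.Eventually.of_forall fun x => ?_)
    simp only [diracSq]
    refine Finset.sum_congr rfl fun a _ => ?_
    rw [dirac_comb A (fun m a => (hu m).smooth a)]
  · intro m n
    apply integrable_finsetSum
    intro s _
    exact ((Complex.continuous_conj.comp (continuous_dirac hA (hu m) s)).mul
      (continuous_dirac hA (hu n) s)).integrable_of_hasCompactSupport
      (supp_dirac (hu n) s).mul_left

theorem qf_gTot {u : ι → Sp} (hu : ∀ m, Good (u m))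
    (α : ι → ℂ) : qf (gTot u) α = ∫ x, MA.sq (comb u α) x := by
  unfold gTot
  rw [qf_gram]
  · rfl
  · intro m n
    apply integrable_finsetSum
    intro s _
    exact ((Complex.continuous_conj.comp ((hu m).smooth s).continuous).mul
      ((hu n).smooth s).continuous).integrable_of_hasCompactSupport ((hu n).supp s).mul_left

theorem qf_gCou {u : ι → Sp} (hu : ∀ m, Good (u m))
    (α : ι → ℂ) : qf (gCou u) α = ∫ x, MA.sq (comb u α) x / ‖x‖ := by
  unfold gCou
  rw [qf_gram]
  · refine integral_congr_ae (Filter.Eventually.of_forall fun x => ?_)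
    simp only [MA.sq]
    rw [Finset.sum_div]
    refine Finset.sum_congr rfl fun a _ => ?_
    have : ∑ m, α m * ((((√‖x‖)⁻¹ : ℝ) : ℂ) * u m x a) = (((√‖x‖)⁻¹ : ℝ) : ℂ) * comb u α x a := by
      unfold comb
      rw [Finset.mul_sum]
      exact Finset.sum_congr rfl fun m _ => by ring
    rw [this, norm_mul, mul_pow, Complex.norm_real, Real.norm_eq_abs, sq_abs, inv_pow,
      Real.sq_sqrt (norm_nonneg x), div_eq_mul_inv, mul_comm]
  · intro m n
    have hdom : Integrable (fun x => MA.sq (u m) x / ‖x‖ + MA.sq (u n) x / ‖x‖) :=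
      (coulomb_int (hu m)).add (coulomb_int (hu n))
    refine hdom.mono' ?_ (Filter.Eventually.of_forall fun x => ?_)
    · have hms : ∀ m, ∀ s, Measurable fun x => (((√‖x‖)⁻¹ : ℝ) : ℂ) * u m x s := by
        intro m s
        have h1 : Measurable fun x : E3 => (√‖x‖)⁻¹ := (measurable_norm.sqrt).inv
        exact (Complex.measurable_ofReal.comp h1).mul ((hu m).smooth s).continuous.measurable
      have : Measurable fun x => ∑ s, (starRingEnd ℂ) ((((√‖x‖)⁻¹ : ℝ) : ℂ) * u m x s) *
          ((((√‖x‖)⁻¹ : ℝ) : ℂ) * u n x s) := by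
        refine Finset.measurable_sum _ fun s _ => ?_
        exact (Complex.continuous_conj.measurable.comp (hms m s)).mul (hms n s)
      exact this.aestronglyMeasurable
    · refine (norm_sum_le _ _).trans ?_
      unfold MA.sq
      rw [Finset.sum_div, Finset.sum_div, ← Finset.sum_add_distrib]
      refine Finset.sum_le_sum fun s _ => ?_
      rw [norm_mul, RCLike.norm_conj, norm_mul, norm_mul, Complex.norm_real, Real.norm_eq_abs,
        abs_of_nonneg (by positivity)]
      have h1 : (√‖x‖)⁻¹ * (√‖x‖)⁻¹ = (‖x‖)⁻¹ := by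
        rw [← mul_inv, Real.mul_self_sqrt (norm_nonneg x)]
      calc (√‖x‖)⁻¹ * ‖u m x s‖ * ((√‖x‖)⁻¹ * ‖u n x s‖) =
          ((√‖x‖)⁻¹ * (√‖x‖)⁻¹) * (‖u m x s‖ * ‖u n x s‖) := by ring
        _ = ‖x‖⁻¹ * (‖u m x s‖ * ‖u n x s‖) := by rw [h1]
        _ ≤ ‖x‖⁻¹ * (‖u m x s‖ ^ 2 + ‖u n x s‖ ^ 2) := by
            apply mul_le_mul_of_nonneg_left _ (by positivity)
            nlinarith [sq_nonneg (‖u m x s‖ - ‖u n x s‖), sq_nonneg ‖u m x s‖, sq_nonneg ‖u n x s‖]
        _ = _ := by ring

variable [DecidableEq ι]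

theorem comb_single (u : ι → Sp) (m : ι) : comb u (Pi.single m 1) = u m := by
  funext x s
  unfold comb
  rw [Finset.sum_eq_single m]
  · simp
  · intro j _ hj; simp [hj]
  · simp

theorem sum_qf_single {G : Matrix ι ι ℂ} (hG : G.IsHermitian) :
    ∑ m, qf G (Pi.single m 1) = ∑ i, hG.eigenvalues i := by
  have h := hG.trace_eq_sum_eigenvalues
  have h2 : ∀ m, qf G (Pi.single m 1) = (G m m).re := by
    intro m
    unfold qf
    congr 1
    simp [Pi.star_single]
  simp_rw [h2]
  rw [← Complex.re_sum]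
  have h3 : ∑ m, G m m = G.trace := rfl
  rw [h3, h]
  simp

end

/-- the one-body Hamiltonian matrix -/
noncomputable def gH {ι : Type*} [Fintype ι] (A : E3 → E3) (z : ℝ) (u : ι → Sp) : Matrix ι ι ℂ :=
  (gDir A u + (-z) • gCou u) + (36 * z ^ 2) • gTot u

theorem gH_herm {ι : Type*} [Fintype ι] (A : E3 → E3) (z : ℝ) (u : ι → Sp) :
    (gH A z u).IsHermitian :=
  herm_add_smul (herm_add_smul (gram_herm _ _) (gram_herm _ _) _) (gram_herm _ _) _

theorem qf_gH {ι : Type*} [Fintype ι] {A : E3 → E3} (hA : Continuous A) (z : ℝ) {u : ι → Sp}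
    (hu : ∀ m, Good (u m)) (α : ι → ℂ) :
    qf (gH A z u) α = (∫ x, diracSq A (comb u α) x) - z * (∫ x, MA.sq (comb u α) x / ‖x‖) +
      36 * z ^ 2 * ∫ x, MA.sq (comb u α) x := by
  unfold gH
  rw [qf_add, qf_add, qf_smul, qf_smul, qf_gDir hA hu, qf_gCou hu, qf_gTot hu]
  ring

/-- counting the low eigenvalues -/
theorem count {ι : Type*} [Fintype ι] [DecidableEq ι] {A : E3 → E3} (hA : ContDiff ℝ 1 A)
    {u : ι → Sp} (hu : ∀ m, Good (u m))
    (hmass : ∀ α : ι → ℂ, ∫ x, MA.sq (comb u α) x ≤ ∑ m, ‖α m‖ ^ 2) {z : ℝ} (hz : 0 < z)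
    {F : List ((Fin 3 → ℝ) × ℝ)} {c : Fin 3 → ℝ} {l : ℝ} (hF0 : ∀ q ∈ F, 0 < q.2)
    (hF : TreeProp A F c l) (hl : z / (20 * (36 * z ^ 2)) ≤ l)
    (hs1 : ∀ m x, x ∉ box c l → ∀ a, u m x a = 0)
    (hs2 : ∀ m x, x ∉ box c l → ∀ k a, cov A (u m) k x a = 0) (μ : ℝ) (hμ : 0 < μ) :
    Fintype.card {i // μ < -(gH_herm A z u).eigenvalues i} ≤
      2 * Fintype.card {q : Fin F.length // μ < (z / 20) * (1 / (F.get q).2)} := by
  classical
  by_contra hcon
  push Not at hcon
  set hH := gH_herm A z u with hHdef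
  set S := {i // μ < -hH.eigenvalues i} with hS
  set J := {q : Fin F.length // μ < (z / 20) * (1 / (F.get q).2)} with hJ
  let v : S → Sp := fun i => comb u (hH.eigenvectorBasis i.1).ofLp
  have hv : ∀ i, Good (v i) := fun i => Good.comb hu _
  obtain ⟨γ, hγ0, hγ⟩ := index_lemma (ι := S) (J := J)
    (fun j => gKin A (box (F.get j.1).1 (F.get j.1).2) v +
      (-((1 / 10000) * ((F.get j.1).2⁻¹) ^ 2) : ℝ) • gMass (box (F.get j.1).1 (F.get j.1).2) v)
    (fun j => idx_herm A v _ _)
    (fun j => idx2_cube hA.continuous (fun m a => (hv m).smooth a) _ _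
      (hF0 _ (List.get_mem F j.1))) hcon
  -- extend γ by zero
  let γ' : ι → ℂ := fun i => if h : μ < -hH.eigenvalues i then γ ⟨i, h⟩ else 0
  have hγ0' : ∀ i, ¬ (μ < -hH.eigenvalues i) → γ' i = 0 := fun i h => dif_neg h
  have hγ1' : ∀ i : S, γ' i.1 = γ i := fun i => dif_pos i.2
  have hsum : ∀ f : ι → ℂ → ℝ, (∀ i, f i 0 = 0) → ∑ i, f i (γ' i) = ∑ i : S, f i.1 (γ i) := by
    intro f hf
    have h1 : ∑ i, f i (γ' i) = ∑ i ∈ Finset.univ.filter (fun i => μ < -hH.eigenvalues i),
        f i (γ' i) := by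
      rw [Finset.sum_filter]
      refine Finset.sum_congr rfl fun i _ => ?_
      by_cases h : μ < -hH.eigenvalues i
      · rw [if_pos h]
      · rw [if_neg h]
        rw [hγ0' i h, hf]
    rw [h1, Finset.sum_subtype (p := fun i => μ < -hH.eigenvalues i) _ (by simp)]
    refine Finset.sum_congr rfl fun i _ => ?_
    rw [hγ1' i]
  have hcomb : comb v γ = comb u (ev hH γ') := by
    change comb (fun i : S => comb u (hH.eigenvectorBasis i.1).ofLp) γ = _
    rw [comb_comb]
    congr 1
    funext m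
    unfold ev
    have h1 : ∑ i, γ' i * (hH.eigenvectorBasis i).ofLp m =
        ∑ i ∈ Finset.univ.filter (fun i => μ < -hH.eigenvalues i),
        γ' i * (hH.eigenvectorBasis i).ofLp m := by
      rw [Finset.sum_filter]
      refine Finset.sum_congr rfl fun i _ => ?_
      by_cases h : μ < -hH.eigenvalues i
      · rw [if_pos h]
      · rw [if_neg h]
        rw [hγ0' i h, zero_mul]
    rw [h1, Finset.sum_subtype (p := fun i => μ < -hH.eigenvalues i) _ (by simp)]
    refine Finset.sum_congr rfl fun i _ => ?_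
    rw [hγ1' i]
  set w := comb v γ with hw
  have hwG : Good w := Good.comb hv γ
  have hμ' : 36 * z ^ 2 ≤ 36 * z ^ 2 + μ := by linarith
  have hpos := total_pos hA hwG hz hμ' hF ?_ ?_ ?_ ?_
  · -- contradiction
    have h1 := qf_gH hA.continuous z hu (ev hH γ')
    rw [qf_ev hH, ← hcomb, hsum (fun i y => hH.eigenvalues i * ‖y‖ ^ 2) (by simp)] at h1
    have h2 := hmass (ev hH γ')
    rw [← hcomb, norm_ev hH, hsum (fun i y => ‖y‖ ^ 2) (by simp)] at h2
    have h3 : ∑ i : S, hH.eigenvalues i.1 * ‖γ i‖ ^ 2 < ∑ i : S, (-μ) * ‖γ i‖ ^ 2 := by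
      obtain ⟨i0, hi0⟩ : ∃ i, γ i ≠ 0 := by
        by_contra hn; push Not at hn; exact hγ0 (funext hn)
      apply Finset.sum_lt_sum
      · intro i _
        have := i.2
        apply mul_le_mul_of_nonneg_right _ (by positivity)
        linarith
      · refine ⟨i0, Finset.mem_univ _, ?_⟩
        have := i0.2
        have h5 : 0 < ‖γ i0‖ ^ 2 := by positivity
        apply mul_lt_mul_of_pos_right _ h5
        linarith
    rw [← Finset.mul_sum] at h3
    have h6 := mul_le_mul_of_nonneg_left h2 hμ.le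
    nlinarith
  · refine le_trans ?_ hl
    apply div_le_div_of_nonneg_left hz.le (by positivity)
    apply mul_le_mul_of_nonneg_left hμ' (by norm_num)
  · intro x hx
    rw [hcomb]
    unfold MA.sq comb
    simp [hs1 _ x hx]
  · intro x hx
    rw [hcomb]
    unfold covSq
    simp_rw [cov_comb A (fun m a => (hu m).smooth a)]
    simp [hs2 _ x hx]
  · intro q hq hql
    obtain ⟨j, rfl⟩ := List.get_of_mem hq
    have hq0 := hF0 _ hq
    have hj : μ < (z / 20) * (1 / (F.get j).2) := by
      rw [mul_one_div, lt_div_iff₀ hq0]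
      have h1 : (F.get j).2 * (20 * (36 * z ^ 2 + μ)) < z := by
        rwa [lt_div_iff₀ (by positivity)] at hql
      have h2 : 0 ≤ (F.get j).2 * (36 * z ^ 2) := by positivity
      nlinarith
    have h1 := hγ ⟨j, hj⟩
    rw [qf_add, qf_smul, qf_gKin hA.continuous (fun m a => (hv m).smooth a),
      qf_gMass (fun m a => (hv m).smooth a)] at h1
    exact h1

end Pool.Agent.H9R2.MA
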