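import Pool.Agent.H9R2.MA.OneBody2

set_option autoImplicit false
open MeasureTheory
open scoped ENNReal

namespace Pool.Agent.H9R2.MA

theorem Bsq_supp {A : E3 → E3} (hAc : HasCompactSupport A) : HasCompactSupport (Bsq A) := by
  have h1 : HasCompactSupport (fderiv ℝ A) := hAc.fderiv ℝ
  refine h1.mono' ?_
  intro x hx
  by_contra hn
  apply hx
  have h0 : fderiv ℝ A x = 0 := by
    by_contra h
    exact hn (subset_tsupport _ h)
  unfold Bsq
  simp [h0]

/-- Lieb-Thirring type bound for finite families -/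
theorem one_body {ι : Type*} [Fintype ι] [DecidableEq ι] {A : E3 → E3} (hA : ContDiff ℝ 1 A)
    (hAc : HasCompactSupport A) {u : ι → Sp} (hu : ∀ m, Good (u m))
    (hmass : ∀ α : ι → ℂ, ∫ x, MA.sq (comb u α) x ≤ ∑ m, ‖α m‖ ^ 2) {z : ℝ} (hz : 0 < z) :
    -((z / 10) * (32 * 40000 ^ 2 * ∫ x, Bsq A x)) ≤
      ∑ m, ((∫ x, diracSq A (u m) x) - z * (∫ x, MA.sq (u m) x / ‖x‖) +
        36 * z ^ 2 * ∫ x, MA.sq (u m) x) := by
  classical
  -- a big cube
  obtain ⟨R, hR0, hR⟩ : ∃ R : ℝ, 0 < R ∧ ∀ m a, tsupport (fun x => u m x a) ⊆ Metric.ball 0 R := by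
    have h1 : ∀ m a, ∃ R : ℝ, tsupport (fun x => u m x a) ⊆ Metric.ball 0 R := by
      intro m a
      obtain ⟨R, hR⟩ := (((hu m).supp a).isCompact.isBounded).subset_ball 0
      exact ⟨R, hR⟩
    choose R hR using h1
    refine ⟨1 + ∑ m, ∑ a, |R m a|, by positivity, fun m a => (hR m a).trans ?_⟩
    apply Metric.ball_subset_ball
    have h2 : |R m a| ≤ ∑ m, ∑ a, |R m a| := by
      calc |R m a| ≤ ∑ a, |R m a| :=
            Finset.single_le_sum (f := fun a => |R m a|) (fun _ _ => abs_nonneg _)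
              (Finset.mem_univ a)
        _ ≤ _ := Finset.single_le_sum (f := fun m => ∑ a, |R m a|)
              (fun _ _ => Finset.sum_nonneg fun _ _ => abs_nonneg _) (Finset.mem_univ m)
    linarith [le_abs_self (R m a)]
  set R' := R + z / (20 * (36 * z ^ 2)) with hR'
  have hq0 : 0 < z / (20 * (36 * z ^ 2)) := by positivity
  have hR'0 : 0 < R' := by linarith
  set c : Fin 3 → ℝ := fun _ => -R' with hc
  set l : ℝ := 2 * R' with hl
  have hl0 : 0 < l := by linarith
  have hout : ∀ x : E3, x ∉ box c l → x ∉ Metric.ball (0:E3) R := by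
    intro x hx hx'
    apply hx
    intro i
    have h1 : ‖x i‖ ≤ ‖x‖ := PiLp.norm_apply_le x i
    rw [mem_ball_zero_iff] at hx'
    rw [Real.norm_eq_abs] at h1
    have h2 := abs_le.1 h1
    simp only [hc, hl]
    constructor <;> linarith [h2.1, h2.2]
  have hs0 : ∀ m x, x ∉ box c l → ∀ a, x ∉ tsupport (fun x => u m x a) := fun m x hx a hx' =>
    hout x hx (hR m a hx')
  have hs1 : ∀ m x, x ∉ box c l → ∀ a, u m x a = 0 := fun m x hx a =>
    image_eq_zero_of_notMem_tsupport (f := fun x => u m x a) (hs0 m x hx a)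
  have hs2 : ∀ m x, x ∉ box c l → ∀ k a, cov A (u m) k x a = 0 := by
    intro m x hx k a
    unfold cov
    rw [hs1 m x hx a, fderiv_of_notMem_tsupport ℝ (hs0 m x hx a)]
    simp
  obtain ⟨n, hn⟩ : ∃ n : ℕ, l * ∫ x in box c l, Bsq A x ≤ 2 ^ n * (1 / 40000) ^ 2 := by
    obtain ⟨n, hn⟩ := pow_unbounded_of_one_lt ((l * ∫ x in box c l, Bsq A x) / (1 / 40000) ^ 2)
      (by norm_num : (1:ℝ) < 2)
    refine ⟨n, ?_⟩
    rw [div_lt_iff₀ (by positivity)] at hn
    exact hn.le
  obtain ⟨F, hF0, hFs, hF⟩ := tree hA n c l hl0 hn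
  have hH := gH_herm A z u
  have hlay := layer (fun i => -hH.eigenvalues i)
    (fun q : Fin F.length => (z / 20) * (1 / (F.get q).2)) 2
    (fun μ hμ => count hA hu hmass hz hF0 hF (by rw [hl]; linarith) hs1 hs2 μ hμ)
    (fun q => by
      have := hF0 _ (List.get_mem F q)
      positivity)
  have e1 : ∑ q : Fin F.length, (z / 20) * (1 / (F.get q).2) =
      (z / 20) * (F.map (fun q => 1 / q.2)).sum := by
    rw [← Finset.mul_sum]
    congr 1
    rw [← List.sum_ofFn]
    congr 1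
    apply List.ext_getElem
    · simp
    · intro i h1 h2
      simp
  rw [e1] at hlay
  have hB : ∫ x in box c l, Bsq A x ≤ ∫ x, Bsq A x := by
    apply setIntegral_le_integral
    · exact (continuous_Bsq hA).integrable_of_hasCompactSupport (Bsq_supp hAc)
    · exact Filter.Eventually.of_forall (Bsq_nonneg A)
  have hB0 : 0 ≤ ∫ x, Bsq A x := integral_nonneg (Bsq_nonneg A)
  have h2 : (F.map (fun q => 1 / q.2)).sum ≤ 32 * 40000 ^ 2 * ∫ x, Bsq A x := by
    refine hFs.trans ?_
    apply max_le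
    · positivity
    · have : 0 < 16 / l := by positivity
      nlinarith
  have h3 : ∑ m, ((∫ x, diracSq A (u m) x) - z * (∫ x, MA.sq (u m) x / ‖x‖) +
        36 * z ^ 2 * ∫ x, MA.sq (u m) x) = ∑ i, hH.eigenvalues i := by
    rw [← sum_qf_single hH]
    refine Finset.sum_congr rfl fun m _ => ?_
    rw [qf_gH hA.continuous z hu, comb_single]
  rw [h3]
  have h4 : -∑ i, max (-hH.eigenvalues i) 0 ≤ ∑ i, hH.eigenvalues i := by
    rw [← Finset.sum_neg_distrib]
    apply Finset.sum_le_sum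
    intro i _
    linarith [le_max_left (-hH.eigenvalues i) 0]
  have h5 := mul_le_mul_of_nonneg_left h2 (by positivity : (0:ℝ) ≤ z / 20)
  push_cast at hlay
  linarith

end Pool.Agent.H9R2.MA
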