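import Pool.Agent.H9R2.MA.Sob

set_option autoImplicit false
open MeasureTheory
open scoped ENNReal

namespace Pool.Agent.H9R2.MA

/-- second derivatives commute after integration -/
theorem ibp2 {F g : E3 → ℂ} (hF : ContDiff ℝ 2 F) (hg : ContDiff ℝ 2 g) (hgc : HasCompactSupport g)
    (j k : Fin 3) :
    ∫ x, fderiv ℝ F x (e3 j) * fderiv ℝ g x (e3 k) =
      ∫ x, fderiv ℝ F x (e3 k) * fderiv ℝ g x (e3 j) := by
  have hg1 : ContDiff ℝ 1 g := hg.of_le (by norm_num)
  have hdF : ∀ i, ContDiff ℝ 1 (fun x => fderiv ℝ F x (e3 i)) := fun i =>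
    (hF.fderiv_right (m := 1) (by norm_num)).clm_apply contDiff_const
  have hdg : ∀ i, Continuous (fun x => fderiv ℝ g x (e3 i)) := fun i =>
    (hg.continuous_fderiv (by norm_num)).clm_apply continuous_const
  have hdgc : ∀ i, HasCompactSupport (fun x => fderiv ℝ g x (e3 i)) := fun i =>
    hgc.fderiv_apply ℝ (e3 i)
  have key : ∀ i i' : Fin 3, ∫ x, fderiv ℝ F x (e3 i) * fderiv ℝ g x (e3 i') =
      - ∫ x, fderiv ℝ (fun y => fderiv ℝ F y (e3 i)) x (e3 i') * g x := by
    intro i i'
    apply integral_mul_fderiv_eq_neg_fderiv_mul_of_integrable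
    · apply Continuous.integrable_of_hasCompactSupport
      · exact (((hdF i).continuous_fderiv (by norm_num)).clm_apply continuous_const).mul
          hg.continuous
      · exact hgc.mul_left
    · apply Continuous.integrable_of_hasCompactSupport
      · exact (hdF i).continuous.mul (hdg i')
      · exact (hdgc i').mul_left
    · apply Continuous.integrable_of_hasCompactSupport
      · exact (hdF i).continuous.mul hg.continuous
      · exact hgc.mul_left
    · intro x _; exact ((hdF i).differentiable (by norm_num)) x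
    · intro x _; exact (hg.differentiable (by norm_num)) x
  have hsym : ∀ x, fderiv ℝ (fun y => fderiv ℝ F y (e3 j)) x (e3 k) =
      fderiv ℝ (fun y => fderiv ℝ F y (e3 k)) x (e3 j) := by
    intro x
    have hd : DifferentiableAt ℝ (fderiv ℝ F) x :=
      ((hF.fderiv_right (m := 1) (by norm_num)).differentiable (by norm_num)) x
    have h1 : ∀ i : Fin 3, fderiv ℝ (fun y => fderiv ℝ F y (e3 i)) x =
        (ContinuousLinearMap.apply ℝ ℂ (e3 i)).comp (fderiv ℝ (fderiv ℝ F) x) := by
      intro i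
      exact ((ContinuousLinearMap.apply ℝ ℂ (e3 i)).hasFDerivAt.comp x hd.hasFDerivAt).fderiv
    rw [h1, h1]
    have h2 : IsSymmSndFDerivAt ℝ F x := hF.contDiffAt.isSymmSndFDerivAt (by simp)
    exact (h2 (e3 j) (e3 k)).symm
  rw [key j k, key k j]
  simp_rw [hsym]

/-- components of the spin density -/
noncomputable def mm (u : Sp) (l : Fin 3) (x : E3) : ℝ :=
  ![2 * ((u x 0).re * (u x 1).re + (u x 0).im * (u x 1).im),
    2 * ((u x 0).re * (u x 1).im - (u x 0).im * (u x 1).re),
    (u x 0).re ^ 2 + (u x 0).im ^ 2 - (u x 1).re ^ 2 - (u x 1).im ^ 2] l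

/-- directional derivative -/
noncomputable def dd (u : Sp) (k : Fin 3) (a : Fin 2) (x : E3) : ℂ :=
  fderiv ℝ (fun y => u y a) x (e3 k)

section

variable {u : Sp} (hu : ∀ a, ContDiff ℝ 2 (fun x => u x a))
include hu

theorem re_deriv (a : Fin 2) (x : E3) :
    HasFDerivAt (fun y => (u y a).re) (Complex.reCLM.comp (fderiv ℝ (fun y => u y a) x)) x :=
  Complex.reCLM.hasFDerivAt.comp x (((hu a).differentiable (by norm_num)) x).hasFDerivAt

theorem im_deriv (a : Fin 2) (x : E3) :
    HasFDerivAt (fun y => (u y a).im) (Complex.imCLM.comp (fderiv ℝ (fun y => u y a) x)) x :=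
  Complex.imCLM.hasFDerivAt.comp x (((hu a).differentiable (by norm_num)) x).hasFDerivAt

theorem mm_deriv (l k : Fin 3) (x : E3) : fderiv ℝ (mm u l) x (e3 k) =
    ![2 * ((dd u k 0 x).re * (u x 1).re + (u x 0).re * (dd u k 1 x).re +
        (dd u k 0 x).im * (u x 1).im + (u x 0).im * (dd u k 1 x).im),
      2 * ((dd u k 0 x).re * (u x 1).im + (u x 0).re * (dd u k 1 x).im -
        (dd u k 0 x).im * (u x 1).re - (u x 0).im * (dd u k 1 x).re),
      2 * ((u x 0).re * (dd u k 0 x).re + (u x 0).im * (dd u k 0 x).im -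
        (u x 1).re * (dd u k 1 x).re - (u x 1).im * (dd u k 1 x).im)] l := by
  have r0 := re_deriv hu 0 x
  have r1 := re_deriv hu 1 x
  have i0 := im_deriv hu 0 x
  have i1 := im_deriv hu 1 x
  fin_cases l
  · have h := (((r0.mul r1).add (i0.mul i1)).const_mul (2:ℝ)).fderiv
    change fderiv ℝ (fun x => 2 * ((u x 0).re * (u x 1).re + (u x 0).im * (u x 1).im)) x (e3 k) = _
    rw [show (fun x => 2 * ((u x 0).re * (u x 1).re + (u x 0).im * (u x 1).im)) =
      (fun y => 2 * (((fun y => (u y 0).re) * fun y => (u y 1).re) +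
        (fun y => (u y 0).im) * fun y => (u y 1).im) y) from rfl, h]
    simp [dd]
    ring
  · have h := (((r0.mul i1).sub (i0.mul r1)).const_mul (2:ℝ)).fderiv
    change fderiv ℝ (fun x => 2 * ((u x 0).re * (u x 1).im - (u x 0).im * (u x 1).re)) x (e3 k) = _
    rw [show (fun x => 2 * ((u x 0).re * (u x 1).im - (u x 0).im * (u x 1).re)) =
      (fun y => 2 * (((fun y => (u y 0).re) * fun y => (u y 1).im) -
        (fun y => (u y 0).im) * fun y => (u y 1).re) y) from rfl, h]
    simp [dd]
    ring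
  · have h := ((((r0.pow 2).add (i0.pow 2)).sub (r1.pow 2)).sub (i1.pow 2)).fderiv
    change fderiv ℝ (fun x => (u x 0).re ^ 2 + (u x 0).im ^ 2 - (u x 1).re ^ 2 - (u x 1).im ^ 2) x
      (e3 k) = _
    rw [show (fun x => (u x 0).re ^ 2 + (u x 0).im ^ 2 - (u x 1).re ^ 2 - (u x 1).im ^ 2) =
      (((fun x => (u x 0).re ^ 2) + fun x => (u x 0).im ^ 2) - fun x => (u x 1).re ^ 2) -
        fun x => (u x 1).im ^ 2 from rfl, h]
    simp [dd]
    ring

theorem contDiff_mm (l : Fin 3) : ContDiff ℝ 2 (mm u l) := by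
  have r : ∀ a, ContDiff ℝ 2 (fun y => (u y a).re) := fun a => Complex.reCLM.contDiff.comp (hu a)
  have i : ∀ a, ContDiff ℝ 2 (fun y => (u y a).im) := fun a => Complex.imCLM.contDiff.comp (hu a)
  fin_cases l
  · exact contDiff_const.mul (((r 0).mul (r 1)).add ((i 0).mul (i 1)))
  · exact contDiff_const.mul (((r 0).mul (i 1)).sub ((i 0).mul (r 1)))
  · exact ((((r 0).pow 2).add ((i 0).pow 2)).sub ((r 1).pow 2)).sub ((i 1).pow 2)

theorem supp_mm (hc : ∀ a, HasCompactSupport (fun x => u x a)) (l : Fin 3) :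
    HasCompactSupport (mm u l) := by
  have h : HasCompactSupport (fun x => (u x 0, u x 1)) := by
    have h0 := (hc 0)
    have h1 := (hc 1)
    rw [hasCompactSupport_iff_eventuallyEq] at h0 h1 ⊢
    filter_upwards [h0, h1] with x hx0 hx1
    simp [hx0, hx1]
  refine h.mono' ?_
  intro x hx
  apply subset_closure
  intro h0
  apply hx
  have a0 : u x 0 = 0 := by simpa using (congrArg Prod.fst h0)
  have a1 : u x 1 = 0 := by simpa using (congrArg Prod.snd h0)
  fin_cases l <;> simp [mm, a0, a1]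

end

end Pool.Agent.H9R2.MA
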