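import Pool.Agent.H9R2.MA.Pauli

set_option autoImplicit false
open MeasureTheory
open scoped ENNReal

namespace Pool.Agent.H9R2.MA

/-- derivative-derivative cross terms -/
noncomputable def tdd (u : Sp) (x : E3) : ℝ :=
  2 * ((-Complex.I * ((starRingEnd ℂ) (dd u 0 1 x) * dd u 1 1 x)).re +
    ((starRingEnd ℂ) (dd u 0 1 x) * dd u 2 0 x).re +
    (Complex.I * ((starRingEnd ℂ) (dd u 1 1 x) * dd u 2 0 x)).re +
    (Complex.I * ((starRingEnd ℂ) (dd u 0 0 x) * dd u 1 0 x)).re -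
    ((starRingEnd ℂ) (dd u 0 0 x) * dd u 2 1 x).re +
    (Complex.I * ((starRingEnd ℂ) (dd u 1 0 x) * dd u 2 1 x)).re)

/-- vector potential cross terms -/
noncomputable def ta (A : E3 → E3) (u : Sp) (x : E3) : ℝ :=
  (A x 0 * fderiv ℝ (mm u 2) x (e3 1) - A x 1 * fderiv ℝ (mm u 2) x (e3 0)) +
  (A x 1 * fderiv ℝ (mm u 0) x (e3 2) - A x 2 * fderiv ℝ (mm u 0) x (e3 1)) +
  (A x 2 * fderiv ℝ (mm u 1) x (e3 0) - A x 0 * fderiv ℝ (mm u 1) x (e3 2))

theorem pointwise {u : Sp} (hu : ∀ a, ContDiff ℝ 2 (fun x => u x a)) (A : E3 → E3) (x : E3) :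
    diracSq A u x = covSq A u x + tdd u x + ta A u x := by
  have hcov : ∀ k a, cov A u k x a = (-Complex.I) * dd u k a x + ((A x k : ℝ) : ℂ) * u x a :=
    fun k a => rfl
  unfold diracSq covSq tdd ta dirac
  simp only [mm_deriv hu, Fin.sum_univ_two, Fin.sum_univ_three, hcov]
  simp only [← Complex.normSq_eq_norm_sq, Complex.normSq_apply]
  simp only [pauli, Matrix.cons_val_zero, Matrix.cons_val_one, Matrix.cons_val, Matrix.of_apply,
    Matrix.cons_val_fin_one]
  generalize (dd u 0 0 x) = a00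
  generalize (dd u 0 1 x) = a01
  generalize (dd u 1 0 x) = a10
  generalize (dd u 1 1 x) = a11
  generalize (dd u 2 0 x) = a20
  generalize (dd u 2 1 x) = a21
  generalize u x 0 = u0
  generalize u x 1 = u1
  generalize A x 0 = p
  generalize A x 1 = q
  generalize A x 2 = r
  obtain ⟨b00, c00⟩ := a00
  obtain ⟨b01, c01⟩ := a01
  obtain ⟨b10, c10⟩ := a10
  obtain ⟨b11, c11⟩ := a11
  obtain ⟨b20, c20⟩ := a20
  obtain ⟨b21, c21⟩ := a21
  obtain ⟨v0, w0⟩ := u0
  obtain ⟨v1, w1⟩ := u1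
  simp only [Complex.add_re, Complex.add_im, Complex.mul_re, Complex.mul_im, Complex.conj_re,
    Complex.conj_im, Complex.I_re, Complex.I_im, Complex.neg_re, Complex.neg_im, Complex.one_re,
    Complex.one_im, Complex.zero_re, Complex.zero_im, Complex.ofReal_re, Complex.ofReal_im]
  ring

end Pool.Agent.H9R2.MA
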