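import Pool.Agent.H9R2.MA.Pauli2

set_option autoImplicit false
open MeasureTheory
open scoped ENNReal

namespace Pool.Agent.H9R2.MA

theorem conj_dd {u : Sp} (hu : ∀ a, ContDiff ℝ 2 (fun x => u x a)) (j : Fin 3) (a : Fin 2) (x : E3) :
    (starRingEnd ℂ) (dd u j a x) = fderiv ℝ (fun y => (starRingEnd ℂ) (u y a)) x (e3 j) := by
  have h : HasFDerivAt (fun y => (starRingEnd ℂ) (u y a))
      ((Complex.conjCLE : ℂ →L[ℝ] ℂ).comp (fderiv ℝ (fun y => u y a) x)) x :=
    (Complex.conjCLE : ℂ →L[ℝ] ℂ).hasFDerivAt.comp x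
      (((hu a).differentiable (by norm_num)) x).hasFDerivAt
  rw [h.fderiv]
  rfl

section

variable {u : Sp} (hu : Good u)
include hu

theorem dd_cont (k : Fin 3) (a : Fin 2) : Continuous (dd u k a) :=
  ((hu.smooth a).continuous_fderiv (by norm_num)).clm_apply continuous_const

theorem dd_supp (k : Fin 3) (a : Fin 2) : HasCompactSupport (dd u k a) :=
  (hu.supp a).fderiv_apply ℝ (e3 k)

theorem dd_int (j k : Fin 3) (a b : Fin 2) :
    Integrable (fun x => (starRingEnd ℂ) (dd u j a x) * dd u k b x) := by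
  apply Continuous.integrable_of_hasCompactSupport
  · exact (Complex.continuous_conj.comp (dd_cont hu j a)).mul (dd_cont hu k b)
  · exact (dd_supp hu k b).mul_left

theorem dd_swap (j k : Fin 3) (a b : Fin 2) :
    ∫ x, (starRingEnd ℂ) (dd u j a x) * dd u k b x =
      ∫ x, (starRingEnd ℂ) (dd u k a x) * dd u j b x := by
  simp_rw [conj_dd hu.smooth]
  have hF : ContDiff ℝ 2 (fun y => (starRingEnd ℂ) (u y a)) :=
    (Complex.conjCLE : ℂ →L[ℝ] ℂ).contDiff.comp (hu.smooth a)
  exact ibp2 hF (hu.smooth b) (hu.supp b) j k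

theorem dd_conj (j k : Fin 3) (a b : Fin 2) :
    (starRingEnd ℂ) (∫ x, (starRingEnd ℂ) (dd u j a x) * dd u k b x) =
      ∫ x, (starRingEnd ℂ) (dd u k b x) * dd u j a x := by
  rw [← integral_conj]
  refine integral_congr_ae (Filter.Eventually.of_forall fun x => ?_)
  simp only [map_mul, Complex.conj_conj]
  ring

theorem int_tdd : ∫ x, tdd u x = 0 := by
  have hre : ∀ (z : ℂ) (j k : Fin 3) (a b : Fin 2),
      ∫ x, (z * ((starRingEnd ℂ) (dd u j a x) * dd u k b x)).re =
        (z * ∫ x, (starRingEnd ℂ) (dd u j a x) * dd u k b x).re := by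
    intro z j k a b
    rw [← integral_const_mul]
    exact integral_re ((dd_int hu j k a b).const_mul z)
  have hre1 : ∀ (j k : Fin 3) (a b : Fin 2),
      ∫ x, ((starRingEnd ℂ) (dd u j a x) * dd u k b x).re =
        (∫ x, (starRingEnd ℂ) (dd u j a x) * dd u k b x).re := by
    intro j k a b
    exact integral_re (dd_int hu j k a b)
  have hi : ∀ (z : ℂ) (j k : Fin 3) (a b : Fin 2),
      Integrable (fun x => (z * ((starRingEnd ℂ) (dd u j a x) * dd u k b x)).re) := fun z j k a b =>
    ((dd_int hu j k a b).const_mul z).re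
  have hi1 : ∀ (j k : Fin 3) (a b : Fin 2),
      Integrable (fun x => ((starRingEnd ℂ) (dd u j a x) * dd u k b x).re) := fun j k a b =>
    (dd_int hu j k a b).re
  unfold tdd
  rw [integral_const_mul, integral_add, integral_sub, integral_add, integral_add, integral_add,
    hre, hre1, hre, hre, hre1, hre]
  · have c1 := congrArg Complex.im (dd_conj hu 0 1 1 1)
    rw [dd_swap hu 1 0 1 1] at c1
    have c2 := congrArg Complex.im (dd_conj hu 0 1 0 0)
    rw [dd_swap hu 1 0 0 0] at c2
    have c3 := congrArg Complex.re (dd_conj hu 0 2 1 0)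
    rw [dd_swap hu 2 0 0 1] at c3
    have c4 := congrArg Complex.im (dd_conj hu 1 2 1 0)
    rw [dd_swap hu 2 1 0 1] at c4
    simp only [Complex.conj_im, Complex.conj_re] at c1 c2 c3 c4
    simp only [Complex.mul_re, Complex.neg_re, Complex.neg_im, Complex.I_re, Complex.I_im]
    linarith
  · exact hi _ _ _ _ _
  · exact hi1 _ _ _ _
  · exact (hi _ _ _ _ _).add (hi1 _ _ _ _)
  · exact hi _ _ _ _ _
  · exact ((hi _ _ _ _ _).add (hi1 _ _ _ _)).add (hi _ _ _ _ _)
  · exact hi _ _ _ _ _
  · exact (((hi _ _ _ _ _).add (hi1 _ _ _ _)).add (hi _ _ _ _ _)).add (hi _ _ _ _ _)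
  · exact hi1 _ _ _ _
  · exact ((((hi _ _ _ _ _).add (hi1 _ _ _ _)).add (hi _ _ _ _ _)).add (hi _ _ _ _ _)).sub
      (hi1 _ _ _ _)
  · exact hi _ _ _ _ _

end

theorem A_comp_fderiv {A : E3 → E3} (hA : ContDiff ℝ 1 A) (i k : Fin 3) (x : E3) :
    fderiv ℝ (fun y => A y i) x (e3 k) = (fderiv ℝ A x (e3 k)) i := by
  have h : HasFDerivAt (fun y => A y i)
      ((EuclideanSpace.proj i : E3 →L[ℝ] ℝ).comp (fderiv ℝ A x)) x :=
    (EuclideanSpace.proj i : E3 →L[ℝ] ℝ).hasFDerivAt.comp x
      ((hA.differentiable (by norm_num)) x).hasFDerivAt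
  rw [h.fderiv]
  rfl

/-- components of the magnetic field -/
noncomputable def bb (A : E3 → E3) (l : Fin 3) (x : E3) : ℝ :=
  ![(fderiv ℝ A x (e3 1)) 2 - (fderiv ℝ A x (e3 2)) 1,
    (fderiv ℝ A x (e3 2)) 0 - (fderiv ℝ A x (e3 0)) 2,
    (fderiv ℝ A x (e3 0)) 1 - (fderiv ℝ A x (e3 1)) 0] l

theorem int_ta {A : E3 → E3} (hA : ContDiff ℝ 1 A) {u : Sp} (hu : Good u) :
    ∫ x, ta A u x = ∫ x, (bb A 0 x * mm u 0 x + bb A 1 x * mm u 1 x + bb A 2 x * mm u 2 x) := by
  have hAi : ∀ i, ContDiff ℝ 1 (fun y => A y i) := fun i =>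
    (EuclideanSpace.proj i : E3 →L[ℝ] ℝ).contDiff.comp hA
  have hdA : ∀ i k, Continuous (fun x => fderiv ℝ (fun y => A y i) x (e3 k)) := fun i k =>
    ((hAi i).continuous_fderiv (by norm_num)).clm_apply continuous_const
  have hm := contDiff_mm hu.smooth
  have hmc := supp_mm hu.smooth hu.supp
  have hdm : ∀ l k, Continuous (fun x => fderiv ℝ (mm u l) x (e3 k)) := fun l k =>
    ((hm l).continuous_fderiv (by norm_num)).clm_apply continuous_const
  have i1 : ∀ i l k, Integrable (fun x => A x i * fderiv ℝ (mm u l) x (e3 k)) := by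
    intro i l k
    apply Continuous.integrable_of_hasCompactSupport
    · exact (hAi i).continuous.mul (hdm l k)
    · exact ((hmc l).fderiv_apply ℝ (e3 k)).mul_left
  have i2 : ∀ i l k, Integrable (fun x => (fderiv ℝ A x (e3 k)) i * mm u l x) := by
    intro i l k
    have : (fun x => (fderiv ℝ A x (e3 k)) i * mm u l x) =
        fun x => fderiv ℝ (fun y => A y i) x (e3 k) * mm u l x := by
      funext x; rw [A_comp_fderiv hA]
    rw [this]
    apply Continuous.integrable_of_hasCompactSupport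
    · exact (hdA i k).mul (hm l).continuous
    · exact (hmc l).mul_left
  have key : ∀ i l k, ∫ x, A x i * fderiv ℝ (mm u l) x (e3 k) =
      - ∫ x, (fderiv ℝ A x (e3 k)) i * mm u l x := by
    intro i l k
    have : (fun x => (fderiv ℝ A x (e3 k)) i * mm u l x) =
        fun x => fderiv ℝ (fun y => A y i) x (e3 k) * mm u l x := by
      funext x; rw [A_comp_fderiv hA]
    rw [this]
    apply integral_mul_fderiv_eq_neg_fderiv_mul_of_integrable
    · rw [← this]; exact i2 i l k
    · exact i1 i l k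
    · apply Continuous.integrable_of_hasCompactSupport
      · exact (hAi i).continuous.mul (hm l).continuous
      · exact (hmc l).mul_left
    · intro x _; exact ((hAi i).differentiable (by norm_num)) x
    · intro x _; exact ((hm l).differentiable (by norm_num)) x
  unfold ta
  rw [integral_add, integral_add, integral_sub, integral_sub, integral_sub, key, key, key, key, key,
    key]
  · have e : ∫ x, (bb A 0 x * mm u 0 x + bb A 1 x * mm u 1 x + bb A 2 x * mm u 2 x) =
        ∫ x, ((((fderiv ℝ A x (e3 1)) 2 * mm u 0 x - (fderiv ℝ A x (e3 2)) 1 * mm u 0 x) +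
          ((fderiv ℝ A x (e3 2)) 0 * mm u 1 x - (fderiv ℝ A x (e3 0)) 2 * mm u 1 x)) +
          ((fderiv ℝ A x (e3 0)) 1 * mm u 2 x - (fderiv ℝ A x (e3 1)) 0 * mm u 2 x)) := by
      refine integral_congr_ae (Filter.Eventually.of_forall fun x => ?_)
      simp only [bb, Matrix.cons_val_zero, Matrix.cons_val_one, Matrix.cons_val]
      ring
    rw [e, integral_add, integral_add, integral_sub, integral_sub, integral_sub]
    · ring
    · exact i2 _ _ _
    · exact i2 _ _ _
    · exact i2 _ _ _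
    · exact i2 _ _ _
    · exact i2 _ _ _
    · exact i2 _ _ _
    · exact (i2 _ _ _).sub (i2 _ _ _)
    · exact (i2 _ _ _).sub (i2 _ _ _)
    · exact ((i2 _ _ _).sub (i2 _ _ _)).add ((i2 _ _ _).sub (i2 _ _ _))
    · exact (i2 _ _ _).sub (i2 _ _ _)
  · exact i1 _ _ _
  · exact i1 _ _ _
  · exact i1 _ _ _
  · exact i1 _ _ _
  · exact i1 _ _ _
  · exact i1 _ _ _
  · exact (i1 _ _ _).sub (i1 _ _ _)
  · exact (i1 _ _ _).sub (i1 _ _ _)
  · exact ((i1 _ _ _).sub (i1 _ _ _)).add ((i1 _ _ _).sub (i1 _ _ _))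
  · exact (i1 _ _ _).sub (i1 _ _ _)

theorem Bsq_eq (A : E3 → E3) (x : E3) : Bsq A x = bb A 0 x ^ 2 + bb A 1 x ^ 2 + bb A 2 x ^ 2 := by
  unfold Bsq bb
  simp only [Fin.sum_univ_three, Matrix.cons_val_zero, Matrix.cons_val_one, Matrix.cons_val]
  ring

theorem Bsq_nonneg (A : E3 → E3) (x : E3) : 0 ≤ Bsq A x := by
  rw [Bsq_eq]; positivity

theorem mm_sq (u : Sp) (x : E3) : mm u 0 x ^ 2 + mm u 1 x ^ 2 + mm u 2 x ^ 2 = MA.sq u x ^ 2 := by
  unfold mm MA.sq
  simp only [Fin.sum_univ_two, Matrix.cons_val_zero, Matrix.cons_val_one, Matrix.cons_val]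
  rw [← Complex.normSq_eq_norm_sq, ← Complex.normSq_eq_norm_sq, Complex.normSq_apply,
    Complex.normSq_apply]
  ring

theorem continuous_Bsq {A : E3 → E3} (hA : ContDiff ℝ 1 A) : Continuous (Bsq A) := by
  have h : ∀ i k : Fin 3, Continuous fun x => (fderiv ℝ A x (e3 k)) i := by
    intro i k
    exact (EuclideanSpace.proj i : E3 →L[ℝ] ℝ).continuous.comp
      ((hA.continuous_fderiv (by norm_num)).clm_apply continuous_const)
  unfold Bsq
  exact continuous_const.mul (continuous_finsetSum _ fun j _ => continuous_finsetSum _ fun k _ =>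
    ((h k j).sub (h j k)).pow 2)

theorem Good.sq_supp {u : Sp} (hu : Good u) : HasCompactSupport (MA.sq u) := by
  have h0 := (hu.supp 0)
  have h1 := (hu.supp 1)
  rw [hasCompactSupport_iff_eventuallyEq] at h0 h1 ⊢
  filter_upwards [h0, h1] with x hx0 hx1
  simp only [Pi.zero_apply] at hx0 hx1
  simp [MA.sq, Fin.sum_univ_two, hx0, hx1]

theorem Good.sq_int {u : Sp} (hu : Good u) : Integrable (MA.sq u) :=
  (contDiff_sq hu.smooth).continuous.integrable_of_hasCompactSupport hu.sq_supp

theorem cov_supp {A : E3 → E3} {u : Sp} (hu : Good u) (k : Fin 3) (a : Fin 2) :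
    HasCompactSupport fun x => cov A u k x a := by
  unfold cov
  exact (((hu.supp a).fderiv_apply ℝ (e3 k)).mul_left).add ((hu.supp a).mul_left)

theorem Good.covSq_supp {A : E3 → E3} {u : Sp} (hu : Good u) : HasCompactSupport (covSq A u) := by
  have h : ∀ k a, (fun x => cov A u k x a) =ᶠ[Filter.coclosedCompact E3] 0 := fun k a =>
    hasCompactSupport_iff_eventuallyEq.1 (cov_supp hu k a)
  rw [hasCompactSupport_iff_eventuallyEq]
  have h2 : ∀ᶠ x in Filter.coclosedCompact E3, ∀ k a, cov A u k x a = 0 := by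
    rw [Filter.eventually_all]; intro k
    rw [Filter.eventually_all]; intro a
    exact h k a
  filter_upwards [h2] with x hx
  simp [covSq, hx]

theorem Good.covSq_int {A : E3 → E3} (hA : Continuous A) {u : Sp} (hu : Good u) :
    Integrable (covSq A u) :=
  (continuous_covSq hA hu.smooth).integrable_of_hasCompactSupport hu.covSq_supp

theorem Good.BU_int {A : E3 → E3} (hA : ContDiff ℝ 1 A) {u : Sp} (hu : Good u) :
    Integrable (fun x => √(Bsq A x) * MA.sq u x) :=
  ((continuous_Bsq hA).sqrt.mul (contDiff_sq hu.smooth).continuous).integrable_of_hasCompactSupport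
    hu.sq_supp.mul_left

theorem pauli_ineq {A : E3 → E3} (hA : ContDiff ℝ 1 A) {u : Sp} (hu : Good u) :
    (∫ x, covSq A u x) - ∫ x, √(Bsq A x) * MA.sq u x ≤ ∫ x, diracSq A u x := by
  have hpt := pointwise hu.smooth A
  have htdd : Integrable (tdd u) := by
    unfold tdd
    refine ((((((((dd_int hu _ _ _ _).const_mul _).re).add (dd_int hu _ _ _ _).re).add
      ((dd_int hu _ _ _ _).const_mul _).re).add ((dd_int hu _ _ _ _).const_mul _).re).sub
      (dd_int hu _ _ _ _).re).add ((dd_int hu _ _ _ _).const_mul _).re).const_mul 2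
  have hta : Integrable (ta A u) := by
    have hAi : ∀ i, ContDiff ℝ 1 (fun y => A y i) := fun i =>
      (EuclideanSpace.proj i : E3 →L[ℝ] ℝ).contDiff.comp hA
    have hm := contDiff_mm hu.smooth
    have hmc := supp_mm hu.smooth hu.supp
    have hdm : ∀ l k, Continuous (fun x => fderiv ℝ (mm u l) x (e3 k)) := fun l k =>
      ((hm l).continuous_fderiv (by norm_num)).clm_apply continuous_const
    have i1 : ∀ i l k, Integrable (fun x => A x i * fderiv ℝ (mm u l) x (e3 k)) := by
      intro i l k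
      apply Continuous.integrable_of_hasCompactSupport
      · exact (hAi i).continuous.mul (hdm l k)
      · exact ((hmc l).fderiv_apply ℝ (e3 k)).mul_left
    unfold ta
    exact (((i1 _ _ _).sub (i1 _ _ _)).add ((i1 _ _ _).sub (i1 _ _ _))).add
      ((i1 _ _ _).sub (i1 _ _ _))
  have h1 : ∫ x, diracSq A u x = (∫ x, covSq A u x) + ∫ x, ta A u x := by
    simp_rw [hpt]
    have hc := hu.covSq_int hA.continuous
    have hct : Integrable (fun x => covSq A u x + tdd u x) := hc.add htdd
    rw [integral_add hct hta, integral_add hc htdd, int_tdd hu, add_zero]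
  rw [h1, int_ta hA hu]
  have h2 : - ∫ x, √(Bsq A x) * MA.sq u x ≤
      ∫ x, (bb A 0 x * mm u 0 x + bb A 1 x * mm u 1 x + bb A 2 x * mm u 2 x) := by
    rw [← integral_neg]
    apply integral_mono (hu.BU_int hA).neg
    · have hbc : ∀ l, Continuous (bb A l) := by
        intro l
        have h : ∀ i k : Fin 3, Continuous fun x => (fderiv ℝ A x (e3 k)) i := by
          intro i k
          exact (EuclideanSpace.proj i : E3 →L[ℝ] ℝ).continuous.comp
            ((hA.continuous_fderiv (by norm_num)).clm_apply continuous_const)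
        fin_cases l
        · exact (h _ _).sub (h _ _)
        · exact (h _ _).sub (h _ _)
        · exact (h _ _).sub (h _ _)
      have hi : ∀ l, Integrable (fun x => bb A l x * mm u l x) := fun l =>
        ((hbc l).mul (contDiff_mm hu.smooth l).continuous).integrable_of_hasCompactSupport
          (supp_mm hu.smooth hu.supp l).mul_left
      exact ((hi 0).add (hi 1)).add (hi 2)
    · intro x
      simp only
      have h3 : (bb A 0 x * mm u 0 x + bb A 1 x * mm u 1 x + bb A 2 x * mm u 2 x) ^ 2 ≤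
          (√(Bsq A x) * MA.sq u x) ^ 2 := by
        rw [mul_pow, Real.sq_sqrt (Bsq_nonneg A x), Bsq_eq, ← mm_sq]
        nlinarith [sq_nonneg (bb A 0 x * mm u 1 x - bb A 1 x * mm u 0 x),
          sq_nonneg (bb A 0 x * mm u 2 x - bb A 2 x * mm u 0 x),
          sq_nonneg (bb A 1 x * mm u 2 x - bb A 2 x * mm u 1 x)]
      have h4 : 0 ≤ √(Bsq A x) * MA.sq u x := mul_nonneg (Real.sqrt_nonneg _) (sq_nonneg' u x)
      exact (abs_le.1 (abs_le_of_sq_le_sq' h3 h4 |> abs_le.2)).1
  linarith

end Pool.Agent.H9R2.MA
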