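import Pool.Agent.H9R2.MA.Grid2

set_option autoImplicit false
open MeasureTheory
open scoped ENNReal

namespace Pool.Agent.H9R2.MA

theorem measurableSet_box (c : Fin 3 → ℝ) (l : ℝ) : MeasurableSet (box c l) := by
  have : box c l = ⋂ i, {x : E3 | c i ≤ x i ∧ x i < c i + l} := by
    ext x; simp [box]
  rw [this]
  refine MeasurableSet.iInter fun i => ?_
  have hm : Measurable fun x : E3 => x i := by fun_prop
  exact (measurableSet_le measurable_const hm).inter (measurableSet_lt hm measurable_const)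

theorem isBounded_box (c : Fin 3 → ℝ) (l : ℝ) : Bornology.IsBounded (box c l) := by
  rw [isBounded_iff_forall_norm_le]
  refine ⟨Real.sqrt (∑ i, (|c i| + |l|) ^ 2), ?_⟩
  intro x hx
  rw [EuclideanSpace.norm_eq]
  apply Real.sqrt_le_sqrt
  apply Finset.sum_le_sum
  intro i _
  apply pow_le_pow_left₀ (norm_nonneg _)
  rw [Real.norm_eq_abs, abs_le]
  have h1 := hx i
  have h2 := abs_nonneg (c i)
  have h3 := abs_nonneg l
  have h4 := neg_abs_le (c i)
  have h5 := le_abs_self (c i)
  have h6 := le_abs_self l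
  constructor <;> linarith

theorem Continuous.intBox {f : E3 → ℝ} (hf : Continuous f) (c : Fin 3 → ℝ) (l : ℝ) :
    IntegrableOn f (box c l) := by
  have h : IntegrableOn f (closure (box c l)) :=
    hf.continuousOn.integrableOn_compact (isBounded_box c l).isCompact_closure
  exact h.mono_set subset_closure

/-- Cauchy-Schwarz -/
theorem cs {X : Type*} [MeasurableSpace X] {μ : Measure X} {f g : X → ℝ}
    (hf : Integrable (fun x => f x ^ 2) μ) (hg : Integrable (fun x => g x ^ 2) μ)
    (hfg : Integrable (fun x => f x * g x) μ) :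
    (∫ x, f x * g x ∂μ) ^ 2 ≤ (∫ x, f x ^ 2 ∂μ) * ∫ x, g x ^ 2 ∂μ := by
  have h : ∀ t : ℝ, 0 ≤ (∫ x, f x ^ 2 ∂μ) * (t * t) + (2 * ∫ x, f x * g x ∂μ) * t +
      ∫ x, g x ^ 2 ∂μ := by
    intro t
    have h1 : 0 ≤ ∫ x, (t * f x + g x) ^ 2 ∂μ := integral_nonneg fun x => sq_nonneg _
    have h2 : ∫ x, (t * f x + g x) ^ 2 ∂μ = (∫ x, f x ^ 2 ∂μ) * (t * t) +
        (2 * ∫ x, f x * g x ∂μ) * t + ∫ x, g x ^ 2 ∂μ := by
      have e : (fun x => (t * f x + g x) ^ 2) =
          fun x => ((t * t) * f x ^ 2 + (2 * t) * (f x * g x)) + g x ^ 2 := by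
        funext x; ring
      rw [e, integral_add, integral_add, integral_const_mul, integral_const_mul]
      · ring
      · exact hf.const_mul _
      · exact hfg.const_mul _
      · exact (hf.const_mul _).add (hfg.const_mul _)
      · exact hg
    linarith
  have := discrim_le_zero h
  unfold discrim at this
  nlinarith

theorem sq_nonneg' (u : Sp) (x : E3) : 0 ≤ MA.sq u x :=
  Finset.sum_nonneg fun _ _ => by positivity

theorem covSq_nonneg (A : E3 → E3) (u : Sp) (x : E3) : 0 ≤ covSq A u x :=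
  Finset.sum_nonneg fun _ _ => Finset.sum_nonneg fun _ _ => by positivity

theorem contDiff_sq {u : Sp} (hu : ∀ a, ContDiff ℝ 2 (fun x => u x a)) : ContDiff ℝ 2 (MA.sq u) := by
  unfold MA.sq
  exact ContDiff.sum fun a _ => (hu a).norm_sq ℝ

theorem continuous_cov {A : E3 → E3} (hA : Continuous A) {u : Sp}
    (hu : ∀ a, ContDiff ℝ 2 (fun x => u x a)) (k : Fin 3) (a : Fin 2) :
    Continuous fun x => cov A u k x a := by
  unfold cov
  have h1 : Continuous fun x => fderiv ℝ (fun y => u y a) x (e3 k) :=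
    ((hu a).continuous_fderiv (by norm_num)).clm_apply continuous_const
  have h2 : Continuous fun x : E3 => (A x) k := by fun_prop
  have h3 := (hu a).continuous
  exact (continuous_const.mul h1).add ((Complex.continuous_ofReal.comp h2).mul h3)

theorem continuous_covSq {A : E3 → E3} (hA : Continuous A) {u : Sp}
    (hu : ∀ a, ContDiff ℝ 2 (fun x => u x a)) : Continuous (covSq A u) := by
  unfold covSq
  exact continuous_finsetSum _ fun k _ => continuous_finsetSum _ fun a _ =>
    ((continuous_cov hA hu k a).norm).pow 2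

/-- the diamagnetic inequality for `|u|²` -/
theorem fderiv_sq_le (A : E3 → E3) {u : Sp} (hu : ∀ a, ContDiff ℝ 2 (fun x => u x a)) (k : Fin 3)
    (x : E3) : |fderiv ℝ (MA.sq u) x (e3 k)| ≤ 2 * (√(MA.sq u x) * √(covSq A u x)) := by
  have hd : ∀ a, HasFDerivAt (fun y => u y a) (fderiv ℝ (fun y => u y a) x) x := fun a =>
    (((hu a).differentiable (by norm_num)) x).hasFDerivAt
  have h1 : HasFDerivAt (MA.sq u)
      (∑ a, (2 • (innerSL ℝ (u x a)).comp (fderiv ℝ (fun y => u y a) x))) x := by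
    unfold MA.sq
    exact HasFDerivAt.fun_sum fun a _ => (hd a).norm_sq
  rw [h1.fderiv]
  have h2 : (∑ a, (2 • (innerSL ℝ (u x a)).comp (fderiv ℝ (fun y => u y a) x))) (e3 k) =
      2 * ∑ a, ((starRingEnd ℂ) (u x a) * (Complex.I * cov A u k x a)).re := by
    rw [ContinuousLinearMap.sum_apply, Finset.mul_sum]
    refine Finset.sum_congr rfl fun a _ => ?_
    simp only [ContinuousLinearMap.smul_apply, ContinuousLinearMap.comp_apply, innerSL_apply_apply,
      cov, nsmul_eq_mul, Nat.cast_ofNat]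
    rw [Complex.inner]
    congr 1
    simp only [Complex.mul_re, Complex.mul_im, Complex.add_re, Complex.add_im, Complex.neg_re,
      Complex.neg_im, Complex.I_re, Complex.I_im, Complex.conj_re, Complex.conj_im,
      Complex.ofReal_re, Complex.ofReal_im]
    ring
  rw [h2, abs_mul, abs_of_pos (by norm_num : (0:ℝ) < 2)]
  apply mul_le_mul_of_nonneg_left _ (by norm_num)
  have h3 : ∀ a, |((starRingEnd ℂ) (u x a) * (Complex.I * cov A u k x a)).re| ≤
      ‖u x a‖ * ‖cov A u k x a‖ := by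
    intro a
    refine (Complex.abs_re_le_norm _).trans ?_
    rw [norm_mul, norm_mul, Complex.norm_I, one_mul, RCLike.norm_conj]
  calc |∑ a, ((starRingEnd ℂ) (u x a) * (Complex.I * cov A u k x a)).re| ≤
      ∑ a, |((starRingEnd ℂ) (u x a) * (Complex.I * cov A u k x a)).re| :=
        Finset.abs_sum_le_sum_abs _ _
    _ ≤ ∑ a, ‖u x a‖ * ‖cov A u k x a‖ := Finset.sum_le_sum fun a _ => h3 a
    _ ≤ √(∑ a, ‖u x a‖ ^ 2) * √(∑ a, ‖cov A u k x a‖ ^ 2) :=
        Real.sum_mul_le_sqrt_mul_sqrt _ _ _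
    _ ≤ √(MA.sq u x) * √(covSq A u x) := by
        apply mul_le_mul_of_nonneg_left _ (Real.sqrt_nonneg _)
        apply Real.sqrt_le_sqrt
        unfold covSq
        exact Finset.single_le_sum (f := fun k => ∑ a, ‖cov A u k x a‖ ^ 2)
          (fun k _ => Finset.sum_nonneg fun _ _ => by positivity) (Finset.mem_univ k)

/-- magnetic Sobolev inequality on a cube, sharp for constants -/
theorem cube_sobolev {A : E3 → E3} (hA : Continuous A) {u : Sp}
    (hu : ∀ a, ContDiff ℝ 2 (fun x => u x a)) (c : Fin 3 → ℝ) (l : ℝ) (hl : 0 < l) :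
    ∫ x in box c l, MA.sq u x ^ 2 ≤
      (l⁻¹ * √(∫ x in box c l, MA.sq u x) + 4 * √(∫ x in box c l, covSq A u x)) ^ 3 *
        √(∫ x in box c l, MA.sq u x) := by
  set U := MA.sq u with hU
  have hUc : Continuous U := (contDiff_sq hu).continuous
  have hU0 : ∀ x, 0 ≤ U x := sq_nonneg' u
  have hPc := continuous_covSq hA hu
  have hP0 := covSq_nonneg A u
  set f : E3 → ℝ := fun x => l⁻¹ * U x ^ 2 + 4 * (U x * √(U x) * √(covSq A u x)) with hf
  have hXc : Continuous fun x => U x * √(U x) * √(covSq A u x) :=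
    (hUc.mul hUc.sqrt).mul hPc.sqrt
  have hfc : Continuous f := (continuous_const.mul (hUc.pow 2)).add (continuous_const.mul hXc)
  have hgrid := grid_ineq (fun x => U x ^ 2) f (((contDiff_sq hu).of_le (by norm_num)).pow 2)
    (fun x => sq_nonneg _) hfc l hl c (by
      intro k x
      have hd : HasFDerivAt U (fderiv ℝ U x) x :=
        (((contDiff_sq hu).differentiable (by norm_num)) x).hasFDerivAt
      have h2 : fderiv ℝ (fun x => U x ^ 2) x (e3 k) = 2 * U x * fderiv ℝ U x (e3 k) := by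
        have := (hd.pow 2).fderiv
        rw [this]
        simp
      rw [h2, abs_mul, abs_of_nonneg (by have := hU0 x; positivity)]
      have h3 := fderiv_sq_le A hu k x
      rw [hf]
      simp only
      have h4 : 2 * U x * |fderiv ℝ U x (e3 k)| ≤ 2 * U x * (2 * (√(U x) * √(covSq A u x))) :=
        mul_le_mul_of_nonneg_left h3 (by have := hU0 x; positivity)
      linarith)
  have hf0 : ∀ x, 0 ≤ f x := fun x => by
    have := hU0 x
    rw [hf]; positivity
  -- convert to real integrals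
  have e1 : ∫⁻ x in box c l, ENNReal.ofReal (U x ^ 2) ^ (3 / 2 : ℝ) =
      ENNReal.ofReal (∫ x in box c l, U x ^ 3) := by
    have hi : IntegrableOn (fun x => U x ^ 3) (box c l) := Continuous.intBox (hUc.pow 3) c l
    rw [ofReal_integral_eq_lintegral_ofReal hi
      (Filter.Eventually.of_forall fun x => pow_nonneg (hU0 x) 3)]
    refine lintegral_congr fun x => ?_
    rw [ENNReal.ofReal_rpow_of_nonneg (sq_nonneg _) (by norm_num)]
    congr 1
    rw [← Real.rpow_natCast, ← Real.rpow_mul (hU0 x), ← Real.rpow_natCast]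
    norm_num
  have e2 : ∫⁻ x in box c l, ENNReal.ofReal (f x) = ENNReal.ofReal (∫ x in box c l, f x) := by
    rw [ofReal_integral_eq_lintegral_ofReal (Continuous.intBox hfc c l)
      (Filter.Eventually.of_forall hf0)]
  have hF0 : 0 ≤ ∫ x in box c l, f x := integral_nonneg hf0
  rw [e1, e2, ENNReal.ofReal_rpow_of_nonneg hF0 (by norm_num)] at hgrid
  have h3 : ∫ x in box c l, U x ^ 3 ≤ (∫ x in box c l, f x) ^ (3 / 2 : ℝ) :=
    (ENNReal.ofReal_le_ofReal_iff (Real.rpow_nonneg hF0 _)).1 hgrid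
  set m1 := ∫ x in box c l, U x with hm1
  set m2 := ∫ x in box c l, U x ^ 2 with hm2
  set m3 := ∫ x in box c l, U x ^ 3 with hm3
  set P := ∫ x in box c l, covSq A u x with hPdef
  have hm10 : 0 ≤ m1 := integral_nonneg hU0
  have hm20 : 0 ≤ m2 := integral_nonneg fun x => sq_nonneg _
  have hm30 : 0 ≤ m3 := integral_nonneg fun x => pow_nonneg (hU0 x) 3
  have hPP : 0 ≤ P := integral_nonneg hP0
  set X := ∫ x in box c l, U x * √(U x) * √(covSq A u x) with hX
  have hX0 : 0 ≤ X := integral_nonneg fun x => by have := hU0 x; positivity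
  have hFeq : ∫ x in box c l, f x = l⁻¹ * m2 + 4 * X := by
    rw [hf, integral_add, integral_const_mul, integral_const_mul]
    · exact (Continuous.intBox (hUc.pow 2) c l).const_mul _
    · exact (Continuous.intBox hXc c l).const_mul _
  have c1 : m2 ^ 2 ≤ m3 * m1 := by
    have h := cs (μ := volume.restrict (box c l)) (f := fun x => U x * √(U x)) (g := fun x => √(U x))
      (Continuous.intBox ((hUc.mul hUc.sqrt).pow 2) c l) (Continuous.intBox (hUc.sqrt.pow 2) c l)
      (Continuous.intBox ((hUc.mul hUc.sqrt).mul hUc.sqrt) c l)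
    have e3 : (fun x => U x * √(U x) * √(U x)) = fun x => U x ^ 2 := by
      funext x; rw [mul_assoc, Real.mul_self_sqrt (hU0 x)]; ring
    have e4 : (fun x => (U x * √(U x)) ^ 2) = fun x => U x ^ 3 := by
      funext x; rw [mul_pow, Real.sq_sqrt (hU0 x)]; ring
    have e5 : (fun x => √(U x) ^ 2) = fun x => U x := by
      funext x; rw [Real.sq_sqrt (hU0 x)]
    rw [e3, e4, e5] at h
    exact h
  have c2 : X ^ 2 ≤ m3 * P := by
    have h := cs (μ := volume.restrict (box c l)) (f := fun x => U x * √(U x))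
      (g := fun x => √(covSq A u x))
      (Continuous.intBox ((hUc.mul hUc.sqrt).pow 2) c l) (Continuous.intBox (hPc.sqrt.pow 2) c l)
      (Continuous.intBox hXc c l)
    have e4 : (fun x => (U x * √(U x)) ^ 2) = fun x => U x ^ 3 := by
      funext x; rw [mul_pow, Real.sq_sqrt (hU0 x)]; ring
    have e5 : (fun x => √(covSq A u x) ^ 2) = fun x => covSq A u x := by
      funext x; rw [Real.sq_sqrt (hP0 x)]
    rw [e4, e5] at h
    exact h
  have c1' : m2 ≤ √m3 * √m1 := by
    rw [← Real.sqrt_mul hm30]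
    exact Real.le_sqrt_of_sq_le c1
  have c2' : X ≤ √m3 * √P := by
    rw [← Real.sqrt_mul hm30]
    exact Real.le_sqrt_of_sq_le c2
  set S := l⁻¹ * √m1 + 4 * √P with hS
  have hS0 : 0 ≤ S := by positivity
  have hFS : ∫ x in box c l, f x ≤ √m3 * S := by
    rw [hFeq, hS]
    have : l⁻¹ * m2 ≤ l⁻¹ * (√m3 * √m1) := mul_le_mul_of_nonneg_left c1' (by positivity)
    linarith
  have h4 : m3 ^ 2 ≤ (∫ x in box c l, f x) ^ 3 := by
    have h5 : m3 ^ 2 ≤ ((∫ x in box c l, f x) ^ (3 / 2 : ℝ)) ^ 2 := pow_le_pow_left₀ hm30 h3 2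
    rw [← Real.rpow_natCast ((∫ x in box c l, f x) ^ (3 / 2 : ℝ)), ← Real.rpow_mul hF0] at h5
    norm_num at h5
    exact_mod_cast h5
  have h6 : m3 ^ 2 ≤ (√m3 * S) ^ 3 := h4.trans (pow_le_pow_left₀ hF0 hFS 3)
  have h7 : √m3 ≤ S ^ 3 := by
    rcases eq_or_lt_of_le hm30 with h | h
    · rw [← h]; simp; positivity
    · have hs : 0 < √m3 := Real.sqrt_pos.2 h
      have h8 : m3 = √m3 ^ 2 := (Real.sq_sqrt hm30).symm
      have h9 : √m3 ^ 3 * √m3 ≤ √m3 ^ 3 * S ^ 3 := by
        calc √m3 ^ 3 * √m3 = (√m3 ^ 2) ^ 2 := by ring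
          _ = m3 ^ 2 := by rw [← h8]
          _ ≤ (√m3 * S) ^ 3 := h6
          _ = √m3 ^ 3 * S ^ 3 := by ring
      exact le_of_mul_le_mul_left h9 (by positivity)
  calc m2 ≤ √m3 * √m1 := c1'
    _ ≤ S ^ 3 * √m1 := mul_le_mul_of_nonneg_right h7 (Real.sqrt_nonneg _)

end Pool.Agent.H9R2.MA
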